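import Pool.Agent.Helper259_SB.Def

set_option autoImplicit false

/-!
Elementary facts about balls in word metrics, and balls in direct products.
-/

open scoped Pointwise
open Filter Topology

namespace Pool.Agent.Helper259_SB

variable {G : Type*} [Group G]

theorem ball_mono (S : Set G) {m n : ℕ} (h : m ≤ n) : ball S m ⊆ ball S n := by
  rintro g ⟨l, hl, hx, hg⟩
  exact ⟨l, hl.trans h, hx, hg⟩

theorem one_mem_ball (S : Set G) (n : ℕ) : (1 : G) ∈ ball S n :=
  ⟨[], by simp, by simp, by simp⟩

theorem mul_mem_ball {S : Set G} {m n : ℕ} {u v : G} (hu : u ∈ ball S m) (hv : v ∈ ball S n) :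
    u * v ∈ ball S (m + n) := by
  obtain ⟨l, hl, hx, rfl⟩ := hu
  obtain ⟨l', hl', hx', rfl⟩ := hv
  refine ⟨l ++ l', by rw [List.length_append]; omega, ?_, by simp⟩
  intro x hx2
  rcases List.mem_append.mp hx2 with h | h
  · exact hx x h
  · exact hx' x h

theorem mem_ball_one {S : Set G} {x : G} (h : x ∈ S ∨ x⁻¹ ∈ S) : x ∈ ball S 1 :=
  ⟨[x], by simp, by simpa using h, by simp⟩

theorem inv_mem_ball {S : Set G} {n : ℕ} {u : G} (hu : u ∈ ball S n) : u⁻¹ ∈ ball S n := by
  obtain ⟨l, hl, hx, rfl⟩ := hu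
  refine ⟨(l.map (fun x => x⁻¹)).reverse, by simpa using hl, ?_, ?_⟩
  · intro x hx'
    rw [List.mem_reverse, List.mem_map] at hx'
    obtain ⟨y, hy, rfl⟩ := hx'
    rw [inv_inv]
    exact (hx y hy).symm
  · rw [List.prod_inv_reverse]

theorem ball_split {S : Set G} {m n : ℕ} {x : G} (h : x ∈ ball S (m + n)) :
    ∃ u ∈ ball S m, ∃ v ∈ ball S n, u * v = x := by
  obtain ⟨l, hl, hx, rfl⟩ := h
  refine ⟨(l.take m).prod, ⟨l.take m, by rw [List.length_take]; omega,
    fun x hx' => hx x (List.mem_of_mem_take hx'), rfl⟩, (l.drop m).prod,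
    ⟨l.drop m, by rw [List.length_drop]; omega,
      fun x hx' => hx x (List.mem_of_mem_drop hx'), rfl⟩, ?_⟩
  exact List.prod_take_mul_prod_drop l m

theorem ball_add_eq (S : Set G) (m n : ℕ) : ball S (m + n) = ball S m * ball S n := by
  ext x
  rw [Set.mem_mul]
  constructor
  · intro h
    obtain ⟨u, hu, v, hv, hx⟩ := ball_split h
    exact ⟨u, hu, v, hv, hx⟩
  · rintro ⟨u, hu, v, hv, rfl⟩
    exact mul_mem_ball hu hv

theorem ball_zero (S : Set G) : ball S 0 = {1} := by
  ext x
  rw [Set.mem_singleton_iff]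
  constructor
  · rintro ⟨l, hl, _, rfl⟩
    have : l = [] := List.length_eq_zero_iff.mp (by omega)
    subst this; simp
  · rintro rfl; exact one_mem_ball S 0

theorem ball_one (S : Set G) : ball S 1 = S ∪ S⁻¹ ∪ {1} := by
  ext x
  constructor
  · rintro ⟨l, hl, hx, rfl⟩
    match l, hl with
    | [], _ => right; simp
    | [y], _ =>
      have := hx y (by simp)
      left
      simpa using this
  · rintro ((h | h) | h)
    · exact mem_ball_one (Or.inl h)
    · exact mem_ball_one (Or.inr h)
    · rw [Set.mem_singleton_iff] at h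
      rw [h]; exact one_mem_ball S 1

theorem ball_eq_pow (S : Set G) (n : ℕ) : ball S n = (S ∪ S⁻¹ ∪ {1}) ^ n := by
  induction n with
  | zero => rw [ball_zero, pow_zero]; rfl
  | succ n ih => rw [ball_add_eq, ih, ball_one, pow_succ]

theorem ball_finite {S : Set G} (hS : S.Finite) (n : ℕ) : (ball S n).Finite := by
  induction n with
  | zero => rw [ball_zero]; exact Set.finite_singleton 1
  | succ n ih =>
    rw [ball_add_eq, ball_one]
    exact ih.mul ((hS.union hS.inv).union (Set.finite_singleton 1))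

theorem ball_pos {S : Set G} (hS : S.Finite) (n : ℕ) : 0 < (ball S n).ncard :=
  (Set.ncard_pos (ball_finite hS n)).mpr ⟨1, one_mem_ball S n⟩

theorem ncard_ball_mono {S : Set G} (hS : S.Finite) : Monotone (fun n => (ball S n).ncard) :=
  fun _ _ h => Set.ncard_le_ncard (ball_mono S h) (ball_finite hS _)

theorem ncard_ball_add {S : Set G} (hS : S.Finite) (m n : ℕ) :
    (ball S (m + n)).ncard ≤ (ball S m).ncard * (ball S n).ncard := by
  classical
  rw [ball_add_eq, ← Set.ncard_prod]
  have : ball S m * ball S n = (fun p : G × G => p.1 * p.2) '' (ball S m ×ˢ ball S n) := by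
    rw [Set.image_mul_prod]
  rw [this]
  exact Set.ncard_image_le ((ball_finite hS m).prod (ball_finite hS n))

theorem exists_mem_ball {S : Set G} (hS : Subgroup.closure S = ⊤) (g : G) :
    ∃ n, g ∈ ball S n := by
  have hg : g ∈ Subgroup.closure S := by rw [hS]; trivial
  induction hg using Subgroup.closure_induction with
  | mem x hx => exact ⟨1, mem_ball_one (Or.inl hx)⟩
  | one => exact ⟨0, one_mem_ball S 0⟩
  | mul x y _ _ hx hy =>
    obtain ⟨m, hm⟩ := hx
    obtain ⟨n, hn⟩ := hy
    exact ⟨m + n, mul_mem_ball hm hn⟩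
  | inv x _ hx =>
    obtain ⟨m, hm⟩ := hx
    exact ⟨m, inv_mem_ball hm⟩

theorem ball_subset_closure (S : Set G) (n : ℕ) : ball S n ⊆ Subgroup.closure S := by
  rintro g ⟨l, _, hx, rfl⟩
  refine Subgroup.list_prod_mem _ fun x hx' => ?_
  rcases hx x hx' with h | h
  · exact Subgroup.subset_closure h
  · have := Subgroup.inv_mem _ (Subgroup.subset_closure (k := S) h)
    rwa [inv_inv] at this

/-- comparing two generating sets -/
theorem ball_compare {S T : Set G} (hS : S.Finite) (hT : Subgroup.closure T = ⊤) :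
    ∃ C : ℕ, ∀ n, ball S n ⊆ ball T (C * n) := by
  classical
  have h1 : ∃ C : ℕ, ∀ x ∈ S, x ∈ ball T C := by
    refine Set.Finite.induction_on S hS ⟨0, by simp⟩ ?_
    rintro a s _ _ ⟨C, hC⟩
    obtain ⟨n, hn⟩ := exists_mem_ball hT a
    refine ⟨max C n, ?_⟩
    intro x hx
    rcases Set.mem_insert_iff.mp hx with rfl | hx
    · exact ball_mono T (le_max_right _ _) hn
    · exact ball_mono T (le_max_left _ _) (hC x hx)
  obtain ⟨C, hC⟩ := h1
  refine ⟨C, fun n => ?_⟩
  induction n with
  | zero => rw [ball_zero, mul_zero, ball_zero]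
  | succ n ih =>
    intro x hx
    obtain ⟨u, hu, v, hv, rfl⟩ := ball_split hx
    rw [mul_add, mul_one]
    refine mul_mem_ball (ih hu) ?_
    rw [ball_one] at hv
    rcases hv with (h | h) | h
    · exact hC v h
    · have := inv_mem_ball (hC _ h)
      rwa [inv_inv] at this
    · rw [Set.mem_singleton_iff] at h
      rw [h]; exact one_mem_ball T C

/-- word length -/
noncomputable def len (S : Set G) (g : G) : ℕ := sInf {n | g ∈ ball S n}

theorem mem_ball_iff_len {S : Set G} (hS : Subgroup.closure S = ⊤) (g : G) (n : ℕ) :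
    g ∈ ball S n ↔ len S g ≤ n := by
  constructor
  · intro h
    exact Nat.sInf_le h
  · intro h
    obtain ⟨m, hm⟩ := exists_mem_ball hS g
    have : g ∈ ball S (len S g) := Nat.sInf_mem (s := {n | g ∈ ball S n}) ⟨m, hm⟩
    exact ball_mono S h this

section Sub

/-- the preimage of a set in the subgroup it generates -/
theorem ball_coe (S : Set G) (n : ℕ) :
    (Subtype.val : Subgroup.closure S → G) '' (ball (Subtype.val ⁻¹' S) n) = ball S n := by
  ext x
  constructor
  · rintro ⟨y, ⟨l, hl, hx, rfl⟩, rfl⟩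
    refine ⟨l.map Subtype.val, by simpa using hl, ?_, ?_⟩
    · intro z hz
      rw [List.mem_map] at hz
      obtain ⟨w, hw, rfl⟩ := hz
      exact hx w hw
    · exact (map_list_prod (Subgroup.closure S).subtype l).symm
  · rintro ⟨l, hl, hx, rfl⟩
    have hmem : ∀ y ∈ l, y ∈ Subgroup.closure S := by
      intro y hy
      rcases hx y hy with h | h
      · exact Subgroup.subset_closure h
      · have := Subgroup.inv_mem _ (Subgroup.subset_closure (k := S) h)
        rwa [inv_inv] at this
    refine ⟨(l.attach.map (fun y => (⟨y.1, hmem y.1 y.2⟩ : Subgroup.closure S))).prod,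
      ⟨_, by simpa using hl, ?_, rfl⟩, ?_⟩
    · intro z hz
      rw [List.mem_map] at hz
      obtain ⟨w, hw, rfl⟩ := hz
      exact hx w.1 w.2
    · have := map_list_prod (Subgroup.closure S).subtype
        (l.attach.map (fun y => (⟨y.1, hmem y.1 y.2⟩ : Subgroup.closure S)))
      refine this.trans ?_
      rw [List.map_map]
      congr 1
      exact l.attach_map_subtype_val

theorem ncard_ball_coe (S : Set G) (n : ℕ) :
    (ball (Subtype.val ⁻¹' S : Set (Subgroup.closure S)) n).ncard = (ball S n).ncard := by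
  rw [← ball_coe S n, Set.ncard_image_of_injective _ Subtype.val_injective]

theorem ncard_sphere_coe (S : Set G) (m n : ℕ) :
    (ball (Subtype.val ⁻¹' S : Set (Subgroup.closure S)) m \
      ball (Subtype.val ⁻¹' S) n).ncard = (ball S m \ ball S n).ncard := by
  rw [← ball_coe S n, ← ball_coe S m, ← Set.image_diff Subtype.val_injective,
    Set.ncard_image_of_injective _ Subtype.val_injective]

end Sub

section Prod

variable {H : Type*} [Group H]

/-- the union of two generating sets in the direct product -/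
def un (S : Set G) (T : Set H) : Set (G × H) := (S ×ˢ {1}) ∪ ({1} ×ˢ T)

theorem un_finite {S : Set G} {T : Set H} (hS : S.Finite) (hT : T.Finite) : (un S T).Finite :=
  (hS.prod (Set.finite_singleton 1)).union ((Set.finite_singleton 1).prod hT)

theorem mem_ball_un (S : Set G) (T : Set H) (n : ℕ) (p : G × H) :
    p ∈ ball (un S T) n ↔ ∃ i j, i + j ≤ n ∧ p.1 ∈ ball S i ∧ p.2 ∈ ball T j := by
  constructor
  · rintro ⟨l, hl, hx, rfl⟩
    have key : ∀ l : List (G × H), (∀ x ∈ l, x ∈ un S T ∨ x⁻¹ ∈ un S T) →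
        ∃ i j, i + j ≤ l.length ∧ l.prod.1 ∈ ball S i ∧ l.prod.2 ∈ ball T j := by
      intro l
      induction l with
      | nil => intro _; exact ⟨0, 0, by simp, one_mem_ball S 0, one_mem_ball T 0⟩
      | cons x l ih =>
        intro hx
        obtain ⟨i, j, hij, h1, h2⟩ := ih (fun y hy => hx y (List.mem_cons_of_mem _ hy))
        have hcase : (x.1 ∈ ball S 1 ∧ x.2 = 1) ∨ (x.1 = 1 ∧ x.2 ∈ ball T 1) := by
          rcases hx x List.mem_cons_self with h | h
          · rcases h with h | h
            · exact Or.inl ⟨mem_ball_one (Or.inl h.1), h.2⟩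
            · exact Or.inr ⟨h.1, mem_ball_one (Or.inl h.2)⟩
          · rcases h with h | h
            · refine Or.inl ⟨mem_ball_one (Or.inr h.1), ?_⟩
              have : (x⁻¹).2 = 1 := h.2
              simpa using this
            · refine Or.inr ⟨?_, mem_ball_one (Or.inr h.2)⟩
              have : (x⁻¹).1 = 1 := h.1
              simpa using this
        rw [List.prod_cons, List.length_cons]
        rcases hcase with ⟨ha, hb⟩ | ⟨ha, hb⟩
        · refine ⟨1 + i, j, by omega, mul_mem_ball ha h1, ?_⟩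
          rw [Prod.snd_mul, hb, one_mul]; exact h2
        · refine ⟨i, 1 + j, by omega, ?_, mul_mem_ball hb h2⟩
          rw [Prod.fst_mul, ha, one_mul]; exact h1
    obtain ⟨i, j, hij, h1, h2⟩ := key l hx
    exact ⟨i, j, by omega, h1, h2⟩
  · rintro ⟨i, j, hij, ⟨l, hl, hx, h1⟩, ⟨l', hl', hx', h2⟩⟩
    have ha : ((p.1, 1) : G × H) ∈ ball (un S T) i := by
      refine ⟨l.map (fun y => (y, 1)), by simpa using hl, ?_, ?_⟩
      · intro z hz
        rw [List.mem_map] at hz
        obtain ⟨w, hw, rfl⟩ := hz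
        rcases hx w hw with h | h
        · exact Or.inl (Or.inl ⟨h, rfl⟩)
        · exact Or.inr (Or.inl ⟨h, by simp⟩)
      · rw [← h1]
        exact (map_list_prod (MonoidHom.inl G H) l).symm
    have hb : ((1, p.2) : G × H) ∈ ball (un S T) j := by
      refine ⟨l'.map (fun y => (1, y)), by simpa using hl', ?_, ?_⟩
      · intro z hz
        rw [List.mem_map] at hz
        obtain ⟨w, hw, rfl⟩ := hz
        rcases hx' w hw with h | h
        · exact Or.inl (Or.inr ⟨rfl, h⟩)
        · exact Or.inr (Or.inr ⟨by simp, h⟩)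
      · rw [← h2]
        exact (map_list_prod (MonoidHom.inr G H) l').symm
    have := mul_mem_ball ha hb
    rw [Prod.mk_mul_mk, mul_one, one_mul] at this
    exact ball_mono _ hij this

theorem closure_un {S : Set G} {T : Set H} (hS : Subgroup.closure S = ⊤)
    (hT : Subgroup.closure T = ⊤) : Subgroup.closure (un S T) = ⊤ := by
  rw [eq_top_iff]
  intro p _
  obtain ⟨i, hi⟩ := exists_mem_ball hS p.1
  obtain ⟨j, hj⟩ := exists_mem_ball hT p.2
  exact ball_subset_closure _ _ ((mem_ball_un S T (i + j) p).mpr ⟨i, j, le_refl _, hi, hj⟩)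

theorem mem_ball_un_len {S : Set G} {T : Set H} (hS : Subgroup.closure S = ⊤)
    (hT : Subgroup.closure T = ⊤) (n : ℕ) (p : G × H) :
    p ∈ ball (un S T) n ↔ len S p.1 + len T p.2 ≤ n := by
  rw [mem_ball_un]
  constructor
  · rintro ⟨i, j, hij, h1, h2⟩
    rw [mem_ball_iff_len hS] at h1
    rw [mem_ball_iff_len hT] at h2
    omega
  · intro h
    exact ⟨_, _, h, (mem_ball_iff_len hS _ _).mpr (le_refl _),
      (mem_ball_iff_len hT _ _).mpr (le_refl _)⟩

theorem ball_un_subset (S : Set G) (T : Set H) (n : ℕ) :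
    ball (un S T) n ⊆ ball S n ×ˢ ball T n := by
  intro p hp
  obtain ⟨i, j, hij, h1, h2⟩ := (mem_ball_un S T n p).mp hp
  exact ⟨ball_mono S (by omega) h1, ball_mono T (by omega) h2⟩

theorem prod_subset_ball_un (S : Set G) (T : Set H) (m n : ℕ) :
    ball S m ×ˢ ball T n ⊆ ball (un S T) (m + n) := by
  intro p hp
  exact (mem_ball_un S T _ p).mpr ⟨m, n, le_refl _, hp.1, hp.2⟩

theorem fiber_le {α β : Type*} [DecidableEq β] (A B : Finset α) (f : α → β) (m m' : ℕ)
    (h : ∀ c, m * (A.filter (fun x => f x = c)).card ≤ m' * (B.filter (fun x => f x = c)).card) :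
    m * A.card ≤ m' * B.card := by
  classical
  set K := (A ∪ B).image f with hKd
  have hA : ∀ w ∈ A, f w ∈ K := fun w hw =>
    Finset.mem_image_of_mem _ (Finset.mem_union_left _ hw)
  have hB : ∀ w ∈ B, f w ∈ K := fun w hw =>
    Finset.mem_image_of_mem _ (Finset.mem_union_right _ hw)
  rw [Finset.card_eq_sum_card_fiberwise hA, Finset.card_eq_sum_card_fiberwise hB,
    Finset.mul_sum, Finset.mul_sum]
  exact Finset.sum_le_sum fun c _ => h c

/-- the part of the sphere of the product lying over long elements of the second factor -/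
theorem long_part {S : Set G} {T : Set H} (hS : S.Finite) (hT : T.Finite)
    (hSc : Subgroup.closure S = ⊤) (hTc : Subgroup.closure T = ⊤) (k M n : ℕ)
    (hr : ∀ m, M ≤ m → k * (ball T (m + 1) \ ball T m).ncard ≤ (ball T m).ncard) :
    k * {p : G × H | len S p.1 + len T p.2 = n + 1 ∧ len S p.1 + M ≤ n}.ncard ≤
      (ball (un S T) n).ncard := by
  classical
  set A : Set (G × H) := {p : G × H | len S p.1 + len T p.2 = n + 1 ∧ len S p.1 + M ≤ n} with hA
  have hUf := ball_finite (un_finite hS hT) (n + 1)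
  have hAf : A.Finite := by
    refine hUf.subset fun p hp => ?_
    rw [mem_ball_un_len hSc hTc]
    exact hp.1.le
  have hBf := ball_finite (un_finite hS hT) n
  rw [Set.ncard_eq_toFinset_card _ hAf, Set.ncard_eq_toFinset_card _ hBf]
  have := fiber_le hAf.toFinset hBf.toFinset (fun p => p.1) k 1 (fun c => ?_)
  · simpa using this
  rw [one_mul]
  by_cases hc : len S c + M ≤ n
  · obtain ⟨m, hm⟩ : ∃ m, n = len S c + m := ⟨n - len S c, by omega⟩
    have hmM : M ≤ m := by omega
    have h1 : (hAf.toFinset.filter (fun p => p.1 = c)).card =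
        (ball T (m + 1) \ ball T m).ncard := by
      have hf : (ball T (m + 1) \ ball T m).Finite := (ball_finite hT (m + 1)).diff
      rw [Set.ncard_eq_toFinset_card _ hf]
      refine Finset.card_bij (fun p _ => p.2) ?_ ?_ ?_
      · intro p hp
        rw [Finset.mem_filter, Set.Finite.mem_toFinset] at hp
        obtain ⟨⟨ha, _⟩, rfl⟩ := hp
        rw [Set.Finite.mem_toFinset, Set.mem_diff, mem_ball_iff_len hTc, mem_ball_iff_len hTc]
        omega
      · intro p hp q hq h
        rw [Finset.mem_filter] at hp hq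
        exact Prod.ext (hp.2.trans hq.2.symm) h
      · intro h hh
        rw [Set.Finite.mem_toFinset, Set.mem_diff, mem_ball_iff_len hTc,
          mem_ball_iff_len hTc] at hh
        refine ⟨(c, h), ?_, rfl⟩
        rw [Finset.mem_filter, Set.Finite.mem_toFinset]
        refine ⟨⟨?_, hc⟩, rfl⟩
        show len S c + len T h = n + 1
        omega
    have h2 : (hBf.toFinset.filter (fun p => p.1 = c)).card = (ball T m).ncard := by
      rw [Set.ncard_eq_toFinset_card _ (ball_finite hT m)]
      refine Finset.card_bij (fun p _ => p.2) ?_ ?_ ?_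
      · intro p hp
        rw [Finset.mem_filter, Set.Finite.mem_toFinset, mem_ball_un_len hSc hTc] at hp
        obtain ⟨ha, rfl⟩ := hp
        rw [Set.Finite.mem_toFinset, mem_ball_iff_len hTc]
        omega
      · intro p hp q hq h
        rw [Finset.mem_filter] at hp hq
        exact Prod.ext (hp.2.trans hq.2.symm) h
      · intro h hh
        rw [Set.Finite.mem_toFinset, mem_ball_iff_len hTc] at hh
        refine ⟨(c, h), ?_, rfl⟩
        rw [Finset.mem_filter, Set.Finite.mem_toFinset, mem_ball_un_len hSc hTc]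
        refine ⟨?_, rfl⟩
        show len S c + len T h ≤ n
        omega
    rw [h1, h2]
    exact hr m hmM
  · have h1 : hAf.toFinset.filter (fun p => p.1 = c) = ∅ := by
      rw [Finset.eq_empty_iff_forall_notMem]
      intro p hp
      rw [Finset.mem_filter, Set.Finite.mem_toFinset] at hp
      obtain ⟨⟨_, hb⟩, rfl⟩ := hp
      exact hc hb
    rw [h1]; simp

/-- If the sphere-to-ball ratio of the second factor tends to zero and the first factor is, at
some radii, much smaller than the second one, then the ratio tends to zero for the product. -/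
theorem prod_ratio {S : Set G} {T : Set H} (hS : S.Finite) (hT : T.Finite)
    (hSc : Subgroup.closure S = ⊤) (hTc : Subgroup.closure T = ⊤)
    (hr : ∀ k : ℕ, ∃ M, ∀ m, M ≤ m → k * (ball T (m + 1) \ ball T m).ncard ≤ (ball T m).ncard)
    (k : ℕ)
    (hd : ∀ M : ℕ, ∃ L, k * (ball T M).ncard * (ball S (L + 1)).ncard ≤ (ball T L).ncard) :
    ∃ N, ∀ n, N ≤ n → k * (ball (un S T) (n + 1) \ ball (un S T) n).ncard ≤
      2 * (ball (un S T) n).ncard := by
  classical
  obtain ⟨M, hM⟩ := hr k
  obtain ⟨L, hL⟩ := hd M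
  refine ⟨L, fun n hn => ?_⟩
  set A1 : Set (G × H) := {p : G × H | len S p.1 + len T p.2 = n + 1 ∧ len S p.1 + M ≤ n} with hA1
  have hUf := ball_finite (un_finite hS hT) (n + 1)
  have hsub : ball (un S T) (n + 1) \ ball (un S T) n ⊆ A1 ∪ ball S (n + 1) ×ˢ ball T M := by
    intro p hp
    rw [Set.mem_diff, mem_ball_un_len hSc hTc, mem_ball_un_len hSc hTc] at hp
    rw [Set.mem_union]
    by_cases h : len S p.1 + M ≤ n
    · left; exact ⟨by omega, h⟩
    · right
      refine ⟨?_, ?_⟩
      · rw [mem_ball_iff_len hSc]; omega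
      · rw [mem_ball_iff_len hTc]; omega
  have hA1f : A1.Finite := by
    refine hUf.subset fun p hp => ?_
    rw [mem_ball_un_len hSc hTc]
    exact hp.1.le
  have hA2f : (ball S (n + 1) ×ˢ ball T M).Finite :=
    (ball_finite hS (n + 1)).prod (ball_finite hT M)
  have h1 : (ball (un S T) (n + 1) \ ball (un S T) n).ncard ≤
      A1.ncard + (ball S (n + 1)).ncard * (ball T M).ncard := by
    refine (Set.ncard_le_ncard hsub (hA1f.union hA2f)).trans
      ((Set.ncard_union_le _ _).trans ?_)
    rw [Set.ncard_prod]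
  have h2 := long_part hS hT hSc hTc k M n hM
  have h3 : k * ((ball S (n + 1)).ncard * (ball T M).ncard) ≤ (ball (un S T) n).ncard := by
    have h4 : (ball S (n + 1)).ncard ≤ (ball S (n - L)).ncard * (ball S (L + 1)).ncard := by
      have := ncard_ball_add hS (n - L) (L + 1)
      rwa [show n - L + (L + 1) = n + 1 by omega] at this
    have h5 : (ball S (n - L)).ncard * (ball T L).ncard ≤ (ball (un S T) n).ncard := by
      rw [← Set.ncard_prod]
      refine Set.ncard_le_ncard ?_ (ball_finite (un_finite hS hT) n)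
      have := prod_subset_ball_un S T (n - L) L
      rwa [show n - L + L = n by omega] at this
    calc k * ((ball S (n + 1)).ncard * (ball T M).ncard)
        ≤ k * (((ball S (n - L)).ncard * (ball S (L + 1)).ncard) * (ball T M).ncard) :=
          Nat.mul_le_mul_left _ (Nat.mul_le_mul_right _ h4)
      _ = (ball S (n - L)).ncard * (k * (ball T M).ncard * (ball S (L + 1)).ncard) := by ring
      _ ≤ (ball S (n - L)).ncard * (ball T L).ncard := Nat.mul_le_mul_left _ hL
      _ ≤ _ := h5
  calc k * (ball (un S T) (n + 1) \ ball (un S T) n).ncard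
      ≤ k * (A1.ncard + (ball S (n + 1)).ncard * (ball T M).ncard) := Nat.mul_le_mul_left _ h1
    _ = k * A1.ncard + k * ((ball S (n + 1)).ncard * (ball T M).ncard) := by ring
    _ ≤ (ball (un S T) n).ncard + (ball (un S T) n).ncard := Nat.add_le_add h2 h3
    _ = _ := by ring

end Prod

section Real

/-- integer form of convergence of ratios -/
theorem ratio_zero (a b : ℕ → ℕ) (hb : ∀ n, 0 < b n)
    (h : ∀ k : ℕ, ∃ N, ∀ n, N ≤ n → k * a n ≤ 2 * b n) :
    Tendsto (fun n : ℕ => (a n : ℝ) / (b n : ℝ)) atTop (𝓝 0) := by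
  rw [Metric.tendsto_atTop]
  intro ε hε
  obtain ⟨k, hk⟩ := exists_nat_gt (2 / ε)
  have hk0 : (0 : ℝ) < k := lt_trans (by positivity) hk
  obtain ⟨N, hN⟩ := h k
  refine ⟨N, fun n hn => ?_⟩
  have hb0 : (0 : ℝ) < b n := by exact_mod_cast hb n
  have h1 : (k : ℝ) * a n ≤ 2 * b n := by exact_mod_cast hN n hn
  rw [Real.dist_eq, sub_zero, abs_of_nonneg (by positivity), div_lt_iff₀ hb0]
  rw [div_lt_iff₀ hε] at hk
  have h2 : (k : ℝ) * a n < k * (ε * b n) := by
    calc (k : ℝ) * a n ≤ 2 * b n := h1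
      _ < (k * ε) * b n := mul_lt_mul_of_pos_right hk hb0
      _ = k * (ε * b n) := by ring
  exact lt_of_mul_lt_mul_left h2 hk0.le

theorem exp_of_root (b : ℕ → ℕ)
    (h : Tendsto (fun n : ℕ => (b n : ℝ) ^ ((1 : ℝ) / (n : ℝ))) atTop (𝓝 1)) (t : ℝ)
    (ht : 0 < t) : ∃ A : ℝ, ∀ n : ℕ, (b n : ℝ) ≤ A * Real.exp (t * n) := by
  have h1 : (1 : ℝ) < Real.exp t := by
    rw [← Real.exp_zero]; exact Real.exp_lt_exp.mpr ht
  obtain ⟨N, hN⟩ := (eventually_atTop.mp ((h.eventually (gt_mem_nhds h1)).and
    (eventually_ge_atTop 1)))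
  refine ⟨1 + ∑ i ∈ Finset.range N, (b i : ℝ), fun n => ?_⟩
  have hexp : 1 ≤ Real.exp (t * n) := Real.one_le_exp (by positivity)
  have hsum : 0 ≤ ∑ i ∈ Finset.range N, (b i : ℝ) :=
    Finset.sum_nonneg fun i _ => Nat.cast_nonneg _
  rcases lt_or_ge n N with hn | hn
  · have h2 : (b n : ℝ) ≤ ∑ i ∈ Finset.range N, (b i : ℝ) :=
      Finset.single_le_sum (f := fun i => (b i : ℝ)) (fun i _ => Nat.cast_nonneg _)
        (Finset.mem_range.mpr hn)
    calc (b n : ℝ) ≤ (1 + ∑ i ∈ Finset.range N, (b i : ℝ)) * 1 := by linarith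
      _ ≤ _ := mul_le_mul_of_nonneg_left hexp (by linarith)
  · obtain ⟨h3, h4⟩ := hN n hn
    have hn0 : (0 : ℝ) < n := by exact_mod_cast h4
    have h5 : (b n : ℝ) ≤ Real.exp (t * n) := by
      have h6 := Real.rpow_le_rpow (Real.rpow_nonneg (Nat.cast_nonneg (b n)) _) h3.le hn0.le
      rw [← Real.rpow_mul (Nat.cast_nonneg _), one_div, inv_mul_cancel₀ hn0.ne', Real.rpow_one,
        ← Real.exp_mul] at h6
      exact h6
    calc (b n : ℝ) ≤ 1 * Real.exp (t * n) := by rw [one_mul]; exact h5
      _ ≤ _ := mul_le_mul_of_nonneg_right (by linarith) (Real.exp_pos _).le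

theorem root_of_exp (b : ℕ → ℕ) (hb : ∀ n, 0 < b n)
    (h : ∀ t : ℝ, 0 < t → ∃ A : ℝ, ∀ n : ℕ, (b n : ℝ) ≤ A * Real.exp (t * n)) :
    Tendsto (fun n : ℕ => (b n : ℝ) ^ ((1 : ℝ) / (n : ℝ))) atTop (𝓝 1) := by
  have hlog : Tendsto (fun n : ℕ => Real.log (b n : ℝ) * ((1 : ℝ) / (n : ℝ)))
      atTop (𝓝 0) := by
    rw [Metric.tendsto_atTop]
    intro ε hε
    obtain ⟨A', hA'⟩ := h (ε / 2) (by positivity)
    set A : ℝ := |A'| + 1 with hAdef
    have hA0 : 0 < A := by positivity
    have hA : ∀ n : ℕ, (b n : ℝ) ≤ A * Real.exp (ε / 2 * n) := by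
      intro n
      refine (hA' n).trans (mul_le_mul_of_nonneg_right ?_ (Real.exp_pos _).le)
      have := le_abs_self A'
      linarith
    obtain ⟨N, hN⟩ := exists_nat_gt (2 * |Real.log A| / ε)
    refine ⟨max N 1, fun n hn => ?_⟩
    have hn1 : 1 ≤ n := (le_max_right _ _).trans hn
    have hnN : (N : ℝ) ≤ n := by exact_mod_cast (le_max_left _ _).trans hn
    have hn0 : (0 : ℝ) < n := by exact_mod_cast hn1
    have hb1 : (1 : ℝ) ≤ b n := by exact_mod_cast hb n
    have hl0 : 0 ≤ Real.log (b n : ℝ) := Real.log_nonneg hb1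
    rw [Real.dist_eq, sub_zero, abs_of_nonneg (by positivity)]
    have h1 : Real.log (b n : ℝ) ≤ Real.log A + ε / 2 * n := by
      calc Real.log (b n : ℝ) ≤ Real.log (A * Real.exp (ε / 2 * n)) :=
            Real.log_le_log (by linarith) (hA n)
        _ = _ := by rw [Real.log_mul hA0.ne' (Real.exp_pos _).ne', Real.log_exp]
    have h2 : |Real.log A| < ε / 2 * n := by
      rw [div_lt_iff₀ hε] at hN
      nlinarith
    have h3 := le_abs_self (Real.log A)
    rw [mul_one_div, div_lt_iff₀ hn0]
    linarith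
  have := (Real.continuous_exp.tendsto 0).comp hlog
  rw [Real.exp_zero] at this
  refine this.congr fun n => ?_
  have hb0 : (0 : ℝ) < b n := by exact_mod_cast hb n
  rw [Function.comp, Real.rpow_def_of_pos hb0]

end Real

end Pool.Agent.Helper259_SB
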