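import Pool.Agent.Helper259_SB.Sw

set_option autoImplicit false

/-!
The number of reachable pairs (set of marked sites, permutation) grows subexponentially when the
switch sequence is on infinitely often.
-/

open scoped Pointwise
open Filter Topology
open Pool.Agent.Results.MP_e563b5_al.IntermediateRatio

namespace Pool.Agent.Helper259_SB

/-- reachable pairs (subset of the sites, value) with weight at most r -/
def RSS (s : ℕ → Bool) (r : ℕ) : Set (Finset ℕ × Equiv.Perm ℕ) :=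
  {p | ∃ r' ≤ r, ∃ O, p.1 ⊆ O ∧ PS s r' p.2 O}

theorem PS.last {s : ℕ → Bool} {r : ℕ} {g : Equiv.Perm ℕ} {O : Finset ℕ} (h : PS s r g O) :
    (r = 0 ∧ g = 1 ∧ O = {0}) ∨
    (∃ r' < r, ∃ g' x, PS s r' g' O ∧ g = g' * kS s x) ∨
    (∃ r' < r, ∃ g' O', PS s r' g' O' ∧ g = g' * aP ∧ O = insert (g' 1) O') := by
  induction h with
  | one => left; simp
  | kstep r g O x h ih =>
    by_cases hx : x = K4.e
    · subst hx
      simpa [kS_e, K4.wt] using ih
    · right; left
      refine ⟨r, ?_, g, x, h, rfl⟩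
      have : 0 < K4.wt x := by cases x <;> simp_all [K4.wt]
      omega
  | astep r g O h ih =>
    right; right
    exact ⟨r, by omega, g, O, h, rfl, rfl⟩

theorem RSS_zero_subset (s : ℕ → Bool) :
    RSS s 0 ⊆ {((∅ : Finset ℕ), (1 : Equiv.Perm ℕ)), ({0}, 1)} := by
  rintro ⟨Y, g⟩ ⟨r', hr', O, hY, hP⟩
  rcases hP.last with ⟨_, hg, hO⟩ | ⟨k, hk, _⟩ | ⟨k, hk, _⟩
  · simp only at hg hY
    rw [hO] at hY
    rcases Finset.subset_singleton_iff.mp hY with h | h
    · left; rw [h, hg]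
    · right; rw [h, hg]; rfl
  · omega
  · omega

theorem RSS_succ_subset (s : ℕ → Bool) (r : ℕ) :
    RSS s (r + 1) ⊆ RSS s r ∪
      ((fun q : (Finset ℕ × Equiv.Perm ℕ) × K4 => (q.1.1, q.1.2 * kS s q.2)) ''
        (RSS s r ×ˢ Set.univ)) ∪
      ((fun q : (Finset ℕ × Equiv.Perm ℕ) × Bool =>
        (if q.2 then insert (q.1.2 1) q.1.1 else q.1.1, q.1.2 * aP)) ''
        (RSS s r ×ˢ Set.univ)) := by
  rintro ⟨Y, g⟩ ⟨r', hr', O, hY, hP⟩
  simp only at hY hP
  rcases hP.last with ⟨h0, hg, hO⟩ | ⟨k, hk, g', x, hP', hg⟩ | ⟨k, hk, g', O', hP', hg, hO⟩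
  · left; left
    exact ⟨r', by omega, O, hY, hP⟩
  · left; right
    exact ⟨((Y, g'), x), ⟨⟨k, by omega, O, hY, hP'⟩, trivial⟩, by simp [hg]⟩
  · right
    by_cases hm : g' 1 ∈ Y
    · refine ⟨((Y.erase (g' 1), g'), true), ⟨⟨k, by omega, O', ?_, hP'⟩, trivial⟩, ?_⟩
      · intro z hz
        simp only [Finset.mem_erase] at hz
        have := hY hz.2
        rw [hO, Finset.mem_insert] at this
        tauto
      · simp [hg, Finset.insert_erase hm]
    · refine ⟨((Y, g'), false), ⟨⟨k, by omega, O', ?_, hP'⟩, trivial⟩, ?_⟩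
      · intro z hz
        simp only at hz
        have := hY hz
        rw [hO, Finset.mem_insert] at this
        rcases this with h | h
        · rw [h] at hz; contradiction
        · exact h
      · simp [hg]

theorem RSS_finite (s : ℕ → Bool) (r : ℕ) : (RSS s r).Finite := by
  induction r with
  | zero => exact Set.Finite.subset (by simp) (RSS_zero_subset s)
  | succ r ih =>
    refine Set.Finite.subset ?_ (RSS_succ_subset s r)
    exact (ih.union ((ih.prod Set.finite_univ).image _)).union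
      ((ih.prod Set.finite_univ).image _)

theorem RSS_card (s : ℕ → Bool) (r : ℕ) : (RSS s r).ncard ≤ 2 * 7 ^ r := by
  induction r with
  | zero =>
    refine (Set.ncard_le_ncard (RSS_zero_subset s) (by simp)).trans ?_
    exact (Set.ncard_insert_le _ _).trans (by simp)
  | succ r ih =>
    have hf := RSS_finite s r
    refine (Set.ncard_le_ncard (RSS_succ_subset s r) ?_).trans ?_
    · exact (hf.union ((hf.prod Set.finite_univ).image _)).union
        ((hf.prod Set.finite_univ).image _)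
    · refine (Set.ncard_union_le _ _).trans ?_
      have h1 := Set.ncard_union_le (RSS s r) ((fun q : (Finset ℕ × Equiv.Perm ℕ) × K4 =>
        (q.1.1, q.1.2 * kS s q.2)) '' (RSS s r ×ˢ Set.univ))
      have h2 : ((fun q : (Finset ℕ × Equiv.Perm ℕ) × K4 =>
        (q.1.1, q.1.2 * kS s q.2)) '' (RSS s r ×ˢ Set.univ)).ncard ≤ (RSS s r).ncard * 4 := by
        refine (Set.ncard_image_le (hf.prod Set.finite_univ)).trans ?_
        rw [Set.ncard_prod, Set.ncard_univ]
        have : Nat.card K4 = 4 := by rw [Nat.card_eq_fintype_card]; rfl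
        rw [this]
      have h3 : ((fun q : (Finset ℕ × Equiv.Perm ℕ) × Bool =>
        (if q.2 then insert (q.1.2 1) q.1.1 else q.1.1, q.1.2 * aP)) ''
        (RSS s r ×ˢ Set.univ)).ncard ≤ (RSS s r).ncard * 2 := by
        refine (Set.ncard_image_le (hf.prod Set.finite_univ)).trans ?_
        rw [Set.ncard_prod, Set.ncard_univ]
        have : Nat.card Bool = 2 := by rw [Nat.card_eq_fintype_card]; rfl
        rw [this]
      calc _ ≤ _ := Nat.add_le_add h1 h3
        _ ≤ (RSS s r).ncard + (RSS s r).ncard * 4 + (RSS s r).ncard * 2 := by omega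
        _ = 7 * (RSS s r).ncard := by ring
        _ ≤ 7 * (2 * 7 ^ r) := Nat.mul_le_mul_left _ ih
        _ = 2 * 7 ^ (r + 1) := by ring

open Classical in
/-- the reachable pairs as a finset -/
noncomputable def RFS (s : ℕ → Bool) (r : ℕ) : Finset (Finset ℕ × Equiv.Perm ℕ) :=
  (RSS_finite s r).toFinset

theorem mem_RFS {s : ℕ → Bool} {r : ℕ} {p : Finset ℕ × Equiv.Perm ℕ} :
    p ∈ RFS s r ↔ p ∈ RSS s r := by
  simp [RFS]

theorem RFS_card (s : ℕ → Bool) (r : ℕ) : (RFS s r).card ≤ 2 * 7 ^ r := by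
  have := RSS_card s r
  rwa [Set.ncard_eq_toFinset_card _ (RSS_finite s r)] at this

/-- admissible pairs of weights -/
def prS (q r : ℕ) : Finset (ℕ × ℕ) :=
  ((Finset.range (r + 4)) ×ˢ (Finset.range (r + 4))).filter
    (fun p => 6 * (p.1 + p.2) ≤ q * (r + 3))

theorem RFS_rec (s : ℕ → Bool) (r : ℕ) :
    (RFS s r).card ≤ 8 + ∑ q ∈ prS (qS (s 0)) r,
      8 * ((RFS (sh s) q.1).card * (RFS (sh s) q.2).card) := by
  classical
  set Bf : Finset (Finset ℕ × Equiv.Perm ℕ) :=
    (Finset.univ : Finset (Bool × K4)).image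
      (fun q => (if q.1 then {0} else ∅, kS s q.2)) with hBf
  set Cf : Finset (Finset ℕ × Equiv.Perm ℕ) :=
    (prS (qS (s 0)) r).biUnion (fun q => (Finset.univ : Finset (Bool × Bool × Bool)).biUnion
      (fun b => (RFS (sh s) q.1 ×ˢ RFS (sh s) q.2).image
        (fun pq => Phi b.1 b.2.1 b.2.2 pq.1 pq.2))) with hCf
  have hq6 := qS_le (s 0)
  have hsub : RFS s r ⊆ Bf ∪ Cf := by
    rintro ⟨Y, g⟩ hm
    rw [mem_RFS] at hm
    obtain ⟨r', hr', O, hY, hP⟩ := hm
    simp only at hY hP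
    obtain ⟨r'', hr'', hA⟩ := hP.alt
    rw [Finset.mem_union]
    rcases hA.decomp with ⟨x, hx, hO, _⟩ |
      ⟨p, σ, τ, rE, rO, hE, hO, OE, OO, hPE, hPO, hw, hO', hg⟩
    · left
      rw [hBf, Finset.mem_image]
      rw [hO] at hY
      rcases Finset.subset_singleton_iff.mp hY with h | h
      · exact ⟨(false, x), Finset.mem_univ _, by simp [h, hx]⟩
      · exact ⟨(true, x), Finset.mem_univ _, by simp [h, hx]⟩
    · right
      have hw0 : 6 * (rE + rO) ≤ qS (s 0) * (r'' + 3) := by split_ifs at hw <;> omega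
      have hw' : 6 * (rE + rO) ≤ qS (s 0) * (r + 3) :=
        hw0.trans (Nat.mul_le_mul_left _ (by omega))
      have hw6 : 6 * (rE + rO) ≤ 6 * (r + 3) := hw'.trans (Nat.mul_le_mul_right _ hq6)
      rw [hCf, Finset.mem_biUnion]
      refine ⟨(rE, rO), ?_, ?_⟩
      · simp only [prS, Finset.mem_filter, Finset.mem_product, Finset.mem_range]
        refine ⟨⟨?_, ?_⟩, hw'⟩ <;> omega
      · rw [Finset.mem_biUnion]
        refine ⟨(p, σ, τ), Finset.mem_univ _, ?_⟩
        rw [Finset.mem_image]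
        refine ⟨((OE.filter (fun m => 2 * m ∈ Y), hE),
          (OO.filter (fun m => 2 * ap σ m + 1 ∈ Y), hO)), ?_, ?_⟩
        · rw [Finset.mem_product]
          refine ⟨mem_RFS.mpr ⟨rE, le_refl _, OE, Finset.filter_subset _ _, hPE⟩,
            mem_RFS.mpr ⟨rO, le_refl _, OO, Finset.filter_subset _ _, hPO⟩⟩
        · simp only [Phi]
          rw [hg]
          congr 1
          ext z
          simp only [dblE, dblO, Finset.mem_union, Finset.mem_image, Finset.mem_filter]
          constructor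
          · rintro (⟨m, ⟨_, h⟩, rfl⟩ | ⟨m, ⟨_, h⟩, rfl⟩) <;> exact h
          · intro hz
            have h1 := hY hz
            rw [hO'] at h1
            simp only [dblE, dblO, Finset.mem_union, Finset.mem_image] at h1
            rcases h1 with ⟨m, h, rfl⟩ | ⟨m, h, rfl⟩
            · exact Or.inl ⟨m, ⟨h, hz⟩, rfl⟩
            · exact Or.inr ⟨m, ⟨h, hz⟩, rfl⟩
  refine (Finset.card_le_card hsub).trans ((Finset.card_union_le _ _).trans ?_)
  refine Nat.add_le_add ?_ ?_
  · refine Finset.card_image_le.trans ?_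
    rw [Finset.card_univ]
    decide
  · refine Finset.card_biUnion_le.trans (Finset.sum_le_sum fun q _ => ?_)
    refine Finset.card_biUnion_le.trans ?_
    refine (Finset.sum_le_card_nsmul _ _ ((RFS (sh s) q.1).card * (RFS (sh s) q.2).card) ?_).trans
      ?_
    · intro b _
      refine Finset.card_image_le.trans ?_
      rw [Finset.card_product]
    · rw [Finset.card_univ]
      simp

theorem sq_le_exp (u : ℝ) (hu : 0 < u) (r : ℕ) :
    ((r : ℝ) + 4) ^ 2 ≤ 2 / u ^ 2 * Real.exp (4 * u) * Real.exp (u * r) := by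
  have h0 : 0 ≤ u * ((r : ℝ) + 4) := by positivity
  have h1 := Real.quadratic_le_exp_of_nonneg h0
  have h2 : (u * ((r : ℝ) + 4)) ^ 2 / 2 ≤ Real.exp (u * (r + 4)) := by linarith
  have h3 : ((r : ℝ) + 4) ^ 2 = 2 / u ^ 2 * ((u * ((r : ℝ) + 4)) ^ 2 / 2) := by
    field_simp
  rw [h3]
  have h4 : Real.exp (4 * u) * Real.exp (u * r) = Real.exp (u * (r + 4)) := by
    rw [← Real.exp_add]; congr 1; ring
  rw [mul_assoc, h4]
  exact mul_le_mul_of_nonneg_left h2 (by positivity)

theorem RFS_step (s : ℕ → Bool) (t t' : ℝ) (ht : 0 < t) (htt : (qS (s 0) : ℝ) / 6 * t < t')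
    (h : ∃ A : ℝ, ∀ r : ℕ, ((RFS (sh s) r).card : ℝ) ≤ A * Real.exp (t * r)) :
    ∃ A : ℝ, ∀ r : ℕ, ((RFS s r).card : ℝ) ≤ A * Real.exp (t' * r) := by
  obtain ⟨A, hA⟩ := h
  have hA0 : 0 ≤ A := by
    have := hA 0
    simp only [Nat.cast_zero, mul_zero, Real.exp_zero, mul_one] at this
    exact (Nat.cast_nonneg _).trans this
  set ρ : ℝ := (qS (s 0) : ℝ) / 6 with hρ
  have hρ0 : 0 ≤ ρ := by positivity
  set u : ℝ := t' - ρ * t with hu
  have hu0 : 0 < u := by rw [hu]; linarith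
  have ht'0 : 0 < t' := by
    have : 0 ≤ ρ * t := by positivity
    linarith
  refine ⟨8 + 8 * A ^ 2 * (2 / u ^ 2 * Real.exp (4 * u)) * Real.exp (ρ * t * 3), fun r => ?_⟩
  have hrec : ((RFS s r).card : ℝ) ≤
      8 + ∑ q ∈ prS (qS (s 0)) r,
        8 * (((RFS (sh s) q.1).card : ℝ) * ((RFS (sh s) q.2).card : ℝ)) := by
    exact_mod_cast RFS_rec s r
  have hterm : ∀ q ∈ prS (qS (s 0)) r,
      8 * (((RFS (sh s) q.1).card : ℝ) * ((RFS (sh s) q.2).card : ℝ)) ≤
      8 * A ^ 2 * Real.exp (ρ * t * (r + 3)) := by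
    intro q hq
    simp only [prS, Finset.mem_filter] at hq
    have h1 := hA q.1
    have h2 := hA q.2
    have h3 : ((RFS (sh s) q.1).card : ℝ) * ((RFS (sh s) q.2).card : ℝ) ≤
        (A * Real.exp (t * q.1)) * (A * Real.exp (t * q.2)) :=
      mul_le_mul h1 h2 (Nat.cast_nonneg _) ((Nat.cast_nonneg _).trans h1)
    have h4 : (A * Real.exp (t * q.1)) * (A * Real.exp (t * q.2)) =
        A ^ 2 * Real.exp (t * (q.1 + q.2)) := by
      rw [mul_add, Real.exp_add]; ring
    have h5 : Real.exp (t * (q.1 + q.2)) ≤ Real.exp (ρ * t * (r + 3)) := by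
      apply Real.exp_le_exp.mpr
      have h6 : 6 * ((q.1 : ℝ) + q.2) ≤ qS (s 0) * (r + 3) := by exact_mod_cast hq.2
      have h7 : (q.1 : ℝ) + q.2 ≤ ρ * (r + 3) := by rw [hρ]; linarith
      calc t * ((q.1 : ℝ) + q.2) ≤ t * (ρ * (r + 3)) := mul_le_mul_of_nonneg_left h7 ht.le
        _ = _ := by ring
    calc 8 * (((RFS (sh s) q.1).card : ℝ) * ((RFS (sh s) q.2).card : ℝ))
        ≤ 8 * (A ^ 2 * Real.exp (t * (q.1 + q.2))) := by rw [← h4]; linarith
      _ ≤ 8 * (A ^ 2 * Real.exp (ρ * t * (r + 3))) := by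
        apply mul_le_mul_of_nonneg_left _ (by norm_num)
        exact mul_le_mul_of_nonneg_left h5 (by positivity)
      _ = _ := by ring
  have hcard : ((prS (qS (s 0)) r).card : ℝ) ≤ ((r : ℝ) + 4) ^ 2 := by
    have : (prS (qS (s 0)) r).card ≤ (r + 4) * (r + 4) := by
      refine (Finset.card_filter_le _ _).trans ?_
      rw [Finset.card_product]; simp
    have h' : ((prS (qS (s 0)) r).card : ℝ) ≤ ((r : ℝ) + 4) * ((r : ℝ) + 4) := by
      exact_mod_cast this
    rw [sq]; exact h'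
  have hsum : ∑ q ∈ prS (qS (s 0)) r,
      8 * (((RFS (sh s) q.1).card : ℝ) * ((RFS (sh s) q.2).card : ℝ)) ≤
      ((r : ℝ) + 4) ^ 2 * (8 * A ^ 2 * Real.exp (ρ * t * (r + 3))) := by
    refine (Finset.sum_le_card_nsmul _ _ _ hterm).trans ?_
    rw [nsmul_eq_mul]
    exact mul_le_mul_of_nonneg_right hcard (by positivity)
  have hfin : ((r : ℝ) + 4) ^ 2 * (8 * A ^ 2 * Real.exp (ρ * t * (r + 3))) ≤
      8 * A ^ 2 * (2 / u ^ 2 * Real.exp (4 * u)) * Real.exp (ρ * t * 3) * Real.exp (t' * r) := by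
    calc ((r : ℝ) + 4) ^ 2 * (8 * A ^ 2 * Real.exp (ρ * t * (r + 3)))
        ≤ (2 / u ^ 2 * Real.exp (4 * u) * Real.exp (u * r)) *
            (8 * A ^ 2 * Real.exp (ρ * t * (r + 3))) :=
          mul_le_mul_of_nonneg_right (sq_le_exp u hu0 r) (by positivity)
      _ = 8 * A ^ 2 * (2 / u ^ 2 * Real.exp (4 * u)) * Real.exp (ρ * t * 3) *
            (Real.exp (u * r) * Real.exp (ρ * t * r)) := by
          rw [show ρ * t * ((r : ℝ) + 3) = ρ * t * r + ρ * t * 3 by ring, Real.exp_add]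
          ring
      _ = _ := by
          rw [← Real.exp_add, show u * (r : ℝ) + ρ * t * r = t' * r by rw [hu]; ring]
  have h8 : (8 : ℝ) ≤ 8 * Real.exp (t' * r) := by
    have : 1 ≤ Real.exp (t' * r) := Real.one_le_exp (by positivity)
    linarith
  calc ((RFS s r).card : ℝ) ≤ 8 + ((r : ℝ) + 4) ^ 2 * (8 * A ^ 2 * Real.exp (ρ * t * (r + 3))) := by
        linarith
    _ ≤ 8 * Real.exp (t' * r) +
        8 * A ^ 2 * (2 / u ^ 2 * Real.exp (4 * u)) * Real.exp (ρ * t * 3) * Real.exp (t' * r) := by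
        linarith
    _ = _ := by ring

theorem RFS_subexp (s : ℕ → Bool) (hs : Inf s) (t : ℝ) (ht : 0 < t) :
    ∃ A : ℝ, ∀ r : ℕ, ((RFS s r).card : ℝ) ≤ A * Real.exp (t * r) := by
  have hlog := Real.log_pos (show (1 : ℝ) < 7 by norm_num)
  have key := switch_induction
    (fun t s => ∀ t', t < t' → ∃ A : ℝ, ∀ r : ℕ, ((RFS s r).card : ℝ) ≤ A * Real.exp (t' * r))
    (5 / 6) (Real.log 7)
    (by
      intro s t' ht'
      refine ⟨2, fun r => ?_⟩
      have h1 : ((RFS s r).card : ℝ) ≤ 2 * 7 ^ r := by exact_mod_cast RFS_card s r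
      have h2 : Real.exp (Real.log 7 * r) = 7 ^ r := by
        rw [mul_comm, Real.exp_nat_mul, Real.exp_log (by norm_num)]
      have h3 : Real.exp (Real.log 7 * r) ≤ Real.exp (t' * r) :=
        Real.exp_le_exp.mpr (mul_le_mul_of_nonneg_right ht'.le (Nat.cast_nonneg r))
      rw [h2] at h3
      linarith)
    (by
      intro t s ht h0 h t' ht'
      refine RFS_step s ((t + t') / 2) t' (by linarith) ?_ (h _ (by linarith))
      rw [h0]
      simp only [qS]
      norm_num
      linarith)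
    (by
      intro t s ht h0 h t' ht'
      refine RFS_step s ((t + 6 / 5 * t') / 2) t' (by linarith) ?_ (h _ (by linarith))
      rw [h0]
      simp only [qS]
      norm_num
      linarith)
    (by norm_num) hlog
  obtain ⟨i, hi⟩ := exists_pow_lt_of_lt_one (show 0 < t / Real.log 7 by positivity)
    (show (5 / 6 : ℝ) < 1 by norm_num)
  refine key i s hs t ?_
  rwa [lt_div_iff₀ hlog] at hi

end Pool.Agent.Helper259_SB
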