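import Mathlib

set_option autoImplicit false

namespace Pool.Agent.Helper259_SB

/-- The ball of radius `n` about the identity in the word metric of a group for the set `S`:
all products of at most `n` factors, each of which or its inverse lies in `S`. -/
def ball {G : Type*} [Group G] (S : Set G) (n : ℕ) : Set G :=
  {g : G | ∃ l : List G, l.length ≤ n ∧ (∀ x ∈ l, x ∈ S ∨ x⁻¹ ∈ S) ∧ l.prod = g}

end Pool.Agent.Helper259_SB
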