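import Pool.Agent.Helper259_SB.Def

set_option autoImplicit false

open Filter Topology

namespace Pool.Agent.Helper259_SB

/-- Subexponential growth: the `n`-th root of the number of elements of the ball of radius `n`
tends to one. -/
def Subexp {G : Type*} [Group G] (S : Set G) : Prop :=
  Tendsto (fun n : ℕ => ((ball S n).ncard : ℝ) ^ ((1 : ℝ) / (n : ℝ))) atTop (𝓝 1)

/-- The sphere-to-ball ratio `|B(n+1) \ B(n)| / |B(n)|` tends to zero. -/
def RatioZero {G : Type*} [Group G] (S : Set G) : Prop :=
  Tendsto (fun n : ℕ => ((ball S (n + 1) \ ball S n).ncard : ℝ) / ((ball S n).ncard : ℝ))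
    atTop (𝓝 0)

end Pool.Agent.Helper259_SB
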