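import Pool.Agent.Helper259_SB.Lamp

set_option autoImplicit false

/-!
Long stretches without switches give large balls; a switch sequence can be chosen so that the
growth of the group is, at infinitely many radii, larger than a given subexponential function.
-/

open scoped Pointwise
open Filter Topology
open Pool.Agent.Results.MP_e563b5_al.IntermediateRatio

namespace Pool.Agent.Helper259_SB

/-- the product of b and a -/
def sg (s : ℕ → Bool) : Equiv.Perm ℕ := kS s K4.b * aP

theorem sg_even (s : ℕ → Bool) (m : ℕ) : sg s (2 * m) = 2 * aN m + 1 := by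
  unfold sg
  rw [Equiv.Perm.mul_apply, aP_apply, aN_even, kS_apply, klS_odd]
  simp [K4.al]

theorem sg_sg_even (s : ℕ → Bool) (h0 : s 0 = false) (m : ℕ) :
    sg s (sg s (2 * m)) = 2 * sg (sh s) m := by
  rw [sg_even]
  unfold sg
  rw [Equiv.Perm.mul_apply, aP_apply, aN_odd, kS_apply, klS_even, h0]
  rfl

theorem sg_pow_two (s : ℕ → Bool) (h0 : s 0 = false) (i m : ℕ) :
    (sg s ^ (2 * i)) (2 * m) = 2 * (sg (sh s) ^ i) m := by
  induction i generalizing m with
  | zero => simp
  | succ i ih =>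
    rw [show 2 * (i + 1) = 2 * i + 1 + 1 by ring, pow_succ, pow_succ, Equiv.Perm.mul_apply,
      Equiv.Perm.mul_apply, sg_sg_even s h0, ih, pow_succ, Equiv.Perm.mul_apply]

theorem sg_orbit (l : ℕ) : ∀ s : ℕ → Bool, (∀ i < l, s i = false) →
    ∀ j, 0 < j → j < 2 ^ (l + 1) → (sg s ^ j) 0 ≠ 0 := by
  induction l with
  | zero =>
    intro s _ j hj hj'
    have : j = 1 := by
      norm_num at hj'; omega
    subst this
    have := sg_even s 0
    rw [pow_one]
    simp only [mul_zero] at this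
    rw [this]; omega
  | succ l ih =>
    intro s hs j hj hj'
    have h0 : s 0 = false := hs 0 (by omega)
    rcases Nat.even_or_odd' j with ⟨i, rfl | rfl⟩
    · have := sg_pow_two s h0 i 0
      simp only [mul_zero] at this
      rw [this]
      have h2 := ih (sh s) (fun k hk => hs (k + 1) (by omega)) i (by omega)
        (by rw [pow_succ] at hj'; omega)
      omega
    · have := sg_pow_two s h0 i 0
      simp only [mul_zero] at this
      rw [pow_succ', Equiv.Perm.mul_apply, this, sg_even]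
      omega

theorem sg_inj (l : ℕ) (s : ℕ → Bool) (hs : ∀ i < l, s i = false) (J : ℕ)
    (hJ : J < 2 ^ (l + 1)) (i j : ℕ) (hi : i ≤ J) (hj : j ≤ J)
    (h : (sg s ^ i) 0 = (sg s ^ j) 0) : i = j := by
  have key : ∀ i j, i < j → j ≤ J → (sg s ^ i) 0 ≠ (sg s ^ j) 0 := by
    intro i j hij hj h
    have h1 : sg s ^ j = sg s ^ i * sg s ^ (j - i) := by
      rw [← pow_add]; congr 1; omega
    rw [h1, Equiv.Perm.mul_apply] at h
    have h2 := (sg s ^ i).injective h
    exact sg_orbit l s hs (j - i) (by omega) (by omega) h2.symm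
  rcases lt_trichotomy i j with h1 | h1 | h1
  · exact absurd h (key i j h1 hj)
  · exact h1
  · exact absurd h.symm (key j i h1 hi)

theorem sg_word (s : ℕ → Bool) (j : ℕ) :
    US s (2 * j) (sg s ^ j) ((Finset.range (j + 1)).image (fun i => (sg s ^ i) 0)) := by
  induction j with
  | zero =>
    simpa using US.one (s := s)
  | succ j ih =>
    have h1 := US.astep _ _ _ (US.kstep _ _ _ K4.b ih)
    have h2 : sg s ^ (j + 1) = sg s ^ j * kS s K4.b * aP := by
      rw [pow_succ]; rfl
    have h3 : (sg s ^ j * kS s K4.b) 1 = (sg s ^ (j + 1)) 0 := by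
      rw [h2, Equiv.Perm.mul_apply (sg s ^ j * kS s K4.b)]
      rfl
    rw [h3, ← h2] at h1
    have h4 : (Finset.range (j + 1 + 1)).image (fun i => (sg s ^ i) 0) =
        insert ((sg s ^ (j + 1)) 0) ((Finset.range (j + 1)).image (fun i => (sg s ^ i) 0)) := by
      rw [Finset.range_add_one, Finset.image_insert]
    rw [h4]
    exact h1

/-- some word of length at most k visits at least M sites -/
def Vis (s : ℕ → Bool) (M k : ℕ) : Prop := ∃ n ≤ k, ∃ g O, US s n g O ∧ M ≤ O.card

theorem vis_stretch (l : ℕ) (s : ℕ → Bool) (hs : ∀ i < l, s i = false) (J : ℕ)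
    (hJ : J < 2 ^ (l + 1)) : Vis s (J + 1) (2 * J) := by
  refine ⟨2 * J, le_refl _, _, _, sg_word s J, ?_⟩
  rw [Finset.card_image_of_injOn, Finset.card_range]
  intro i hi j hj h
  simp only [Finset.coe_range, Set.mem_Iio] at hi hj
  exact sg_inj l s hs J hJ i j (by omega) (by omega) h

theorem card_dblE (O : Finset ℕ) : (dblE O).card = O.card :=
  Finset.card_image_of_injective _ (fun x y h => by simpa using h)

theorem vis_lift (s : ℕ → Bool) (M k : ℕ) (h : Vis (sh s) M k) : Vis s M (3 * k) := by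
  obtain ⟨n, hn, g, O, hU, hM⟩ := h
  obtain ⟨gO, n', O', hn', hU', hO⟩ := lift hU
  refine ⟨n', by omega, _, O', hU', hM.trans ?_⟩
  rw [← card_dblE]
  exact Finset.card_le_card hO

theorem vis_lifts (N : ℕ) : ∀ (s : ℕ → Bool) (M k : ℕ), Vis (fun i => s (N + i)) M k →
    Vis s M (3 ^ N * k) := by
  induction N with
  | zero => intro s M k h; simpa using h
  | succ N ih =>
    intro s M k h
    have h1 : (fun i => s (N + 1 + i)) = (fun i => sh s (N + i)) := by
      funext i
      show s (N + 1 + i) = s (N + i + 1)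
      congr 1; omega
    rw [h1] at h
    have h2 := vis_lift s M _ (ih (sh s) M k h)
    rwa [← mul_assoc, ← pow_succ'] at h2

theorem ball_of_vis (s : ℕ → Bool) (M k : ℕ) (h : Vis s M k) :
    2 ^ M ≤ (BlS s (k + M)).card := by
  classical
  obtain ⟨n, hn, g, O, hU, hM⟩ := h
  obtain ⟨Y, hY, hYc⟩ := Finset.exists_subset_card_eq hM
  rw [← hYc, ← Finset.card_powerset]
  refine Finset.card_le_card_of_injOn
    (fun Z => (⟨Finsupp.indicator Z (fun _ _ => (1 : ℤ)), g⟩ : WG)) ?_ ?_
  · intro Z hZ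
    rw [Finset.mem_coe, Finset.mem_powerset] at hZ
    rw [Finset.mem_coe, mem_Bl_iff]
    refine ⟨n, O, hU, ?_, ?_⟩
    · intro z hz
      have := Finsupp.support_indicator_subset _ _ hz
      exact hY (hZ this)
    · have h1 : l1 (Finsupp.indicator Z (fun _ _ => (1 : ℤ))) ≤ Z.card := by
        rw [l1_eq _ Z (Finsupp.support_indicator_subset _ _)]
        refine (Finset.sum_le_card_nsmul Z _ 1 ?_).trans (by simp)
        intro z hz
        rw [Finsupp.indicator_of_mem hz]
        simp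
      have h2 := Finset.card_le_card hZ
      simp only
      omega
  · intro Z hZ Z' hZ' h
    simp only [WG.mk.injEq, and_true] at h
    ext z
    have h1 := DFunLike.congr_fun h z
    by_cases hz : z ∈ Z <;> by_cases hz' : z ∈ Z'
    · simp [hz, hz']
    · rw [Finsupp.indicator_of_mem hz, Finsupp.indicator_of_notMem hz'] at h1
      exact absurd h1 one_ne_zero
    · rw [Finsupp.indicator_of_notMem hz, Finsupp.indicator_of_mem hz'] at h1
      exact absurd h1.symm one_ne_zero
    · simp [hz, hz']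

theorem ball_stretch (s : ℕ → Bool) (N l J : ℕ) (hs : ∀ i < l, s (N + i) = false)
    (hJ : J < 2 ^ (l + 1)) :
    2 ^ (J + 1) ≤ (BlS s (3 ^ N * (2 * J) + (J + 1))).card := by
  refine ball_of_vis _ _ _ ?_
  refine vis_lifts N s (J + 1) (2 * J) ?_
  exact vis_stretch l _ hs J hJ

/-- the ends of the stretches -/
def NN (F : ℕ → ℕ) : ℕ → ℕ
  | 0 => 0
  | k + 1 => NN F k + F (NN F k) + 1

theorem NN_strict (F : ℕ → ℕ) : StrictMono (NN F) := by
  refine strictMono_nat_of_lt_succ fun k => ?_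
  show NN F k < NN F k + F (NN F k) + 1
  omega

open Classical in
theorem exists_seq (F : ℕ → ℕ) : ∃ s : ℕ → Bool, Inf s ∧
    ∀ m, ∃ N, m ≤ N ∧ ∀ i < F N, s (N + i) = false := by
  refine ⟨fun i => decide (∃ k, i + 1 = NN F (k + 1)), ?_, ?_⟩
  · intro n
    have h1 := (NN_strict F).le_apply (x := n + 1)
    refine ⟨NN F (n + 1) - 1, by omega, ?_⟩
    simp only [decide_eq_true_eq]
    exact ⟨n, by omega⟩
  · intro m
    refine ⟨NN F m, (NN_strict F).le_apply, fun i hi => ?_⟩
    simp only [decide_eq_false_iff_not, not_exists]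
    intro k hk
    have h1 : NN F (m + 1) = NN F m + F (NN F m) + 1 := rfl
    have h2 : NN F m < NN F (k + 1) := by omega
    have h3 : NN F (k + 1) < NN F (m + 1) := by omega
    have h4 := (NN_strict F).lt_iff_lt.mp h2
    have h5 := (NN_strict F).lt_iff_lt.mp h3
    omega

theorem exists_J_dom (b : ℕ → ℕ)
    (hb : ∀ t : ℝ, 0 < t → ∃ A : ℝ, ∀ n : ℕ, (b n : ℝ) ≤ A * Real.exp (t * n)) (N : ℕ) :
    ∃ J : ℕ, (N + 1) * b ((N + 1) * (3 ^ N * (2 * J) + (J + 1))) ≤ 2 ^ (J + 1) := by
  set c : ℝ := ((N : ℝ) + 1) * (3 ^ N * 2 + 1) with hc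
  have hc0 : 0 < c := by positivity
  have hl2 : 0 < Real.log 2 := Real.log_pos (by norm_num)
  obtain ⟨A, hA⟩ := hb (Real.log 2 / (2 * c)) (by positivity)
  set t : ℝ := Real.log 2 / (2 * c) with ht
  have hlim : Tendsto (fun J : ℕ => (((N : ℝ) + 1) * A * Real.exp (t * (N + 1))) *
      (Real.exp (-(Real.log 2 / 2))) ^ J) atTop (𝓝 0) := by
    have := (tendsto_pow_atTop_nhds_zero_of_lt_one (Real.exp_pos _).le
      (show Real.exp (-(Real.log 2 / 2)) < 1 by
        rw [← Real.exp_zero]; exact Real.exp_lt_exp.mpr (by linarith))).const_mul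
      (((N : ℝ) + 1) * A * Real.exp (t * (N + 1)))
    simpa using this
  obtain ⟨J, hJ⟩ := (hlim.eventually (gt_mem_nhds (show (0 : ℝ) < 2 by norm_num))).exists
  refine ⟨J, ?_⟩
  have h1 : ((N : ℝ) + 1) * (b ((N + 1) * (3 ^ N * (2 * J) + (J + 1))) : ℝ) ≤ 2 ^ (J + 1) := by
    have h2 := hA ((N + 1) * (3 ^ N * (2 * J) + (J + 1)))
    have h3 : t * (((N + 1) * (3 ^ N * (2 * J) + (J + 1)) : ℕ) : ℝ) =
        t * (N + 1) + Real.log 2 / 2 * J := by
      push_cast
      have h4 : ((N : ℝ) + 1) * (3 ^ N * (2 * J) + (J + 1)) = c * J + (N + 1) := by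
        rw [hc]; ring
      rw [h4, mul_add, ht]
      field_simp
      ring
    rw [h3, Real.exp_add] at h2
    have h5 : Real.exp (Real.log 2 / 2 * J) =
        (Real.exp (-(Real.log 2 / 2))) ^ J * 2 ^ J := by
      rw [← Real.exp_nat_mul]
      have : (2 : ℝ) ^ J = Real.exp (J * Real.log 2) := by
        rw [Real.exp_nat_mul, Real.exp_log (by norm_num)]
      rw [this, ← Real.exp_add]
      congr 1
      ring
    calc ((N : ℝ) + 1) * (b ((N + 1) * (3 ^ N * (2 * J) + (J + 1))) : ℝ)
        ≤ ((N : ℝ) + 1) * (A * (Real.exp (t * (N + 1)) * Real.exp (Real.log 2 / 2 * J))) :=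
          mul_le_mul_of_nonneg_left h2 (by positivity)
      _ = ((((N : ℝ) + 1) * A * Real.exp (t * (N + 1))) *
          (Real.exp (-(Real.log 2 / 2))) ^ J) * 2 ^ J := by rw [h5]; ring
      _ ≤ 2 * 2 ^ J := mul_le_mul_of_nonneg_right hJ.le (by positivity)
      _ = 2 ^ (J + 1) := by ring
  exact_mod_cast h1

theorem exists_dom (b : ℕ → ℕ) (hmono : Monotone b)
    (hb : ∀ t : ℝ, 0 < t → ∃ A : ℝ, ∀ n : ℕ, (b n : ℝ) ≤ A * Real.exp (t * n)) :
    ∃ s : ℕ → Bool, Inf s ∧ ∀ C : ℕ, ∃ L, C * b (C * L) ≤ (BlS s L).card := by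
  choose J hJ using exists_J_dom b hb
  obtain ⟨s, hs, hst⟩ := exists_seq J
  refine ⟨s, hs, fun C => ?_⟩
  obtain ⟨N, hN, hN'⟩ := hst C
  refine ⟨3 ^ N * (2 * J N) + (J N + 1), ?_⟩
  refine le_trans ?_ (ball_stretch s N (J N) (J N) hN' ?_)
  · refine le_trans (Nat.mul_le_mul (by omega) (hmono (Nat.mul_le_mul_right _ ?_))) (hJ N)
    omega
  · exact lt_of_lt_of_le (Nat.lt_succ_self _) (Nat.lt_two_pow_self (n := J N + 1)).le

end Pool.Agent.Helper259_SB
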