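import Pool.Agent.Helper259_SB.Main
import Pool.Agent.Helper259_SB.DefP

set_option autoImplicit false

/-!
The ratio property of all finitely generated groups of subexponential growth is equivalent to its
invariance under adding one element to the generating set.
-/

open scoped Pointwise
open Filter Topology

namespace Pool.Agent.Helper259_SB

variable {G : Type*} [Group G]

theorem Subexp.change {S T : Set G} (hS : S.Finite) (hT : T.Finite)
    (hc : Subgroup.closure S = ⊤) (h : Subexp S) : Subexp T := by
  obtain ⟨C, hC⟩ := ball_compare hT hc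
  refine root_of_exp (fun n => (ball T n).ncard) (fun n => ball_pos hT n) fun t ht => ?_
  obtain ⟨A, hA⟩ := exp_of_root (fun n => (ball S n).ncard) h (t / (C + 1)) (by positivity)
  have hA0 : 0 ≤ A := by
    have := hA 0
    simp only [Nat.cast_zero, mul_zero, Real.exp_zero, mul_one] at this
    exact (Nat.cast_nonneg _).trans this
  refine ⟨A, fun n => ?_⟩
  have h1 : ((ball T n).ncard : ℝ) ≤ ((ball S (C * n)).ncard : ℝ) := by
    exact_mod_cast Set.ncard_le_ncard (hC n) (ball_finite hS _)
  refine h1.trans ((hA (C * n)).trans (mul_le_mul_of_nonneg_left (Real.exp_le_exp.mpr ?_) hA0))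
  push_cast
  have h2 : t / ((C : ℝ) + 1) * (C * n) = t * n * (C / (C + 1)) := by ring
  rw [h2]
  have h3 : (C : ℝ) / (C + 1) ≤ 1 := by rw [div_le_one (by positivity)]; linarith
  have h4 : 0 ≤ t * (n : ℝ) := by positivity
  nlinarith

theorem ncard_sphere {S : Set G} (hS : S.Finite) (n : ℕ) :
    (ball S (n + 1) \ ball S n).ncard + (ball S n).ncard = (ball S (n + 1)).ncard :=
  Set.ncard_sdiff_add_ncard_of_subset (ball_mono S (Nat.le_succ n)) (ball_finite hS (n + 1))

/-- the ratio property in terms of consecutive balls -/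
theorem ratio_iff {S : Set G} (hS : S.Finite) : RatioZero S ↔
    Tendsto (fun n : ℕ => ((ball S (n + 1)).ncard : ℝ) / ((ball S n).ncard : ℝ)) atTop (𝓝 1) := by
  have h : ∀ n : ℕ, ((ball S (n + 1)).ncard : ℝ) / ((ball S n).ncard : ℝ) =
      ((ball S (n + 1) \ ball S n).ncard : ℝ) / ((ball S n).ncard : ℝ) + 1 := by
    intro n
    have h1 : ((ball S (n + 1) \ ball S n).ncard : ℝ) + ((ball S n).ncard : ℝ) =
        ((ball S (n + 1)).ncard : ℝ) := by exact_mod_cast ncard_sphere hS n
    have h2 : (0 : ℝ) < (ball S n).ncard := by exact_mod_cast ball_pos hS n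
    rw [← h1]
    field_simp
  constructor
  · intro hr
    have := hr.add_const 1
    rw [zero_add] at this
    exact this.congr fun n => (h n).symm
  · intro hr
    have := hr.sub_const 1
    rw [sub_self] at this
    refine this.congr fun n => ?_
    rw [h n]; ring

section Prod

variable {H : Type*} [Group H]

theorem ball_prod_pow (S : Set G) (T : Set H) (n : ℕ) :
    ball (ball S 1 ×ˢ ball T 1) n = ball S n ×ˢ ball T n := by
  have hinv : ∀ x : G × H, x ∈ ball S 1 ×ˢ ball T 1 ∨ x⁻¹ ∈ ball S 1 ×ˢ ball T 1 →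
      x ∈ ball S 1 ×ˢ ball T 1 := by
    rintro x (h | h)
    · exact h
    · have h1 := inv_mem_ball h.1
      have h2 := inv_mem_ball h.2
      rw [Prod.fst_inv, inv_inv] at h1
      rw [Prod.snd_inv, inv_inv] at h2
      exact ⟨h1, h2⟩
  induction n with
  | zero =>
    rw [ball_zero, ball_zero, ball_zero]
    ext x
    simp [Prod.ext_iff]
  | succ n ih =>
    ext x
    constructor
    · intro h
      obtain ⟨u, hu, v, hv, rfl⟩ := ball_split h
      rw [ih] at hu
      have hv' : v ∈ ball S 1 ×ˢ ball T 1 := by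
        rw [ball_one] at hv
        rcases hv with (hv | hv) | hv
        · exact hv
        · exact hinv v (Or.inr hv)
        · rw [Set.mem_singleton_iff] at hv
          rw [hv]; exact ⟨one_mem_ball S 1, one_mem_ball T 1⟩
      exact ⟨mul_mem_ball hu.1 hv'.1, mul_mem_ball hu.2 hv'.2⟩
    · rintro ⟨h1, h2⟩
      obtain ⟨u, hu, v, hv, hx1⟩ := ball_split h1
      obtain ⟨u', hu', v', hv', hx2⟩ := ball_split h2
      have h3 : (u, u') ∈ ball (ball S 1 ×ˢ ball T 1) n := by rw [ih]; exact ⟨hu, hu'⟩
      have h4 : (v, v') ∈ ball (ball S 1 ×ˢ ball T 1) 1 := mem_ball_one (Or.inl ⟨hv, hv'⟩)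
      have h5 := mul_mem_ball h3 h4
      rw [Prod.mk_mul_mk, hx1, hx2] at h5
      exact h5

theorem ratio_of_prod_pow {S : Set G} {T : Set H} (hS : S.Finite) (hT : T.Finite)
    (h : RatioZero (ball S 1 ×ˢ ball T 1)) : RatioZero S := by
  have hf : (ball S 1 ×ˢ ball T 1).Finite := (ball_finite hS 1).prod (ball_finite hT 1)
  rw [ratio_iff hf] at h
  rw [ratio_iff hS]
  refine tendsto_of_tendsto_of_tendsto_of_le_of_le tendsto_const_nhds h ?_ ?_
  · intro n
    have h1 : (0 : ℝ) < (ball S n).ncard := by exact_mod_cast ball_pos hS n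
    show (1 : ℝ) ≤ _
    rw [le_div_iff₀ h1, one_mul]
    exact_mod_cast ncard_ball_mono hS (Nat.le_succ n)
  · intro n
    have h1 : (0 : ℝ) < (ball S n).ncard := by exact_mod_cast ball_pos hS n
    have h2 : (0 : ℝ) < (ball T n).ncard := by exact_mod_cast ball_pos hT n
    have h3 : ((ball T n).ncard : ℝ) ≤ (ball T (n + 1)).ncard := by
      exact_mod_cast ncard_ball_mono hT (Nat.le_succ n)
    have h4 : (0 : ℝ) ≤ (ball S (n + 1)).ncard := Nat.cast_nonneg _
    simp only
    rw [ball_prod_pow, ball_prod_pow, Set.ncard_prod, Set.ncard_prod]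
    push_cast
    rw [div_le_div_iff₀ h1 (mul_pos h1 h2)]
    calc ((ball S (n + 1)).ncard : ℝ) * ((ball S n).ncard * (ball T n).ncard)
        = ((ball S (n + 1)).ncard * (ball S n).ncard : ℝ) * (ball T n).ncard := by ring
      _ ≤ ((ball S (n + 1)).ncard * (ball S n).ncard : ℝ) * (ball T (n + 1)).ncard :=
          mul_le_mul_of_nonneg_left h3 (by positivity)
      _ = _ := by ring

end Prod

theorem ball_congr {S T : Set G} (h : ball S 1 = ball T 1) (n : ℕ) : ball S n = ball T n := by
  induction n with
  | zero => rw [ball_zero, ball_zero]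
  | succ n ih => rw [ball_add_eq, ball_add_eq, ih, h]

/-- Q1 for all groups is equivalent to its invariance under adding the product of two commuting
generators. -/
theorem inv_main :
    (∀ (G : Type) [Group G] (S : Set G), S.Finite → Subgroup.closure S = ⊤ →
      Subexp S → RatioZero S) ↔
    (∀ (G : Type) [Group G] (S : Set G), S.Finite → Subgroup.closure S = ⊤ →
      Subexp S → RatioZero S → ∀ x y : G, (x ∈ S ∨ x⁻¹ ∈ S) → (y ∈ S ∨ y⁻¹ ∈ S) →
        x * y = y * x → RatioZero (insert (x * y) S)) := by
  constructor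
  · intro h G _ S hS hSc hSe _ x y _ _ _
    refine h G (insert (x * y) S) (hS.insert _) ?_ ?_
    · rw [eq_top_iff, ← hSc]
      exact Subgroup.closure_mono (Set.subset_insert _ S)
    · exact hSe.change hS (hS.insert _) hSc
  · intro h K _ S hS hSc hSe
    obtain ⟨H, _, T, hT, hTc, _, _, hmain⟩ := main (fun n => (ball S n).ncard) hSe
    obtain ⟨hUc, hUe, hUr⟩ := hmain K S hS hSc ⟨1, fun n _ => by rw [one_mul, one_mul]⟩
    set U : Set (K × H) := S ×ˢ {1} ∪ {1} ×ˢ T with hU
    have hUf : U.Finite := un_finite hS hT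
    have hUr' : RatioZero U := hUr
    have hUe' : Subexp U := hUe
    set V : Set (K × H) := (S ∪ S⁻¹) ×ˢ (T ∪ T⁻¹) with hV
    have hVf : V.Finite := (hS.union hS.inv).prod (hT.union hT.inv)
    have hUl : ∀ a ∈ S ∪ S⁻¹, ((a, 1) : K × H) ∈ U ∨ ((a, 1) : K × H)⁻¹ ∈ U := by
      rintro a (ha | ha)
      · exact Or.inl (Or.inl ⟨ha, rfl⟩)
      · exact Or.inr (Or.inl ⟨ha, by simp⟩)
    have hUr2 : ∀ b ∈ T ∪ T⁻¹, ((1, b) : K × H) ∈ U ∨ ((1, b) : K × H)⁻¹ ∈ U := by
      rintro b (hb | hb)
      · exact Or.inl (Or.inr ⟨rfl, hb⟩)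
      · exact Or.inr (Or.inr ⟨by simp, hb⟩)
    have key : ∀ W : Set (K × H), W.Finite → W ⊆ V → RatioZero (W ∪ U) := by
      intro W hW
      refine Set.Finite.induction_on W hW ?_ ?_
      · intro _
        rw [Set.empty_union]; exact hUr'
      · intro w W' _ hW'f ih hsub
        have hW' : RatioZero (W' ∪ U) := ih fun x hx => hsub (Set.mem_insert_of_mem _ hx)
        rw [Set.insert_union]
        have hcl : Subgroup.closure (W' ∪ U) = ⊤ := by
          rw [eq_top_iff, ← hUc]
          exact Subgroup.closure_mono Set.subset_union_right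
        have hw := hsub (Set.mem_insert w W')
        have hprod : ((w.1, 1) : K × H) * (1, w.2) = w := by
          rw [Prod.mk_mul_mk, mul_one, one_mul]
        have hprod' : ((1, w.2) : K × H) * (w.1, 1) = w := by
          rw [Prod.mk_mul_mk, mul_one, one_mul]
        have h2 := h (K × H) (W' ∪ U) (hW'f.union hUf) hcl
          (hUe'.change hUf (hW'f.union hUf) hUc) hW' (w.1, 1) (1, w.2)
          ((hUl w.1 hw.1).imp Or.inr Or.inr) ((hUr2 w.2 hw.2).imp Or.inr Or.inr)
          (hprod.trans hprod'.symm)
        rwa [hprod] at h2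
    have h1 := key V hVf (subset_refl _)
    have hb : ∀ n, ball (V ∪ U) n = ball (ball S 1 ×ˢ ball T 1) n := by
      refine ball_congr (Set.Subset.antisymm ?_ ?_)
      · rw [ball_one (V ∪ U), ball_prod_pow]
        have hsub : V ∪ U ⊆ ball S 1 ×ˢ ball T 1 := by
          rintro x (hx | hx | hx)
          · exact ⟨mem_ball_one hx.1, mem_ball_one hx.2⟩
          · refine ⟨mem_ball_one (Or.inl hx.1), ?_⟩
            have : x.2 = 1 := hx.2
            rw [this]; exact one_mem_ball T 1
          · refine ⟨?_, mem_ball_one (Or.inl hx.2)⟩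
            have : x.1 = 1 := hx.1
            rw [this]; exact one_mem_ball S 1
        rintro x ((hx | hx) | hx)
        · exact hsub hx
        · have h3 := hsub hx
          have h4 := inv_mem_ball h3.1
          have h5 := inv_mem_ball h3.2
          rw [Prod.fst_inv, inv_inv] at h4
          rw [Prod.snd_inv, inv_inv] at h5
          exact ⟨h4, h5⟩
        · rw [Set.mem_singleton_iff] at hx
          rw [hx]; exact ⟨one_mem_ball S 1, one_mem_ball T 1⟩
      · rw [ball_prod_pow]
        rintro ⟨a, b⟩ ⟨ha, hb⟩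
        simp only at ha hb
        rw [ball_one] at ha hb
        rcases ha with ha | ha
        · rcases hb with hb | hb
          · exact mem_ball_one (Or.inl (Or.inl ⟨ha, hb⟩))
          · rw [Set.mem_singleton_iff] at hb
            subst hb
            exact mem_ball_one ((hUl a ha).imp Or.inr Or.inr)
        · rw [Set.mem_singleton_iff] at ha
          subst ha
          rcases hb with hb | hb
          · exact mem_ball_one ((hUr2 b hb).imp Or.inr Or.inr)
          · rw [Set.mem_singleton_iff] at hb
            subst hb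
            exact one_mem_ball _ 1
    have h2 : RatioZero (ball S 1 ×ˢ ball T 1) := by
      unfold RatioZero at h1 ⊢
      simp only [hb] at h1
      exact h1
    exact ratio_of_prod_pow hS hT h2

end Pool.Agent.Helper259_SB
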