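import Pool.Agent.Helper259_SB.Cnt

set_option autoImplicit false

/-!
The group generated by the permutations of `Sw` and a unit lamp; counting its balls by classes.
-/

open scoped Pointwise
open Filter Topology
open Pool.Agent.Results.MP_e563b5_al.IntermediateRatio

namespace Pool.Agent.Helper259_SB

variable {s : ℕ → Bool}

/-- unit length paths -/
inductive US (s : ℕ → Bool) : ℕ → Equiv.Perm ℕ → Finset ℕ → Prop
  | one : US s 0 1 {0}
  | kstep (n : ℕ) (g : Equiv.Perm ℕ) (O : Finset ℕ) (x : K4) :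
      US s n g O → US s (n + 1) (g * kS s x) O
  | astep (n : ℕ) (g : Equiv.Perm ℕ) (O : Finset ℕ) :
      US s n g O → US s (n + 1) (g * aP) (insert (g 1) O)

theorem US.mem {n : ℕ} {g : Equiv.Perm ℕ} {O : Finset ℕ} (h : US s n g O) : g 0 ∈ O := by
  induction h with
  | one => simp
  | kstep r g O x h ih => simpa [klS_zero] using ih
  | astep r g O h ih => simp [aN_zero]

theorem US.toP {n : ℕ} {g : Equiv.Perm ℕ} {O : Finset ℕ} (h : US s n g O) :
    ∃ r ≤ 3 * n, PS s r g O := by
  induction h with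
  | one => exact ⟨0, le_refl _, PS.one⟩
  | kstep n g O x h ih =>
    obtain ⟨r, hr, hP⟩ := ih
    refine ⟨_, ?_, PS.kstep r g O x hP⟩
    have : K4.wt x ≤ 3 := by cases x <;> decide
    omega
  | astep n g O h ih =>
    obtain ⟨r, hr, hP⟩ := ih
    exact ⟨_, by omega, PS.astep r g O hP⟩

/-- generators -/
noncomputable def gKS (s : ℕ → Bool) (x : K4) : WG := ⟨0, kS s x⟩


theorem mul_gK (w : WG) (x : K4) : w * gKS s x = ⟨w.f, w.g * kS s x⟩ := by
  apply WG.ext
  · ext x; simp [WG.mul_f, gKS]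
  · rfl



theorem gK_inv (x : K4) : (gKS s x)⁻¹ = gKS s x := by
  rw [inv_eq_iff_mul_eq_one, mul_gK]
  apply WG.ext
  · rfl
  · show kS s x * kS s x = 1
    rw [kS_mul, K4.mul_self, kS_e]




open Classical in
/-- generating set -/
noncomputable def S0S (s : ℕ → Bool) : Finset WG := {gA, gKS s K4.b, gKS s K4.c, gKS s K4.d, gD 1}

open Classical in
/-- symmetrized generating set with identity -/
noncomputable def T0S (s : ℕ → Bool) : Finset WG := S0S s ∪ (S0S s)⁻¹ ∪ {1}

theorem mem_T0 (w : WG) : w ∈ T0S s ↔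
    w = 1 ∨ w = gA ∨ w = gKS s K4.b ∨ w = gKS s K4.c ∨ w = gKS s K4.d ∨ w = gD 1 ∨ w = gD (-1) := by
  classical
  simp only [T0S, S0S, Finset.mem_union, Finset.mem_inv', Finset.mem_insert, Finset.mem_singleton]
  have h1 : w⁻¹ = gA ↔ w = gA := by rw [inv_eq_iff_eq_inv, gA_inv]
  have h2 : ∀ x, w⁻¹ = gKS s x ↔ w = gKS s x := fun x => by rw [inv_eq_iff_eq_inv, gK_inv]
  have h3 : w⁻¹ = gD 1 ↔ w = gD (-1) := by rw [inv_eq_iff_eq_inv, gD_inv]
  rw [h1, h2, h2, h2, h3]
  tauto

theorem one_mem_T0 : (1 : WG) ∈ T0S s := by rw [mem_T0]; left; rfl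

open Classical in
/-- balls -/
noncomputable def BlS (s : ℕ → Bool) (n : ℕ) : Finset WG := T0S s ^ n

theorem Bl_mono {m n : ℕ} (h : m ≤ n) : BlS s m ⊆ BlS s n := by
  classical
  exact Finset.pow_subset_pow_right one_mem_T0 h

theorem Bl_add (m n : ℕ) : (BlS s (m + n)).card ≤ (BlS s m).card * (BlS s n).card := by
  classical
  unfold BlS
  rw [pow_add]
  exact Finset.card_mul_le

theorem mul_mem_Bl {m n : ℕ} {u v : WG} (hu : u ∈ BlS s m) (hv : v ∈ BlS s n) : u * v ∈ BlS s (m + n) := by
  classical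
  unfold BlS
  rw [pow_add]
  exact Finset.mul_mem_mul hu hv

theorem mem_Bl_one {w : WG} (h : w ∈ T0S s) : w ∈ BlS s 1 := by
  classical
  unfold BlS; rwa [pow_one]

theorem gD_mem (n : ℕ) (t : ℤ) (h : t.natAbs = n) : gD t ∈ BlS s n := by
  classical
  induction n generalizing t with
  | zero =>
    have : t = 0 := Int.natAbs_eq_zero.mp h
    subst this
    rw [gD_zero]; simp [BlS]
  | succ n ih =>
    rcases lt_or_gt_of_ne (show t ≠ 0 by rintro rfl; simp at h) with ht | ht
    · have h1 := ih (t + 1) (by omega)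
      have : gD t = gD (t + 1) * gD (-1) := by rw [gD_mul]; ring_nf
      rw [this]
      exact mul_mem_Bl h1 (mem_Bl_one (by rw [mem_T0]; tauto))
    · have h1 := ih (t - 1) (by omega)
      have : gD t = gD (t - 1) * gD 1 := by rw [gD_mul]; ring_nf
      rw [this]
      exact mul_mem_Bl h1 (mem_Bl_one (by rw [mem_T0]; tauto))

theorem mem_Bl_of_U {k : ℕ} {g : Equiv.Perm ℕ} {O : Finset ℕ} (h : US s k g O) :
    ∀ f : ℕ →₀ ℤ, f.support ⊆ O → (⟨f, g⟩ : WG) ∈ BlS s (k + l1 f) := by
  induction h with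
  | one =>
    intro f hf
    have hf' : f = Finsupp.single 0 (f 0) := by
      ext z
      by_cases hz : z = 0
      · subst hz; simp
      · rw [Finsupp.single_apply, if_neg (fun h => hz h.symm)]
        by_contra hcon
        have := hf (Finsupp.mem_support_iff.mpr hcon)
        simp at this; exact hz this
    have h1 : l1 f = (f 0).natAbs := by
      rw [l1_eq f {0} hf]; simp
    rw [h1, zero_add]
    have : (⟨f, 1⟩ : WG) = gD (f 0) := by
      unfold gD; rw [← hf']
    rw [this]
    exact gD_mem _ _ rfl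
  | kstep n g O x h ih =>
    intro f hf
    have h1 := ih f hf
    have h2 : (⟨f, g * kS s x⟩ : WG) = ⟨f, g⟩ * gKS s x := by rw [mul_gK]
    rw [h2, show n + 1 + l1 f = (n + l1 f) + 1 by ring]
    refine mul_mem_Bl h1 (mem_Bl_one ?_)
    rw [mem_T0]
    cases x
    · left; unfold gKS; rw [kS_e]; rfl
    all_goals tauto
  | astep n g O h ih =>
    intro f hf
    have h0 : (f.erase (g 1)).support ⊆ O := by
      rw [Finsupp.support_erase]
      intro z hz
      rw [Finset.mem_erase] at hz
      have := hf hz.2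
      rw [Finset.mem_insert] at this
      tauto
    have h1 := ih _ h0
    have h2 : (⟨f, g * aP⟩ : WG) = ⟨f.erase (g 1), g⟩ * gA * gD (f (g 1)) := by
      rw [mul_gA, mul_gD]
      apply WG.ext
      · simp [aN_zero, Finsupp.erase_add_single]
      · rfl
    rw [h2, show n + 1 + l1 f = (n + l1 (f.erase (g 1))) + 1 + (f (g 1)).natAbs by
      rw [← l1_erase f (g 1)]; ring]
    refine mul_mem_Bl (mul_mem_Bl h1 (mem_Bl_one ?_)) (gD_mem _ _ rfl)
    rw [mem_T0]; tauto

theorem mem_Bl_iff (n : ℕ) (w : WG) :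
    w ∈ BlS s n ↔ ∃ k O, US s k w.g O ∧ w.f.support ⊆ O ∧ k + l1 w.f ≤ n := by
  classical
  constructor
  · intro h
    induction n generalizing w with
    | zero =>
      simp only [BlS, pow_zero, Finset.mem_one] at h
      subst h
      exact ⟨0, {0}, US.one, by simp [WG.one_f], by simp [WG.one_f, l1_zero]⟩
    | succ n ih =>
      unfold BlS at h
      rw [pow_succ, Finset.mem_mul] at h
      obtain ⟨v, hv, t, ht, rfl⟩ := h
      obtain ⟨k, O, hU, hs, hk⟩ := ih v hv
      rw [mem_T0] at ht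
      have hK : ∀ x, ∃ k O, US s k (v * gKS s x).g O ∧ (v * gKS s x).f.support ⊆ O ∧
          k + l1 (v * gKS s x).f ≤ n + 1 := by
        intro x
        rw [mul_gK]
        exact ⟨k + 1, O, US.kstep _ _ _ x hU, hs, by simp only; omega⟩
      have hD : ∀ t : ℤ, t.natAbs ≤ 1 → ∃ k O, US s k (v * gD t).g O ∧
          (v * gD t).f.support ⊆ O ∧ k + l1 (v * gD t).f ≤ n + 1 := by
        intro t ht
        rw [mul_gD]
        refine ⟨k, O, hU, ?_, ?_⟩
        · intro z hz
          have := Finsupp.support_add hz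
          rw [Finset.mem_union] at this
          rcases this with h | h
          · exact hs h
          · have := Finsupp.support_single_subset h
            rw [Finset.mem_singleton] at this
            rw [this]; exact hU.mem
        · have := l1_add_single v.f (v.g 0) t
          simp only
          omega
      rcases ht with rfl | rfl | rfl | rfl | rfl | rfl | rfl
      · rw [mul_one]; exact ⟨k, O, hU, hs, by omega⟩
      · rw [mul_gA]
        exact ⟨k + 1, _, US.astep _ _ _ hU, hs.trans (Finset.subset_insert _ _), by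
          simp only; omega⟩
      · exact hK _
      · exact hK _
      · exact hK _
      · exact hD 1 (by simp)
      · exact hD (-1) (by simp)
  · rintro ⟨k, O, hU, hs, hk⟩
    exact Bl_mono hk (mem_Bl_of_U hU w.f hs)


/-- there is a path of length k covering Y -/
def QS (s : ℕ → Bool) (k : ℕ) (c : Finset ℕ × Equiv.Perm ℕ) : Prop := ∃ O, US s k c.2 O ∧ c.1 ⊆ O

/-- the costS s of a class -/
noncomputable def costS (s : ℕ → Bool) (c : Finset ℕ × Equiv.Perm ℕ) : ℕ := sInf {k | QS s k c}

theorem cost_spec {c : Finset ℕ × Equiv.Perm ℕ} {k : ℕ} (h : QS s k c) : QS s (costS s c) c ∧ costS s c ≤ k :=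
  ⟨Nat.sInf_mem (s := {k | QS s k c}) ⟨k, h⟩, Nat.sInf_le h⟩

theorem mem_Bl_iff' (n : ℕ) (w : WG) :
    w ∈ BlS s n ↔ (∃ k, QS s k (kap w)) ∧ costS s (kap w) + l1 w.f ≤ n := by
  rw [mem_Bl_iff]
  constructor
  · rintro ⟨k, O, hU, hs, hk⟩
    have hQ : QS s k (kap w) := ⟨O, hU, hs⟩
    refine ⟨⟨k, hQ⟩, ?_⟩
    have := (cost_spec hQ).2
    omega
  · rintro ⟨⟨k, hQ⟩, h⟩
    obtain ⟨O, hU, hs⟩ := (cost_spec hQ).1
    exact ⟨_, O, hU, hs, h⟩

open Classical in
/-- the fiber of a class in a finset -/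
noncomputable def fib (A : Finset WG) (c : Finset ℕ × Equiv.Perm ℕ) : Finset WG :=
  A.filter (fun w => kap w = c)

theorem fib_card (n : ℕ) (c : Finset ℕ × Equiv.Perm ℕ) (hQ : ∃ k, QS s k c) (hc : costS s c ≤ n) :
    (fib (BlS s n) c).card = 2 ^ c.1.card * (n - costS s c).choose c.1.card := by
  classical
  obtain ⟨S, hS, hcard⟩ := class_count c.1 (n - costS s c)
  rw [← hcard]
  have : fib (BlS s n) c = S.image (fun f => (⟨f, c.2⟩ : WG)) := by
    ext w
    rw [fib, Finset.mem_filter, Finset.mem_image, mem_Bl_iff']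
    constructor
    · rintro ⟨⟨_, h⟩, hk⟩
      refine ⟨w.f, ?_, ?_⟩
      · rw [hS]
        rw [hk] at h
        refine ⟨by rw [← hk]; rfl, by omega⟩
      · apply WG.ext
        · rfl
        · rw [← hk]; rfl
    · rintro ⟨f, hf, rfl⟩
      rw [hS] at hf
      have hk : kap ⟨f, c.2⟩ = c := by
        unfold kap
        rw [hf.1]
      rw [hk]
      exact ⟨⟨hQ, by simp only; omega⟩, rfl⟩
  rw [this, Finset.card_image_of_injective]
  intro f f' h
  exact congrArg WG.f h

theorem fib_empty (n : ℕ) (c : Finset ℕ × Equiv.Perm ℕ) (h : ¬ ((∃ k, QS s k c) ∧ costS s c ≤ n)) :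
    fib (BlS s n) c = ∅ := by
  classical
  rw [Finset.eq_empty_iff_forall_notMem]
  intro w hw
  rw [fib, Finset.mem_filter, mem_Bl_iff'] at hw
  obtain ⟨⟨h1, h2⟩, rfl⟩ := hw
  exact h ⟨h1, by omega⟩

theorem card_eq_sum_fib (A : Finset WG) (K : Finset (Finset ℕ × Equiv.Perm ℕ))
    (hK : ∀ w ∈ A, kap w ∈ K) : A.card = ∑ c ∈ K, (fib A c).card := by
  classical
  exact Finset.card_eq_sum_card_fiberwise hK

theorem fiberwise_le (A B : Finset WG) (m m' : ℕ)
    (h : ∀ c, m * (fib A c).card ≤ m' * (fib B c).card) : m * A.card ≤ m' * B.card := by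
  classical
  set K := (A ∪ B).image kap with hKd
  have hA : ∀ w ∈ A, kap w ∈ K := fun w hw =>
    Finset.mem_image_of_mem _ (Finset.mem_union_left _ hw)
  have hB : ∀ w ∈ B, kap w ∈ K := fun w hw =>
    Finset.mem_image_of_mem _ (Finset.mem_union_right _ hw)
  rw [card_eq_sum_fib A K hA, card_eq_sum_fib B K hB, Finset.mul_sum, Finset.mul_sum]
  exact Finset.sum_le_sum fun c _ => h c




/-- reachable permutations -/
def ReachS (s : ℕ → Bool) (g : Equiv.Perm ℕ) : Prop := ∃ n O, US s n g O

theorem ReachS.mul {g h : Equiv.Perm ℕ} (hg : ReachS s g) (hh : ReachS s h) :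
    ReachS s (g * h) := by
  obtain ⟨n, O, hU⟩ := hh
  induction hU with
  | one => simpa using hg
  | kstep n h O x _ ih =>
    obtain ⟨m, O', h'⟩ := ih
    exact ⟨_, _, by rw [← mul_assoc]; exact US.kstep _ _ _ x h'⟩
  | astep n h O _ ih =>
    obtain ⟨m, O', h'⟩ := ih
    exact ⟨_, _, by rw [← mul_assoc]; exact US.astep _ _ _ h'⟩

theorem reach_a : ReachS s aP := ⟨_, _, by simpa using US.astep (s := s) 0 1 {0} US.one⟩

theorem asm_one : asm false 1 1 = 1 := by
  ext n
  rw [asm_apply]
  rcases Nat.even_or_odd' n with ⟨m, rfl | rfl⟩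
  · rw [asmF_false_even]; rfl
  · rw [asmF_false_odd]; rfl

/-- lifting a word of the next level; its length is at most tripled and its sites are doubled -/
theorem lift {h : Equiv.Perm ℕ} {n : ℕ} {O : Finset ℕ} (hU : US (sh s) n h O) :
    ∃ gO n' O', n' ≤ 3 * n ∧ US s n' (asm false h gO) O' ∧ dblE O ⊆ O' := by
  induction hU with
  | one =>
    refine ⟨1, 0, {0}, le_refl _, ?_, ?_⟩
    · rw [asm_one]; exact US.one
    · simp [dblE]
  | kstep n h O x _ ih =>
    obtain ⟨gO, m, O', hm, h', hO⟩ := ih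
    obtain ⟨y, hy⟩ := thS_surj (s 0) x
    refine ⟨gO * ap (K4.al y), m + 1, O', by omega, ?_, hO⟩
    rw [← hy, ← asm_false_mul_kS]
    exact US.kstep _ _ _ y h'
  | astep n h O _ ih =>
    obtain ⟨gO, m, O', hm, h', hO⟩ := ih
    have hcomp : asm false h gO * aP * kS s K4.c =
        asm true (h * aP) (gO * kS (sh s) (thS (s 0) K4.c)) := by
      rw [asm_mul_a]
      show asm true h gO * _ = _
      rw [asm_true_mul_kS]
      rfl
    have hall : asm false h gO * aP * kS s K4.c * aP =
        asm false (h * aP) (gO * kS (sh s) (thS (s 0) K4.c)) := by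
      rw [hcomp, asm_mul_a]; rfl
    refine ⟨gO * kS (sh s) (thS (s 0) K4.c), m + 1 + 1 + 1,
      insert ((asm false h gO * aP * kS s K4.c) 1) (insert ((asm false h gO) 1) O'),
      by omega, ?_, ?_⟩
    · rw [← hall]
      exact US.astep _ _ _ (US.kstep _ _ _ K4.c (US.astep _ _ _ h'))
    · rw [dblE_insert, hcomp, asm_apply]
      have h1 : asmF true (⇑(h * aP)) (⇑(gO * kS (sh s) (thS (s 0) K4.c))) 1 = 2 * h 1 := by
        have := asmF_true_odd (⇑(h * aP)) (⇑(gO * kS (sh s) (thS (s 0) K4.c))) 0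
        simpa [aN_zero] using this
      rw [h1]
      intro z hz
      rw [Finset.mem_insert] at hz
      rw [Finset.mem_insert, Finset.mem_insert]
      rcases hz with hz | hz
      · left; exact hz
      · right; right; exact hO hz

theorem transitive (y : ℕ) : ∀ s : ℕ → Bool, ∃ g, ReachS s g ∧ g 0 = y := by
  induction y using Nat.strong_induction_on with
  | _ y ih =>
    intro s
    rcases Nat.even_or_odd' y with ⟨m, rfl | rfl⟩
    · rcases Nat.eq_zero_or_pos m with rfl | hm
      · exact ⟨1, ⟨0, {0}, US.one⟩, rfl⟩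
      · obtain ⟨h, ⟨n, O, hh⟩, h0⟩ := ih m (by omega) (sh s)
        obtain ⟨gO, n', O', _, hg, _⟩ := lift hh
        refine ⟨_, ⟨_, _, hg⟩, ?_⟩
        have := asmF_false_even (⇑h) (⇑gO) 0
        rw [asm_apply]
        rw [← h0]; simpa using this
    · obtain ⟨h, ⟨n, O, hh⟩, h0⟩ := ih m (by omega) (sh s)
      obtain ⟨gO, n', O', _, hg, _⟩ := lift hh
      refine ⟨aP * asm false h gO, reach_a.mul ⟨_, _, hg⟩, ?_⟩
      have := asmF_false_even (⇑h) (⇑gO) 0
      rw [Equiv.Perm.mul_apply, asm_apply]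
      simp only [mul_zero] at this
      rw [this, h0, aP_apply, aN_even]

theorem exists_many (s : ℕ → Bool) (M : ℕ) : ∃ k g O, US s k g O ∧ M ≤ O.card := by
  by_contra hcon
  push Not at hcon
  have hfin := few_finite_S M s
  choose g hg h0 using (fun y => transitive y s)
  choose n O hU using hg
  have : (Set.range (fun y => (O y, g y))).Finite := by
    refine hfin.subset ?_
    rintro _ ⟨y, rfl⟩
    obtain ⟨r, _, hP⟩ := (hU y).toP
    exact ⟨(hcon _ _ _ (hU y)).le, r, hP⟩
  have hinj : Function.Injective (fun y => (O y, g y)) := by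
    intro y y' h
    simp only [Prod.mk.injEq] at h
    rw [← h0 y, ← h0 y', h.2]
  exact (Set.infinite_range_of_injective hinj) this

theorem Bl_lower (M : ℕ) : ∃ p : ℕ, ∀ n, p ≤ n → (n - p).choose M ≤ (BlS s n).card := by
  obtain ⟨k, g, O, hU, hM⟩ := exists_many s M
  obtain ⟨Y, hY, hYc⟩ := Finset.exists_subset_card_eq hM
  have hQ : QS s k (Y, g) := ⟨O, hU, hY⟩
  refine ⟨costS s (Y, g), fun n hn => ?_⟩
  have h1 := fib_card n (Y, g) ⟨k, hQ⟩ hn
  have h2 : (fib (BlS s n) (Y, g)).card ≤ (BlS s n).card := by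
    classical
    exact Finset.card_le_card (Finset.filter_subset _ _)
  rw [h1] at h2
  simp only at h2
  rw [hYc] at h2
  refine le_trans ?_ h2
  exact Nat.le_mul_of_pos_left _ (by positivity)

open Classical in
/-- sphere -/
noncomputable def SpS (s : ℕ → Bool) (n : ℕ) : Finset WG := BlS s n \ BlS s (n - 1)

open Classical in
/-- few lamps -/
noncomputable def FewLS (s : ℕ → Bool) (J n : ℕ) : Finset WG := (BlS s n).filter (fun w => w.f.support.card < J)

open Classical in
/-- the classes that still grow quickly -/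
noncomputable def FastS (s : ℕ → Bool) (k J n : ℕ) : Finset WG :=
  (BlS s n).filter (fun w => J ≤ w.f.support.card ∧ n - costS s (kap w) ≤ k * w.f.support.card)

theorem fast_le (k J n : ℕ) :
    (k + 2) ^ J * (FastS s k J n).card ≤ (k + 1) ^ J * (BlS s (n + J)).card := by
  classical
  refine fiberwise_le _ _ _ _ fun c => ?_
  by_cases hne : (fib (FastS s k J n) c) = ∅
  · rw [hne]; simp
  · obtain ⟨w, hw⟩ := Finset.nonempty_iff_ne_empty.mpr hne
    rw [fib, Finset.mem_filter, FastS, Finset.mem_filter, mem_Bl_iff'] at hw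
    obtain ⟨⟨⟨hQ, hcn⟩, hJ, hl⟩, rfl⟩ := hw
    have h1 : (fib (FastS s k J n) (kap w)).card ≤ (fib (BlS s n) (kap w)).card := by
      apply Finset.card_le_card
      intro v hv
      rw [fib, Finset.mem_filter, FastS, Finset.mem_filter] at hv
      rw [fib, Finset.mem_filter]
      exact ⟨hv.1.1, hv.2⟩
    have h2 := fib_card n (kap w) hQ (by omega)
    have h3 := fib_card (n + J) (kap w) hQ (by omega)
    have hk1 : (kap w).1 = w.f.support := rfl
    rw [hk1] at h2 h3
    rw [h3]
    have h4 := choose_growth (n - costS s (kap w)) w.f.support.card k hl J hJ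
    have h5 : n + J - costS s (kap w) = n - costS s (kap w) + J := by omega
    rw [h5]
    calc (k + 2) ^ J * (fib (FastS s k J n) (kap w)).card
        ≤ (k + 2) ^ J * (2 ^ w.f.support.card * (n - costS s (kap w)).choose w.f.support.card) := by
          rw [← h2]; exact Nat.mul_le_mul_left _ h1
      _ = 2 ^ w.f.support.card * ((k + 2) ^ J * (n - costS s (kap w)).choose w.f.support.card) := by
          ring
      _ ≤ 2 ^ w.f.support.card *
            ((k + 1) ^ J * (n - costS s (kap w) + J).choose w.f.support.card) :=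
          Nat.mul_le_mul_left _ h4
      _ = _ := by ring

open Classical in
theorem slow_le (k J n : ℕ) (hk : 1 ≤ k) (hJ : 1 ≤ J) :
    k * ((SpS s n) \ (FewLS s J n ∪ FastS s k J n)).card ≤ (BlS s n).card := by
  classical
  have := fiberwise_le ((SpS s n) \ (FewLS s J n ∪ FastS s k J n)) (BlS s n) k 1 (fun c => ?_)
  · simpa using this
  by_cases hne : (fib ((SpS s n) \ (FewLS s J n ∪ FastS s k J n)) c) = ∅
  · rw [hne]; simp
  · obtain ⟨w, hw⟩ := Finset.nonempty_iff_ne_empty.mpr hne
    rw [fib, Finset.mem_filter, Finset.mem_sdiff, Finset.mem_union, SpS, Finset.mem_sdiff,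
      FewLS, FastS, Finset.mem_filter, Finset.mem_filter] at hw
    obtain ⟨⟨⟨hwn, hwn1⟩, hnot⟩, rfl⟩ := hw
    have hwn' := (mem_Bl_iff' n w).mp hwn
    obtain ⟨hQ, hcn⟩ := hwn'
    push Not at hnot
    have hJ' : J ≤ w.f.support.card := by
      by_contra hc
      push Not at hc
      have := hnot.1 hwn
      omega
    have hl : k * w.f.support.card < n - costS s (kap w) := hnot.2 hwn hJ'
    have hpos : 1 ≤ k * w.f.support.card := Nat.mul_pos hk (by omega)
    have h1 : fib ((SpS s n) \ (FewLS s J n ∪ FastS s k J n)) (kap w) ⊆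
        fib (BlS s n) (kap w) \ fib (BlS s (n - 1)) (kap w) := by
      intro v hv
      rw [fib, Finset.mem_filter, Finset.mem_sdiff, SpS, Finset.mem_sdiff] at hv
      rw [Finset.mem_sdiff, fib, fib, Finset.mem_filter, Finset.mem_filter]
      exact ⟨⟨hv.1.1.1, hv.2⟩, fun h => hv.1.1.2 h.1⟩
    have hsub : fib (BlS s (n - 1)) (kap w) ⊆ fib (BlS s n) (kap w) := by
      intro v hv
      rw [fib, Finset.mem_filter] at hv ⊢
      exact ⟨Bl_mono (Nat.sub_le n 1) hv.1, hv.2⟩
    have h2 := Finset.card_le_card h1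
    rw [Finset.card_sdiff_of_subset hsub, fib_card n (kap w) hQ (by omega),
      fib_card (n - 1) (kap w) hQ (by omega)] at h2
    have hk1 : (kap w).1 = w.f.support := rfl
    rw [hk1] at h2
    rw [fib_card n (kap w) hQ (by omega), hk1, one_mul]
    have h3 := choose_sphere (n - costS s (kap w)) w.f.support.card k (by omega) hk hl.le
    have h4 : n - 1 - costS s (kap w) = n - costS s (kap w) - 1 := by omega
    rw [h4, ← Nat.mul_sub] at h2
    calc _ ≤ k * (2 ^ w.f.support.card * ((n - costS s (kap w)).choose w.f.support.card -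
          (n - costS s (kap w) - 1).choose w.f.support.card)) := Nat.mul_le_mul_left _ h2
      _ = 2 ^ w.f.support.card * (k * ((n - costS s (kap w)).choose w.f.support.card -
          (n - costS s (kap w) - 1).choose w.f.support.card)) := by ring
      _ ≤ _ := Nat.mul_le_mul_left _ h3

theorem sphere_le (k J n : ℕ) (hk : 1 ≤ k) (hJ : 1 ≤ J) :
    k * (SpS s n).card ≤ (BlS s n).card + k * (FewLS s J n).card + k * (FastS s k J n).card := by
  classical
  have h1 := slow_le (s := s) k J n hk hJ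
  have h2 : (SpS s n).card ≤ ((SpS s n) \ (FewLS s J n ∪ FastS s k J n)).card +
      ((FewLS s J n).card + (FastS s k J n).card) := by
    have : SpS s n ⊆ ((SpS s n) \ (FewLS s J n ∪ FastS s k J n)) ∪ (FewLS s J n ∪ FastS s k J n) := by
      intro w hw
      rw [Finset.mem_union, Finset.mem_sdiff]
      tauto
    refine (Finset.card_le_card this).trans ((Finset.card_union_le _ _).trans ?_)
    exact Nat.add_le_add_left (Finset.card_union_le _ _) _
  calc k * (SpS s n).card ≤ k * (((SpS s n) \ (FewLS s J n ∪ FastS s k J n)).card +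
      ((FewLS s J n).card + (FastS s k J n).card)) := Nat.mul_le_mul_left _ h2
    _ = k * ((SpS s n) \ (FewLS s J n ∪ FastS s k J n)).card +
        (k * (FewLS s J n).card + k * (FastS s k J n).card) := by ring
    _ ≤ _ := by omega




open Classical in
/-- few lamps but many sites -/
noncomputable def ManyS (s : ℕ → Bool) (J m0 n : ℕ) : Finset WG :=
  (FewLS s J n).filter (fun w => ∃ k O, US s k w.g O ∧ w.f.support ⊆ O ∧ k + l1 w.f ≤ n ∧ m0 ≤ O.card)

open Classical in
/-- few sites -/
noncomputable def FewSS (s : ℕ → Bool) (m0 n : ℕ) : Finset WG :=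
  (BlS s n).filter (fun w => ∃ k O, US s k w.g O ∧ w.f.support ⊆ O ∧ k + l1 w.f ≤ n ∧ O.card ≤ m0)

theorem FewL_le (J m0 n : ℕ) : (FewLS s J n).card ≤ (ManyS s J m0 n).card + (FewSS s m0 n).card := by
  classical
  have : FewLS s J n ⊆ ManyS s J m0 n ∪ FewSS s m0 n := by
    intro w hw
    rw [Finset.mem_union, ManyS, FewSS, Finset.mem_filter, Finset.mem_filter]
    have hb : w ∈ BlS s n := by
      rw [FewLS, Finset.mem_filter] at hw; exact hw.1
    obtain ⟨k, O, hU, hs, hk⟩ := (mem_Bl_iff n w).mp hb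
    rcases le_total m0 O.card with h | h
    · left; exact ⟨hw, k, O, hU, hs, hk, h⟩
    · right; exact ⟨hb, k, O, hU, hs, hk, h⟩
  exact (Finset.card_le_card this).trans (Finset.card_union_le _ _)



theorem ManyS_le (J m0 n : ℕ) :
    (ManyS s J m0 n).card * (m0 - J) ≤ (BlS s (n + 1)).card * J := by
  classical
  refine Finset.card_mul_le_card_mul
    (fun w z => z.g = w.g ∧ ∃ y, y ∉ w.f.support ∧ z.f = w.f + Finsupp.single y 1) ?_ ?_
  · intro w hw
    rw [ManyS, Finset.mem_filter, FewLS, Finset.mem_filter] at hw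
    obtain ⟨⟨hwn, hJ⟩, k, O, hU, hs, hk, hm⟩ := hw
    have hsub : (O \ w.f.support).image (fun y => (⟨w.f + Finsupp.single y 1, w.g⟩ : WG)) ⊆
        Finset.bipartiteAbove (fun w z => z.g = w.g ∧ ∃ y, y ∉ w.f.support ∧
          z.f = w.f + Finsupp.single y 1) (BlS s (n + 1)) w := by
      intro z hz
      rw [Finset.mem_image] at hz
      obtain ⟨y, hy, rfl⟩ := hz
      rw [Finset.mem_sdiff] at hy
      rw [Finset.mem_bipartiteAbove]
      refine ⟨?_, rfl, y, hy.2, rfl⟩
      rw [mem_Bl_iff]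
      refine ⟨k, O, hU, ?_, ?_⟩
      · simp only
        rw [add_single_support _ _ hy.2]
        intro x hx
        rw [Finset.mem_insert] at hx
        rcases hx with rfl | hx
        · exact hy.1
        · exact hs hx
      · simp only
        have := l1_add_single w.f y 1
        simp at this
        omega
    refine le_trans ?_ (Finset.card_le_card hsub)
    rw [Finset.card_image_of_injOn, Finset.card_sdiff_of_subset hs]
    · omega
    · intro y hy y' hy' h
      simp only [WG.mk.injEq, and_true, add_right_inj] at h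
      have := congrArg (fun f => f y) h
      simp only [Finsupp.single_eq_same] at this
      by_contra hne
      rw [Finsupp.single_apply, if_neg (fun h => hne h.symm)] at this
      exact one_ne_zero this
  · intro z hz
    by_cases hemp : Finset.bipartiteBelow (fun w z => z.g = w.g ∧ ∃ y, y ∉ w.f.support ∧
          z.f = w.f + Finsupp.single y 1) (ManyS s J m0 n) z = ∅
    · rw [hemp]; simp
    · obtain ⟨w, hw⟩ := Finset.nonempty_iff_ne_empty.mpr hemp
      have hzJ : z.f.support.card ≤ J := by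
        rw [Finset.mem_bipartiteBelow, ManyS, Finset.mem_filter, FewLS, Finset.mem_filter] at hw
        obtain ⟨⟨⟨_, hJ⟩, _⟩, _, y, hy, hzf⟩ := hw
        rw [hzf, add_single_support _ _ hy]
        have := Finset.card_insert_le y w.f.support
        omega
      refine le_trans ?_ hzJ
      have hsub : Finset.bipartiteBelow (fun w z => z.g = w.g ∧ ∃ y, y ∉ w.f.support ∧
          z.f = w.f + Finsupp.single y 1) (ManyS s J m0 n) z ⊆
          z.f.support.image (fun y => (⟨z.f.erase y, z.g⟩ : WG)) := by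
        intro v hv
        rw [Finset.mem_bipartiteBelow] at hv
        obtain ⟨_, hg, y, hy, hzf⟩ := hv
        rw [Finset.mem_image]
        refine ⟨y, ?_, ?_⟩
        · rw [hzf, add_single_support _ _ hy]; exact Finset.mem_insert_self _ _
        · apply WG.ext
          · simp only
            rw [hzf, add_single_erase _ _ hy]
          · exact hg
      exact (Finset.card_le_card hsub).trans Finset.card_image_le

theorem FewS_le (m0 : ℕ) : ∃ C : ℕ, ∀ n, (FewSS s m0 n).card ≤ C * (n + 1) ^ m0 := by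
  classical
  set F := (few_finite_S m0 s).toFinset with hF
  refine ⟨F.card * 4 ^ m0, fun n => ?_⟩
  choose S hS hc using (fun Y => class_count Y n)
  have hsub : FewSS s m0 n ⊆ F.biUnion (fun p => p.1.powerset.biUnion
      (fun Y => (S Y).image (fun f => (⟨f, p.2⟩ : WG)))) := by
    intro w hw
    rw [FewSS, Finset.mem_filter] at hw
    obtain ⟨_, k, O, hU, hs, hk, hm⟩ := hw
    obtain ⟨r, _, hP⟩ := hU.toP
    rw [Finset.mem_biUnion]
    refine ⟨(O, w.g), ?_, ?_⟩
    · rw [hF, Set.Finite.mem_toFinset]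
      exact ⟨hm, r, hP⟩
    · rw [Finset.mem_biUnion]
      refine ⟨w.f.support, Finset.mem_powerset.mpr hs, ?_⟩
      rw [Finset.mem_image]
      refine ⟨w.f, ?_, rfl⟩
      rw [hS]
      exact ⟨rfl, by omega⟩
  refine (Finset.card_le_card hsub).trans (Finset.card_biUnion_le.trans ?_)
  have hb : ∀ p ∈ F, (p.1.powerset.biUnion
      (fun Y => (S Y).image (fun f => (⟨f, p.2⟩ : WG)))).card ≤ 4 ^ m0 * (n + 1) ^ m0 := by
    intro p hp
    rw [hF, Set.Finite.mem_toFinset] at hp
    have hpc : p.1.card ≤ m0 := hp.1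
    refine Finset.card_biUnion_le.trans ?_
    have hY : ∀ Y ∈ p.1.powerset, ((S Y).image (fun f => (⟨f, p.2⟩ : WG))).card ≤
        2 ^ m0 * (n + 1) ^ m0 := by
      intro Y hY
      refine Finset.card_image_le.trans ?_
      rw [hc]
      have hYc : Y.card ≤ m0 := (Finset.card_le_card (Finset.mem_powerset.mp hY)).trans hpc
      refine Nat.mul_le_mul (Nat.pow_le_pow_right (by norm_num) hYc) ?_
      calc n.choose Y.card ≤ n ^ Y.card := Nat.choose_le_pow _ _
        _ ≤ (n + 1) ^ Y.card := Nat.pow_le_pow_left (Nat.le_succ n) _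
        _ ≤ (n + 1) ^ m0 := Nat.pow_le_pow_right (Nat.succ_pos n) hYc
    refine (Finset.sum_le_card_nsmul _ _ _ hY).trans ?_
    rw [Finset.card_powerset, smul_eq_mul]
    calc 2 ^ p.1.card * (2 ^ m0 * (n + 1) ^ m0) ≤ 2 ^ m0 * (2 ^ m0 * (n + 1) ^ m0) :=
          Nat.mul_le_mul_right _ (Nat.pow_le_pow_right (by norm_num) hpc)
      _ = 4 ^ m0 * (n + 1) ^ m0 := by
          rw [← mul_assoc, ← mul_pow]
          norm_num
  refine (Finset.sum_le_card_nsmul _ _ _ hb).trans ?_
  rw [smul_eq_mul, mul_assoc]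

theorem poly_le (A D : ℕ) : ∃ N : ℕ, ∀ n, N ≤ n → A * (n + 1) ^ D ≤ (BlS s n).card := by
  obtain ⟨p, hp⟩ := Bl_lower (D + 1)
  refine ⟨max (2 * p + 2 * D + 1) (A * (2 ^ (D + 1) * (D + 1).factorial)), fun n hn => ?_⟩
  have hn1 : 2 * p + 2 * D + 1 ≤ n := (le_max_left _ _).trans hn
  have hn2 : A * (2 ^ (D + 1) * (D + 1).factorial) ≤ n := (le_max_right _ _).trans hn
  refine le_trans ?_ (hp n (by omega))
  have h1 : (n - p + 1 - (D + 1)) ^ (D + 1) ≤ (D + 1).factorial * (n - p).choose (D + 1) := by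
    rw [← Nat.descFactorial_eq_factorial_mul_choose]
    exact Nat.pow_sub_le_descFactorial _ _
  have h2 : n + 1 ≤ 2 * (n - p + 1 - (D + 1)) := by omega
  have h3 : (n + 1) ^ (D + 1) ≤ 2 ^ (D + 1) * ((D + 1).factorial * (n - p).choose (D + 1)) := by
    calc (n + 1) ^ (D + 1) ≤ (2 * (n - p + 1 - (D + 1))) ^ (D + 1) := Nat.pow_le_pow_left h2 _
      _ = 2 ^ (D + 1) * (n - p + 1 - (D + 1)) ^ (D + 1) := mul_pow _ _ _
      _ ≤ _ := Nat.mul_le_mul_left _ h1
  have h4 : (2 ^ (D + 1) * (D + 1).factorial) * (A * (n + 1) ^ D) ≤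
      (2 ^ (D + 1) * (D + 1).factorial) * (n - p).choose (D + 1) := by
    calc (2 ^ (D + 1) * (D + 1).factorial) * (A * (n + 1) ^ D)
        = (A * (2 ^ (D + 1) * (D + 1).factorial)) * (n + 1) ^ D := by ring
      _ ≤ (n + 1) * (n + 1) ^ D := Nat.mul_le_mul_right _ (by omega)
      _ = (n + 1) ^ (D + 1) := by ring
      _ ≤ _ := h3
      _ = _ := by ring
  exact Nat.le_of_mul_le_mul_left h4 (by positivity)

theorem FewL_small (J k : ℕ) (hJ : 1 ≤ J) (hk : 1 ≤ k) :
    ∃ N : ℕ, ∀ n, N ≤ n → k * (FewLS s J n).card ≤ (BlS s n).card := by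
  classical
  set m0 := J + 14 * k * J with hm0
  obtain ⟨C, hC⟩ := FewS_le (s := s) m0
  obtain ⟨N, hN⟩ := poly_le (s := s) (2 * k * C) m0
  refine ⟨N, fun n hn => ?_⟩
  have h1 := FewL_le (s := s) J m0 n
  have h2 := ManyS_le (s := s) J m0 n
  have h3 : (BlS s (n + 1)).card ≤ 7 * (BlS s n).card := by
    have := Bl_add (s := s) n 1
    have h7 : (BlS s 1).card ≤ 7 := by
      have hsub : BlS s 1 ⊆
          ([1, gA, gKS s K4.b, gKS s K4.c, gKS s K4.d, gD 1, gD (-1)] : List WG).toFinset := by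
        intro w hw
        unfold BlS at hw
        rw [pow_one, mem_T0] at hw
        rw [List.mem_toFinset]
        simpa using hw
      exact (Finset.card_le_card hsub).trans (List.toFinset_card_le _)
    calc (BlS s (n + 1)).card ≤ (BlS s n).card * (BlS s 1).card := this
      _ ≤ (BlS s n).card * 7 := Nat.mul_le_mul_left _ h7
      _ = _ := by ring
  have h4 : m0 - J = 14 * k * J := by omega
  rw [h4] at h2
  have h5 : 2 * k * (ManyS s J m0 n).card ≤ (BlS s n).card := by
    have : (7 * J) * (2 * k * (ManyS s J m0 n).card) ≤ (7 * J) * (BlS s n).card := by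
      calc (7 * J) * (2 * k * (ManyS s J m0 n).card) = (ManyS s J m0 n).card * (14 * k * J) := by ring
        _ ≤ (BlS s (n + 1)).card * J := h2
        _ ≤ (7 * (BlS s n).card) * J := Nat.mul_le_mul_right _ h3
        _ = _ := by ring
    exact Nat.le_of_mul_le_mul_left this (by omega)
  have h6 : 2 * k * (FewSS s m0 n).card ≤ (BlS s n).card := by
    calc 2 * k * (FewSS s m0 n).card ≤ 2 * k * (C * (n + 1) ^ m0) := Nat.mul_le_mul_left _ (hC n)
      _ = 2 * k * C * (n + 1) ^ m0 := by ring
      _ ≤ _ := hN n hn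
  have h7 : 2 * (k * (FewLS s J n).card) ≤ 2 * (BlS s n).card := by
    calc 2 * (k * (FewLS s J n).card) ≤ 2 * (k * ((ManyS s J m0 n).card + (FewSS s m0 n).card)) :=
          Nat.mul_le_mul_left _ (Nat.mul_le_mul_left _ h1)
      _ = 2 * k * (ManyS s J m0 n).card + 2 * k * (FewSS s m0 n).card := by ring
      _ ≤ _ := by omega
  omega


theorem Bl_subexp (hs : Inf s) (t : ℝ) (ht : 0 < t) :
    ∃ A : ℝ, 0 < A ∧ ∀ n : ℕ, ((BlS s n).card : ℝ) ≤ A * Real.exp (t * n) := by
  classical
  set x := min (t / 3) 1 with hx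
  have hx0 : 0 < x := lt_min (by positivity) one_pos
  have hx1 : x ≤ 1 := min_le_right _ _
  have hxt : x ≤ t / 3 := min_le_left _ _
  set l := Real.log (2 / x) with hl
  have hl0 : 0 < l := Real.log_pos (by rw [lt_div_iff₀ hx0]; linarith)
  obtain ⟨B, hB⟩ := sites_sublinear_S s hs (t / (9 * l)) (by positivity)
  obtain ⟨A1, hA1⟩ := RFS_subexp s hs (t / 9) (by positivity)
  have hA10 : 0 ≤ A1 := by
    have := hA1 0
    simp only [Nat.cast_zero, mul_zero, Real.exp_zero, mul_one] at this
    exact (Nat.cast_nonneg _).trans this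
  refine ⟨A1 * Real.exp (|B| * l) + 1, by positivity, fun n => ?_⟩
  have hK : ∀ w ∈ BlS s n, kap w ∈ RFS s (3 * n) := by
    intro w hw
    obtain ⟨k, O, hU, hs, hk⟩ := (mem_Bl_iff n w).mp hw
    obtain ⟨r, hr, hP⟩ := hU.toP
    rw [mem_RFS]
    exact ⟨r, by omega, O, hs, hP⟩
  have hfib : ∀ c ∈ RFS s (3 * n), ((fib (BlS s n) c).card : ℝ) ≤
      Real.exp ((t / 3 * n + |B| * l)) * Real.exp (t / 3 * n) := by
    intro c hc
    rw [mem_RFS] at hc
    obtain ⟨r, hr, O, hO, hP⟩ := hc
    by_cases hcase : (∃ k, QS s k c) ∧ costS s c ≤ n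
    · rw [fib_card n c hcase.1 hcase.2]
      push_cast
      have hch : ((n - costS s c).choose c.1.card : ℝ) ≤ (n.choose c.1.card : ℝ) := by
        exact_mod_cast Nat.choose_le_choose _ (Nat.sub_le _ _)
      have h1 : (2 : ℝ) ^ c.1.card * ((n - costS s c).choose c.1.card : ℝ) ≤
          (2 / x) ^ c.1.card * (1 + x) ^ n :=
        (mul_le_mul_of_nonneg_left hch (by positivity)).trans (class_bound n _ x hx0)
      refine h1.trans ?_
      have h2 : (2 / x) ^ c.1.card ≤ Real.exp (t / 3 * n + |B| * l) := by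
        have h2x : 0 < 2 / x := by positivity
        rw [← Real.exp_log h2x, ← Real.exp_nat_mul]
        apply Real.exp_le_exp.mpr
        have h3 : (c.1.card : ℝ) ≤ t / (9 * l) * (3 * n) + |B| := by
          have h4 : (c.1.card : ℝ) ≤ O.card := by exact_mod_cast Finset.card_le_card hO
          have h5 := hB r c.2 O hP
          have h6 : (r : ℝ) ≤ 3 * n := by exact_mod_cast hr
          have h7 : t / (9 * l) * (r : ℝ) ≤ t / (9 * l) * (3 * n) :=
            mul_le_mul_of_nonneg_left h6 (by positivity)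
          have h8 := le_abs_self B
          linarith
        calc (c.1.card : ℝ) * Real.log (2 / x) ≤ (t / (9 * l) * (3 * n) + |B|) * l :=
              mul_le_mul_of_nonneg_right h3 hl0.le
          _ = t / 3 * n + |B| * l := by field_simp; ring
      have h9 : (1 + x) ^ n ≤ Real.exp (t / 3 * n) := by
        calc (1 + x) ^ n ≤ (Real.exp x) ^ n := by
              apply pow_le_pow_left₀ (by positivity)
              have := Real.add_one_le_exp x
              linarith
          _ = Real.exp (n * x) := by rw [Real.exp_nat_mul]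
          _ ≤ _ := by
              apply Real.exp_le_exp.mpr
              have := mul_le_mul_of_nonneg_left hxt (Nat.cast_nonneg (α := ℝ) n)
              linarith
      exact mul_le_mul h2 h9 (by positivity) (Real.exp_pos _).le
    · rw [fib_empty n c hcase]
      simp only [Finset.card_empty, Nat.cast_zero]
      positivity
  have hsum : ((BlS s n).card : ℝ) ≤ (RFS s (3 * n)).card *
      (Real.exp ((t / 3 * n + |B| * l)) * Real.exp (t / 3 * n)) := by
    rw [card_eq_sum_fib (BlS s n) (RFS s (3 * n)) hK]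
    push_cast
    refine (Finset.sum_le_card_nsmul _ _ _ hfib).trans ?_
    rw [nsmul_eq_mul]
  have hRF : ((RFS s (3 * n)).card : ℝ) ≤ A1 * Real.exp (t / 3 * n) := by
    have := hA1 (3 * n)
    push_cast at this
    have h' : t / 9 * (3 * (n : ℝ)) = t / 3 * n := by ring
    rwa [h'] at this
  calc ((BlS s n).card : ℝ) ≤ (A1 * Real.exp (t / 3 * n)) *
      (Real.exp ((t / 3 * n + |B| * l)) * Real.exp (t / 3 * n)) :=
        hsum.trans (mul_le_mul_of_nonneg_right hRF (by positivity))
    _ = A1 * Real.exp (|B| * l) * Real.exp (t * n) := by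
        rw [show t * (n : ℝ) = t / 3 * n + t / 3 * n + t / 3 * n by ring]
        simp only [Real.exp_add]
        ring
    _ ≤ _ := by
        apply mul_le_mul_of_nonneg_right _ (Real.exp_pos _).le
        linarith




theorem exists_J (hs : Inf s) (k : ℕ) (hk : 1 ≤ k) :
    ∃ J : ℕ, 1 ≤ J ∧ k * (k + 1) ^ J * (BlS s J).card ≤ (k + 2) ^ J := by
  set q : ℝ := ((k : ℝ) + 1) / (k + 2) with hq
  have hq0 : 0 < q := by positivity
  have hq1 : q < 1 := by rw [hq, div_lt_one (by positivity)]; linarith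
  set t : ℝ := -Real.log q / 2 with ht
  have hlog : Real.log q < 0 := Real.log_neg hq0 hq1
  have ht0 : 0 < t := by rw [ht]; linarith
  obtain ⟨A, hA0, hA⟩ := Bl_subexp hs t ht0
  have hr1 : Real.exp t * q < 1 := by
    have : Real.exp t * q = Real.exp (Real.log q / 2) := by
      conv_lhs => rw [← Real.exp_log hq0, ← Real.exp_add]
      congr 1
      rw [ht]; ring
    rw [this, ← Real.exp_zero]
    exact Real.exp_lt_exp.mpr (by linarith)
  have hr0 : 0 < Real.exp t * q := by positivity
  have hlim : Tendsto (fun J : ℕ => (k : ℝ) * A * (Real.exp t * q) ^ J) atTop (𝓝 0) := by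
    have := (tendsto_pow_atTop_nhds_zero_of_lt_one hr0.le hr1).const_mul ((k : ℝ) * A)
    simpa using this
  have hev := (hlim.eventually (gt_mem_nhds (show (0 : ℝ) < 1 by norm_num))).and
    (eventually_ge_atTop 1)
  obtain ⟨J, hJ, hJ1⟩ := hev.exists
  refine ⟨J, hJ1, ?_⟩
  have h1 : (k : ℝ) * (k + 1) ^ J * ((BlS s J).card : ℝ) ≤ (k + 2) ^ J := by
    have h2 := hA J
    have h3 : ((k : ℝ) + 1) ^ J = q ^ J * (k + 2) ^ J := by
      rw [hq, div_pow]; field_simp
    have h4 : Real.exp (t * J) = (Real.exp t) ^ J := by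
      rw [mul_comm, Real.exp_nat_mul]
    calc (k : ℝ) * (k + 1) ^ J * ((BlS s J).card : ℝ)
        ≤ (k : ℝ) * (k + 1) ^ J * (A * Real.exp (t * J)) :=
          mul_le_mul_of_nonneg_left h2 (by positivity)
      _ = ((k : ℝ) * A * (Real.exp t * q) ^ J) * (k + 2) ^ J := by
          rw [h3, h4, mul_pow]; ring
      _ ≤ 1 * (k + 2) ^ J := mul_le_mul_of_nonneg_right hJ.le (by positivity)
      _ = _ := one_mul _
  exact_mod_cast h1

theorem sphere_small (hs : Inf s) (k : ℕ) (hk : 1 ≤ k) :
    ∃ N : ℕ, ∀ n, N ≤ n → k * (SpS s n).card ≤ 3 * (BlS s n).card := by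
  obtain ⟨J, hJ1, hJ⟩ := exists_J hs k hk
  obtain ⟨N, hN⟩ := FewL_small (s := s) J k hJ1 hk
  refine ⟨N, fun n hn => ?_⟩
  have h1 := sphere_le (s := s) k J n hk hJ1
  have h2 := hN n hn
  have h3 : k * (FastS s k J n).card ≤ (BlS s n).card := by
    have h4 := fast_le (s := s) k J n
    have h5 := Bl_add (s := s) n J
    have h6 : (k + 2) ^ J * (k * (FastS s k J n).card) ≤ (k + 2) ^ J * (BlS s n).card := by
      calc (k + 2) ^ J * (k * (FastS s k J n).card) = k * ((k + 2) ^ J * (FastS s k J n).card) := by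
            ring
        _ ≤ k * ((k + 1) ^ J * (BlS s (n + J)).card) := Nat.mul_le_mul_left _ h4
        _ ≤ k * ((k + 1) ^ J * ((BlS s n).card * (BlS s J).card)) :=
            Nat.mul_le_mul_left _ (Nat.mul_le_mul_left _ h5)
        _ = (k * (k + 1) ^ J * (BlS s J).card) * (BlS s n).card := by ring
        _ ≤ (k + 2) ^ J * (BlS s n).card := Nat.mul_le_mul_right _ hJ
    exact Nat.le_of_mul_le_mul_left h6 (by positivity)
  omega

theorem Bl_pos (n : ℕ) : 0 < (BlS s n).card := by
  classical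
  refine Finset.card_pos.mpr ⟨1, ?_⟩
  exact Bl_mono (Nat.zero_le n) (by simp [BlS])

theorem Sp_card (n : ℕ) : (SpS s (n + 1)).card + (BlS s n).card = (BlS s (n + 1)).card := by
  classical
  unfold SpS
  rw [Nat.add_sub_cancel]
  exact Finset.card_sdiff_add_card_eq_card (Bl_mono (Nat.le_succ n))

theorem Bl_succ_le (n : ℕ) : (BlS s (n + 1)).card ≤ (BlS s n).card * (BlS s 1).card := Bl_add n 1

end Pool.Agent.Helper259_SB
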