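import Pool.Agent.Helper259_SB.Dom
import Pool.Agent.Helper259_SB.Ball

set_option autoImplicit false

/-!
Assembly: the group attached to a switch sequence has sphere-to-ball ratio tending to zero, and a
suitable sequence makes its growth escape a given subexponential function.
-/

open scoped Pointwise
open Filter Topology
open Pool.Agent.Results.MP_e563b5_al.IntermediateRatio

namespace Pool.Agent.Helper259_SB

/-- the group of a switch sequence -/
abbrev HS (s : ℕ → Bool) : Type := Subgroup.closure (S0S s : Set WG)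

/-- its generating set -/
def TS (s : ℕ → Bool) : Set (HS s) := Subtype.val ⁻¹' (S0S s : Set WG)

theorem TS_finite (s : ℕ → Bool) : (TS s).Finite :=
  (S0S s).finite_toSet.preimage Subtype.val_injective.injOn

theorem TS_closure (s : ℕ → Bool) : Subgroup.closure (TS s) = ⊤ :=
  Subgroup.closure_closure_coe_preimage

theorem ball_S0 (s : ℕ → Bool) (n : ℕ) : ball (S0S s : Set WG) n = (BlS s n : Set WG) := by
  classical
  rw [ball_eq_pow]
  unfold BlS T0S
  push_cast
  rfl

theorem ncard_ball_TS (s : ℕ → Bool) (n : ℕ) : (ball (TS s) n).ncard = (BlS s n).card := by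
  unfold TS
  rw [ncard_ball_coe, ball_S0, Set.ncard_coe_finset]

theorem ncard_sphere_TS (s : ℕ → Bool) (n : ℕ) :
    (ball (TS s) (n + 1) \ ball (TS s) n).ncard = (SpS s (n + 1)).card := by
  classical
  unfold TS
  rw [ncard_sphere_coe, ball_S0, ball_S0, ← Finset.coe_sdiff, Set.ncard_coe_finset]
  rfl

theorem ratio_TS (s : ℕ → Bool) (hs : Inf s) (k : ℕ) : ∃ M, ∀ m, M ≤ m →
    k * (ball (TS s) (m + 1) \ ball (TS s) m).ncard ≤ (ball (TS s) m).ncard := by
  rcases Nat.eq_zero_or_pos k with rfl | hk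
  · exact ⟨0, fun m _ => by simp⟩
  · have hb1 : 0 < (BlS s 1).card := Bl_pos 1
    have hpos : 0 < 3 * (BlS s 1).card := by omega
    obtain ⟨N, hN⟩ := sphere_small hs (3 * (BlS s 1).card * k) (Nat.mul_pos hpos hk)
    refine ⟨N, fun m hm => ?_⟩
    rw [ncard_sphere_TS, ncard_ball_TS]
    have h1 := hN (m + 1) (by omega)
    have h2 := Bl_succ_le (s := s) m
    refine Nat.le_of_mul_le_mul_left (c := 3 * (BlS s 1).card) ?_ hpos
    calc 3 * (BlS s 1).card * (k * (SpS s (m + 1)).card)
        = 3 * (BlS s 1).card * k * (SpS s (m + 1)).card := by ring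
      _ ≤ 3 * (BlS s (m + 1)).card := h1
      _ ≤ 3 * ((BlS s m).card * (BlS s 1).card) := Nat.mul_le_mul_left _ h2
      _ = _ := by ring

/-- a monotone majorant -/
def maj (f : ℕ → ℕ) (n : ℕ) : ℕ := 1 + (Finset.range (n + 1)).sup f

theorem maj_mono (f : ℕ → ℕ) : Monotone (maj f) := by
  intro m n h
  unfold maj
  have := Finset.sup_mono (f := f) (Finset.range_subset_range.mpr (Nat.add_le_add_right h 1))
  omega

theorem le_maj (f : ℕ → ℕ) (n : ℕ) : f n ≤ maj f n := by
  unfold maj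
  have := Finset.le_sup (f := f) (Finset.mem_range.mpr (Nat.lt_add_one n))
  omega

theorem maj_exp (f : ℕ → ℕ) (t : ℝ) (ht : 0 < t)
    (h : ∃ A : ℝ, ∀ n : ℕ, (f n : ℝ) ≤ A * Real.exp (t * n)) :
    ∃ A : ℝ, ∀ n : ℕ, (maj f n : ℝ) ≤ A * Real.exp (t * n) := by
  obtain ⟨A, hA⟩ := h
  have hA0 : 0 ≤ A := by
    have := hA 0
    simp only [Nat.cast_zero, mul_zero, Real.exp_zero, mul_one] at this
    exact (Nat.cast_nonneg _).trans this
  refine ⟨1 + A, fun n => ?_⟩
  obtain ⟨i, hi, hi'⟩ := Finset.exists_mem_eq_sup (Finset.range (n + 1)) (by simp) f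
  have hin : i ≤ n := by
    have := Finset.mem_range.mp hi
    omega
  unfold maj
  rw [hi']
  push_cast
  have h1 : 1 ≤ Real.exp (t * n) := Real.one_le_exp (by positivity)
  have h2 : (f i : ℝ) ≤ A * Real.exp (t * n) := by
    refine (hA i).trans (mul_le_mul_of_nonneg_left (Real.exp_le_exp.mpr ?_) hA0)
    exact mul_le_mul_of_nonneg_left (by exact_mod_cast hin) ht.le
  linarith

/-- the main statement -/
theorem main (f : ℕ → ℕ)
    (hf : Tendsto (fun n : ℕ => (f n : ℝ) ^ ((1 : ℝ) / (n : ℝ))) atTop (𝓝 1)) :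
    ∃ (H : Type) (_ : Group H) (T : Set H), T.Finite ∧ Subgroup.closure T = ⊤ ∧
      (∀ d : ℕ, ∀ᶠ n : ℕ in atTop, n ^ d ≤ (ball T n).ncard) ∧
      (¬ ∃ C : ℕ, ∀ n : ℕ, 1 ≤ n → (ball T n).ncard ≤ C * f (C * n)) ∧
      ∀ (K : Type*) [Group K] (S : Set K), S.Finite → Subgroup.closure S = ⊤ →
        (∃ C : ℕ, ∀ n : ℕ, 1 ≤ n → (ball S n).ncard ≤ C * f (C * n)) →
        Subgroup.closure (S ×ˢ {1} ∪ {1} ×ˢ T : Set (K × H)) = ⊤ ∧
        Tendsto (fun n : ℕ => ((ball (S ×ˢ {1} ∪ {1} ×ˢ T : Set (K × H)) n).ncard : ℝ) ^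
          ((1 : ℝ) / (n : ℝ))) atTop (𝓝 1) ∧
        Tendsto (fun n : ℕ =>
          ((ball (S ×ˢ {1} ∪ {1} ×ˢ T : Set (K × H)) (n + 1) \
            ball (S ×ˢ {1} ∪ {1} ×ˢ T : Set (K × H)) n).ncard : ℝ) /
          ((ball (S ×ˢ {1} ∪ {1} ×ˢ T : Set (K × H)) n).ncard : ℝ)) atTop (𝓝 0) := by
  have hexp : ∀ t : ℝ, 0 < t → ∃ A : ℝ, ∀ n : ℕ, (maj f n : ℝ) ≤ A * Real.exp (t * n) :=
    fun t ht => maj_exp f t ht (exp_of_root f hf t ht)
  obtain ⟨s, hs, hdom⟩ := exists_dom (maj f) (maj_mono f) hexp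
  have hmaj1 : ∀ n, 1 ≤ maj f n := fun n => by unfold maj; omega
  -- a version of the domination with positive radius
  have hdom' : ∀ C : ℕ, 2 ≤ C → ∃ L, 1 ≤ L ∧ C * maj f (C * L) ≤ (ball (TS s) L).ncard := by
    intro C hC
    obtain ⟨L, hL⟩ := hdom C
    refine ⟨L, ?_, by rw [ncard_ball_TS]; exact hL⟩
    by_contra h0
    have : L = 0 := by omega
    subst this
    have h1 : (BlS s 0).card = 1 := by
      rw [← ncard_ball_TS, ball_zero, Set.ncard_singleton]
    rw [h1] at hL
    have := Nat.mul_le_mul hC (hmaj1 (C * 0))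
    omega
  refine ⟨HS s, inferInstance, TS s, TS_finite s, TS_closure s, ?_, ?_, ?_⟩
  · intro d
    obtain ⟨N, hN⟩ := poly_le (s := s) 1 d
    refine eventually_atTop.mpr ⟨N, fun n hn => ?_⟩
    rw [ncard_ball_TS]
    refine le_trans ?_ (hN n hn)
    rw [one_mul]
    exact Nat.pow_le_pow_left (Nat.le_succ n) d
  · rintro ⟨C, hC⟩
    obtain ⟨L, hL1, hL⟩ := hdom' (C + 2) (by omega)
    have h1 := hC L hL1
    have h2 : f (C * L) ≤ maj f ((C + 2) * L) :=
      (le_maj f _).trans (maj_mono f (Nat.mul_le_mul_right _ (by omega)))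
    have h3 : C * f (C * L) ≤ C * maj f ((C + 2) * L) := Nat.mul_le_mul_left _ h2
    have h4 := hmaj1 ((C + 2) * L)
    nlinarith
  · intro K _ S hS hSc hSf
    have hTf := TS_finite s
    have hTc := TS_closure s
    obtain ⟨C0, hC0⟩ := hSf
    have hUf : (un S (TS s)).Finite := un_finite hS hTf
    refine ⟨closure_un hSc hTc, ?_, ?_⟩
    · refine root_of_exp (fun n => (ball (un S (TS s)) n).ncard) (fun n => ball_pos hUf n) ?_
      intro t ht
      -- growth of the second factor
      obtain ⟨A2, hA20, hA2⟩ := Bl_subexp hs (t / 2) (by positivity)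
      -- growth of the first factor
      have hC1 : (0 : ℝ) < (C0 : ℝ) + 1 := by positivity
      obtain ⟨A1, hA1⟩ := hexp (t / (2 * ((C0 : ℝ) + 1))) (by positivity)
      have hA10 : 0 ≤ A1 := by
        have := hA1 0
        simp only [Nat.cast_zero, mul_zero, Real.exp_zero, mul_one] at this
        exact (Nat.cast_nonneg _).trans this
      have hK : ∀ n : ℕ, ((ball S n).ncard : ℝ) ≤ (C0 * A1 + 1) * Real.exp (t / 2 * n) := by
        intro n
        rcases Nat.eq_zero_or_pos n with rfl | hn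
        · rw [ball_zero, Set.ncard_singleton]
          simp only [Nat.cast_one, Nat.cast_zero, mul_zero, Real.exp_zero, mul_one]
          have : (0 : ℝ) ≤ C0 * A1 := by positivity
          linarith
        · have h1 : ((ball S n).ncard : ℝ) ≤ C0 * (maj f ((C0 + 1) * n) : ℝ) := by
            have h2 : (ball S n).ncard ≤ C0 * maj f ((C0 + 1) * n) :=
              (hC0 n hn).trans (Nat.mul_le_mul_left _ ((le_maj f _).trans
                (maj_mono f (Nat.mul_le_mul_right _ (Nat.le_succ C0)))))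
            exact_mod_cast h2
          have h3 := hA1 ((C0 + 1) * n)
          have h4 : t / (2 * ((C0 : ℝ) + 1)) * (((C0 + 1) * n : ℕ) : ℝ) = t / 2 * n := by
            push_cast
            field_simp
          rw [h4] at h3
          have h5 : (C0 : ℝ) * (maj f ((C0 + 1) * n) : ℝ) ≤ C0 * (A1 * Real.exp (t / 2 * n)) :=
            mul_le_mul_of_nonneg_left h3 (Nat.cast_nonneg _)
          have h6 : 0 < Real.exp (t / 2 * n) := Real.exp_pos _
          calc ((ball S n).ncard : ℝ) ≤ C0 * (A1 * Real.exp (t / 2 * n)) := h1.trans h5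
            _ ≤ (C0 * A1 + 1) * Real.exp (t / 2 * n) := by nlinarith
      refine ⟨(C0 * A1 + 1) * A2, fun n => ?_⟩
      have h1 : (ball (un S (TS s)) n).ncard ≤ (ball S n).ncard * (ball (TS s) n).ncard := by
        rw [← Set.ncard_prod]
        exact Set.ncard_le_ncard (ball_un_subset S (TS s) n)
          ((ball_finite hS n).prod (ball_finite hTf n))
      have h2 : ((ball (un S (TS s)) n).ncard : ℝ) ≤
          ((ball S n).ncard : ℝ) * ((ball (TS s) n).ncard : ℝ) := by exact_mod_cast h1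
      have h3 := hK n
      have h4 : ((ball (TS s) n).ncard : ℝ) ≤ A2 * Real.exp (t / 2 * n) := by
        rw [ncard_ball_TS]; exact hA2 n
      calc ((ball (un S (TS s)) n).ncard : ℝ)
          ≤ ((ball S n).ncard : ℝ) * ((ball (TS s) n).ncard : ℝ) := h2
        _ ≤ ((C0 * A1 + 1) * Real.exp (t / 2 * n)) * (A2 * Real.exp (t / 2 * n)) :=
            mul_le_mul h3 h4 (Nat.cast_nonneg _) (by positivity)
        _ = (C0 * A1 + 1) * A2 * Real.exp (t * n) := by
            rw [show t * (n : ℝ) = t / 2 * n + t / 2 * n by ring, Real.exp_add]; ring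
    · refine ratio_zero (fun n => (ball (un S (TS s)) (n + 1) \ ball (un S (TS s)) n).ncard)
        (fun n => (ball (un S (TS s)) n).ncard) (fun n => ball_pos hUf n) ?_
      intro k
      refine prod_ratio hS hTf hSc hTc (fun k => ratio_TS s hs k) k ?_
      intro M
      set C : ℕ := 2 * C0 + k * (ball (TS s) M).ncard * C0 + 2 with hC
      obtain ⟨L, hL1, hL⟩ := hdom' C (by omega)
      refine ⟨L, ?_⟩
      have h1 := hC0 (L + 1) (by omega)
      have h2 : C0 * (L + 1) ≤ C * L := by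
        calc C0 * (L + 1) ≤ C0 * (2 * L) := Nat.mul_le_mul_left _ (by omega)
          _ = 2 * C0 * L := by ring
          _ ≤ C * L := Nat.mul_le_mul_right _ (by omega)
      have h3 : f (C0 * (L + 1)) ≤ maj f (C * L) := (le_maj f _).trans (maj_mono f h2)
      calc k * (ball (TS s) M).ncard * (ball S (L + 1)).ncard
          ≤ k * (ball (TS s) M).ncard * (C0 * maj f (C * L)) :=
            Nat.mul_le_mul_left _ (h1.trans (Nat.mul_le_mul_left _ h3))
        _ = (k * (ball (TS s) M).ncard * C0) * maj f (C * L) := by ring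
        _ ≤ C * maj f (C * L) := Nat.mul_le_mul_right _ (by omega)
        _ ≤ _ := hL

end Pool.Agent.Helper259_SB
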