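import Pool.Agent.Helper259_SB.Ball
import Pool.Agent.Helper259_SB.DefP

set_option autoImplicit false

/-!
A multi-scale covering estimate for the sphere of radius n + 1: for each scale r the shell at
distance between r and 3 r inside the sphere contains at least |S(n+1)| b(r) / b(3 r + 1)
elements.  It gives the ratio limit for groups of very small growth.
-/

open scoped Pointwise
open Filter Topology

namespace Pool.Agent.Helper259_SB

variable {G : Type*} [Group G]

theorem len_mul_le {S : Set G} (hS : Subgroup.closure S = ⊤) (u v : G) :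
    len S (u * v) ≤ len S u + len S v := by
  rw [← mem_ball_iff_len hS]
  exact mul_mem_ball ((mem_ball_iff_len hS _ _).mpr (le_refl _))
    ((mem_ball_iff_len hS _ _).mpr (le_refl _))

theorem len_inv {S : Set G} (hS : Subgroup.closure S = ⊤) (u : G) : len S u⁻¹ ≤ len S u := by
  rw [← mem_ball_iff_len hS]
  exact inv_mem_ball ((mem_ball_iff_len hS _ _).mpr (le_refl _))

/-- elements of length between lo and hi -/
def shell (S : Set G) (lo hi : ℕ) : Set G := {g | lo ≤ len S g ∧ len S g ≤ hi}

theorem shell_finite {S : Set G} (hf : S.Finite) (hS : Subgroup.closure S = ⊤) (lo hi : ℕ) :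
    (shell S lo hi).Finite :=
  (ball_finite hf hi).subset fun g hg => (mem_ball_iff_len hS g hi).mpr hg.2

/-- one scale -/
theorem shell_one {S : Set G} (hf : S.Finite) (hS : Subgroup.closure S = ⊤) (n r : ℕ)
    (hn : 3 * r + 1 ≤ n + 1) :
    (ball S (n + 1) \ ball S n).ncard * (ball S r).ncard ≤
      (shell S (n + 1 - (3 * r + 1)) (n - r)).ncard * (ball S (3 * r + 1)).ncard := by
  classical
  have hsf : (ball S (n + 1) \ ball S n).Finite := (ball_finite hf (n + 1)).sdiff
  have htf := shell_finite hf hS (n + 1 - (3 * r + 1)) (n - r)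
  have hmem : ∀ x : G, x ∈ hsf.toFinset ↔ len S x = n + 1 := by
    intro x
    rw [Set.Finite.mem_toFinset, Set.mem_sdiff, mem_ball_iff_len hS, mem_ball_iff_len hS]
    omega
  -- the point at distance 2 r + 1 on a geodesic
  have hy : ∀ x : G, ∃ y : G, len S x = n + 1 →
      len S y = n + 1 - (2 * r + 1) ∧ len S (y⁻¹ * x) ≤ 2 * r + 1 := by
    intro x
    by_cases hx : len S x = n + 1
    · have h1 : x ∈ ball S (n + 1 - (2 * r + 1) + (2 * r + 1)) := by
        rw [mem_ball_iff_len hS]; omega
      obtain ⟨u, hu, v, hv, rfl⟩ := ball_split h1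
      rw [mem_ball_iff_len hS] at hu hv
      have h2 := len_mul_le hS u v
      refine ⟨u, fun _ => ⟨by omega, ?_⟩⟩
      rw [inv_mul_cancel_left]; exact hv
    · exact ⟨1, fun h => absurd h hx⟩
  choose y hy using hy
  rw [Set.ncard_eq_toFinset_card _ hsf, Set.ncard_eq_toFinset_card _ htf]
  refine Finset.card_mul_le_card_mul (fun x h => (y x)⁻¹ * h ∈ ball S r) ?_ ?_
  · intro x hx
    rw [hmem] at hx
    obtain ⟨h1, h2⟩ := hy x hx
    rw [Set.ncard_eq_toFinset_card _ (ball_finite hf r)]
    refine Finset.card_le_card_of_injOn (fun w => y x * w) ?_ (fun a _ b _ h => mul_left_cancel h)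
    intro w hw
    rw [Finset.mem_coe, Set.Finite.mem_toFinset] at hw
    have hw' := (mem_ball_iff_len hS w r).mp hw
    rw [Finset.mem_coe, Finset.mem_bipartiteAbove, Set.Finite.mem_toFinset]
    refine ⟨⟨?_, ?_⟩, by rw [inv_mul_cancel_left]; exact hw⟩
    · show n + 1 - (3 * r + 1) ≤ len S (y x * w)
      have h3 := len_mul_le hS (y x * w) w⁻¹
      have h4 := len_inv hS w
      rw [mul_inv_cancel_right] at h3
      omega
    · show len S (y x * w) ≤ n - r
      have h3 := len_mul_le hS (y x) w
      omega
  · intro h _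
    rw [Set.ncard_eq_toFinset_card _ (ball_finite hf (3 * r + 1))]
    refine Finset.card_le_card_of_injOn (fun x => h⁻¹ * x) ?_
      (fun a _ b _ h' => mul_left_cancel h')
    intro x hx
    rw [Finset.mem_coe, Finset.mem_bipartiteBelow, hmem] at hx
    obtain ⟨hx1, hx2⟩ := hx
    obtain ⟨_, h2⟩ := hy x hx1
    rw [Finset.mem_coe, Set.Finite.mem_toFinset]
    have h3 : h⁻¹ * x = ((y x)⁻¹ * h)⁻¹ * ((y x)⁻¹ * x) := by group
    show h⁻¹ * x ∈ ball S (3 * r + 1)
    rw [h3, show 3 * r + 1 = r + (2 * r + 1) by ring]
    exact mul_mem_ball (inv_mem_ball hx2) ((mem_ball_iff_len hS _ _).mpr h2)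

/-- the radii 1, 4, 13, ... -/
def rad : ℕ → ℕ
  | 0 => 1
  | k + 1 => 3 * rad k + 1

theorem rad_pos (k : ℕ) : 1 ≤ rad k := by
  cases k
  · exact le_refl _
  · show 1 ≤ 3 * rad _ + 1
    omega

theorem rad_le (k : ℕ) : rad k ≤ 3 ^ (k + 1) := by
  have key : 2 * rad k + 1 = 3 ^ (k + 1) := by
    induction k with
    | zero => rfl
    | succ k ih =>
      show 2 * (3 * rad k + 1) + 1 = _
      rw [pow_succ, ← ih]; ring
  omega

theorem rad_lt (k : ℕ) : rad k < rad (k + 1) := by
  show rad k < 3 * rad k + 1
  omega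

theorem rad_mono : StrictMono rad := strictMono_nat_of_lt_succ rad_lt

/-- all scales together -/
theorem shells {S : Set G} (hf : S.Finite) (hS : Subgroup.closure S = ⊤) (n K : ℕ)
    (hn : rad K ≤ n + 1) :
    ((ball S (n + 1) \ ball S n).ncard : ℝ) *
      ∑ k ∈ Finset.range K, ((ball S (rad k)).ncard : ℝ) / (ball S (rad (k + 1))).ncard ≤
      (shell S (n + 1 - rad K) (n - 1)).ncard := by
  induction K with
  | zero => simp
  | succ K ih =>
    have hK : rad K ≤ n + 1 := (rad_lt K).le.trans hn
    have hK1 : 3 * rad K + 1 ≤ n + 1 := hn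
    have h1 := ih hK
    have h2 := shell_one hf hS n (rad K) hK1
    have hpos : (0 : ℝ) < (ball S (rad (K + 1))).ncard := by exact_mod_cast ball_pos hf _
    have h3 : ((ball S (n + 1) \ ball S n).ncard : ℝ) *
        (((ball S (rad K)).ncard : ℝ) / (ball S (rad (K + 1))).ncard) ≤
        (shell S (n + 1 - rad (K + 1)) (n - rad K)).ncard := by
      rw [← mul_div_assoc, div_le_iff₀ hpos]
      exact_mod_cast h2
    rw [Finset.sum_range_succ, mul_add]
    have hr := rad_pos K
    have hlt := rad_lt K
    have hdisj : Disjoint (shell S (n + 1 - rad (K + 1)) (n - rad K))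
        (shell S (n + 1 - rad K) (n - 1)) := by
      rw [Set.disjoint_left]
      rintro g ⟨_, h5⟩ ⟨h6, _⟩
      omega
    have h7 : (shell S (n + 1 - rad (K + 1)) (n - rad K)).ncard +
        (shell S (n + 1 - rad K) (n - 1)).ncard ≤
        (shell S (n + 1 - rad (K + 1)) (n - 1)).ncard := by
      rw [← Set.ncard_union_eq hdisj (shell_finite hf hS _ _) (shell_finite hf hS _ _)]
      refine Set.ncard_le_ncard ?_ (shell_finite hf hS _ _)
      rintro g (⟨h8, h9⟩ | ⟨h8, h9⟩)
      · exact ⟨h8, by omega⟩
      · exact ⟨by omega, h9⟩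
    have h8 : ((shell S (n + 1 - rad (K + 1)) (n - rad K)).ncard : ℝ) +
        (shell S (n + 1 - rad K) (n - 1)).ncard ≤
        (shell S (n + 1 - rad (K + 1)) (n - 1)).ncard := by exact_mod_cast h7
    linarith

theorem shells_ball {S : Set G} (hf : S.Finite) (hS : Subgroup.closure S = ⊤) (n K : ℕ)
    (hn : rad K ≤ n + 1) :
    ((ball S (n + 1) \ ball S n).ncard : ℝ) *
      ∑ k ∈ Finset.range K, ((ball S (rad k)).ncard : ℝ) / (ball S (rad (k + 1))).ncard ≤
      (ball S n).ncard := by
  refine (shells hf hS n K hn).trans ?_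
  have : (shell S (n + 1 - rad K) (n - 1)).ncard ≤ (ball S n).ncard := by
    refine Set.ncard_le_ncard ?_ (ball_finite hf n)
    rintro g ⟨_, h⟩
    exact (mem_ball_iff_len hS g n).mpr (by omega)
  exact_mod_cast this

/-- a lower bound for the sum of the ratios -/
theorem sum_ratio (b : ℕ → ℝ) (hb : ∀ k, 0 < b k) (K : ℕ) (θ : ℝ) :
    Real.exp (-θ) * (K * (1 + θ) - (Real.log (b K) - Real.log (b 0))) ≤
      ∑ k ∈ Finset.range K, b k / b (k + 1) := by
  have key : ∀ k, Real.exp (-θ) * (1 + θ - (Real.log (b (k + 1)) - Real.log (b k))) ≤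
      b k / b (k + 1) := by
    intro k
    have h0 : 0 < b k / b (k + 1) := div_pos (hb k) (hb (k + 1))
    have h1 : 0 < b k / b (k + 1) * Real.exp θ := mul_pos h0 (Real.exp_pos _)
    have h2 := Real.log_le_sub_one_of_pos h1
    rw [Real.log_mul h0.ne' (Real.exp_pos _).ne', Real.log_exp,
      Real.log_div (hb k).ne' (hb (k + 1)).ne'] at h2
    have h3 : 1 + θ - (Real.log (b (k + 1)) - Real.log (b k)) ≤ b k / b (k + 1) * Real.exp θ := by
      linarith
    calc Real.exp (-θ) * (1 + θ - (Real.log (b (k + 1)) - Real.log (b k)))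
        ≤ Real.exp (-θ) * (b k / b (k + 1) * Real.exp θ) :=
          mul_le_mul_of_nonneg_left h3 (Real.exp_pos _).le
      _ = b k / b (k + 1) * (Real.exp (-θ) * Real.exp θ) := by ring
      _ = b k / b (k + 1) := by rw [← Real.exp_add]; simp
  induction K with
  | zero => simp
  | succ K ih =>
    rw [Finset.sum_range_succ]
    have := key K
    push_cast
    nlinarith [Real.exp_pos (-θ)]

/-- the ratio limit from a growth bound at infinitely many radii -/
theorem small_growth {S : Set G} (hf : S.Finite) (hS : Subgroup.closure S = ⊤) (c : ℝ)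
    (hc : c * Real.log 3 < 1)
    (h : ∃ᶠ n : ℕ in atTop, ((ball S n).ncard : ℝ) ≤ (n : ℝ) ^ (c * Real.log (Real.log n))) :
    RatioZero S := by
  have hl3 : 1 < Real.log 3 := by
    rw [Real.lt_log_iff_exp_lt (by norm_num)]
    have := Real.exp_one_lt_d9
    linarith
  -- enough: for every A there is K with sum at least A
  have hmain : ∀ A : ℝ, ∃ K : ℕ, A ≤ ∑ k ∈ Finset.range K,
      ((ball S (rad k)).ncard : ℝ) / (ball S (rad (k + 1))).ncard := by
    intro A
    set c' : ℝ := max (c * Real.log 3) 0 with hc'
    have hc'1 : c' < 1 := max_lt hc one_pos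
    have hc'0 : 0 ≤ c' := le_max_right _ _
    -- K exp(-c' (1 + 2/K) log((K+2) log 3)) tends to infinity
    have hlim : ∀ᶠ K : ℕ in atTop, 1 ≤ K ∧ A ≤
        K * Real.exp (-(c' * ((K + 2) / K) * Real.log ((K + 2) * Real.log 3))) := by
      have h1 : Tendsto (fun K : ℕ => (1 - c') * Real.log K) atTop atTop :=
        (Real.tendsto_log_atTop.comp tendsto_natCast_atTop_atTop).const_mul_atTop (by linarith)
      have h2 := h1.eventually_ge_atTop (|A| + 10)
      filter_upwards [h2, eventually_ge_atTop 2] with K hK hK2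
      have hK0 : (2 : ℝ) ≤ K := by exact_mod_cast hK2
      refine ⟨by omega, ?_⟩
      have hlogK : 0 ≤ Real.log K := Real.log_nonneg (by linarith)
      -- log((K+2) log 3) ≤ log K + 2
      have h3 : Real.log ((K + 2) * Real.log 3) ≤ Real.log K + 2 := by
        have h4 : ((K : ℝ) + 2) * Real.log 3 ≤ K * Real.exp 2 := by
          have h5 : Real.log 3 ≤ 2 := by
            rw [Real.log_le_iff_le_exp (by norm_num)]
            have := Real.add_one_le_exp (2 : ℝ)
            linarith
          have h6 : (4 : ℝ) ≤ Real.exp 2 := by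
            have := Real.quadratic_le_exp_of_nonneg (show (0 : ℝ) ≤ 2 by norm_num)
            linarith
          calc ((K : ℝ) + 2) * Real.log 3 ≤ (K + K) * 2 :=
                mul_le_mul (by linarith) h5 (by linarith) (by linarith)
            _ = K * 4 := by ring
            _ ≤ K * Real.exp 2 := mul_le_mul_of_nonneg_left h6 (by linarith)
        calc Real.log ((K + 2) * Real.log 3) ≤ Real.log (K * Real.exp 2) :=
              Real.log_le_log (by positivity) h4
          _ = Real.log K + 2 := by
              rw [Real.log_mul (by linarith) (Real.exp_pos _).ne', Real.log_exp]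
      have h7 : 0 ≤ Real.log ((K + 2) * Real.log 3) := by
        apply Real.log_nonneg
        nlinarith
      -- (K+2)/K * log((K+2) log 3) ≤ log K + 8
      have h8 : ((K : ℝ) + 2) / K * Real.log ((K + 2) * Real.log 3) ≤ Real.log K + 8 := by
        have h9 : ((K : ℝ) + 2) / K = 1 + 2 / K := by field_simp
        have h10 : Real.log K ≤ K := by
          have := Real.log_le_sub_one_of_pos (show (0 : ℝ) < K by linarith)
          linarith
        have h11 : (2 : ℝ) / K * (Real.log K + 2) ≤ 6 := by
          rw [div_mul_eq_mul_div, div_le_iff₀ (by linarith)]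
          linarith
        have h12 : (2 : ℝ) / K * Real.log ((K + 2) * Real.log 3) ≤ 2 / K * (Real.log K + 2) :=
          mul_le_mul_of_nonneg_left h3 (by positivity)
        rw [h9, add_mul, one_mul]
        linarith
      have h13 : c' * ((K + 2) / K) * Real.log ((K + 2) * Real.log 3) ≤ c' * Real.log K + 8 := by
        rw [mul_assoc]
        calc c' * (((K : ℝ) + 2) / K * Real.log ((K + 2) * Real.log 3))
            ≤ c' * (Real.log K + 8) := mul_le_mul_of_nonneg_left h8 hc'0
          _ ≤ c' * Real.log K + 8 := by nlinarith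
      have h14 : (K : ℝ) = Real.exp (Real.log K) := (Real.exp_log (by linarith)).symm
      have h15 : |A| + 2 ≤ Real.log K - c' * ((K + 2) / K) * Real.log ((K + 2) * Real.log 3) := by
        linarith
      calc A ≤ |A| + 2 := by have := le_abs_self A; linarith
        _ ≤ Real.exp (|A| + 2) := by have := Real.add_one_le_exp (|A| + 2); linarith
        _ ≤ Real.exp (Real.log K - c' * ((K + 2) / K) * Real.log ((K + 2) * Real.log 3)) :=
            Real.exp_le_exp.mpr h15
        _ = _ := by rw [Real.exp_sub, Real.exp_neg, Real.exp_log (by linarith)]; rfl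
    obtain ⟨K₀, hK₀⟩ := eventually_atTop.mp hlim
    obtain ⟨n, hn1, hn2⟩ := (frequently_atTop.mp h) (max (rad K₀) 3)
    have hn3 : 3 ≤ n := (le_max_right _ _).trans hn1
    have hn4 : rad K₀ ≤ n := (le_max_left _ _).trans hn1
    -- the scale of n
    have hex : ∃ K, K₀ ≤ K ∧ rad K ≤ n ∧ n < rad (K + 1) := by
      have hfin : ∃ m, n < rad m := ⟨n + 1, lt_of_lt_of_le (Nat.lt_succ_self n) rad_mono.le_apply⟩
      classical
      have h1 := Nat.find_spec hfin
      have h2 : K₀ < Nat.find hfin := by
        by_contra hcon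
        push Not at hcon
        have := rad_mono.monotone hcon
        omega
      refine ⟨Nat.find hfin - 1, by omega, ?_, ?_⟩
      · have := Nat.find_min hfin (show Nat.find hfin - 1 < Nat.find hfin by omega)
        omega
      · rwa [show Nat.find hfin - 1 + 1 = Nat.find hfin by omega]
    obtain ⟨K, hKK, hKn, hnK⟩ := hex
    obtain ⟨hK1, hKA⟩ := hK₀ K hKK
    refine ⟨K, ?_⟩
    have hK0 : (1 : ℝ) ≤ K := by exact_mod_cast hK1
    have hnr : (3 : ℝ) ≤ n := by exact_mod_cast hn3
    have hlogn : 1 < Real.log n := hl3.trans_le (Real.log_le_log (by norm_num) hnr)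
    have hlogn2 : Real.log n ≤ (K + 2) * Real.log 3 := by
      have h1 : (n : ℝ) ≤ 3 ^ (K + 2) := by
        exact_mod_cast (hnK.le.trans (rad_le (K + 1)))
      calc Real.log n ≤ Real.log (3 ^ (K + 2)) := Real.log_le_log (by linarith) h1
        _ = _ := by rw [Real.log_pow]; push_cast; ring
    have hll : 0 < Real.log (Real.log n) := Real.log_pos hlogn
    have hll2 : Real.log (Real.log n) ≤ Real.log ((K + 2) * Real.log 3) :=
      Real.log_le_log (by linarith) hlogn2
    have hbK : Real.log ((ball S (rad K)).ncard : ℝ) ≤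
        c' * (K + 2) * Real.log ((K + 2) * Real.log 3) := by
      have h1 : ((ball S (rad K)).ncard : ℝ) ≤ (ball S n).ncard := by
        exact_mod_cast ncard_ball_mono hf hKn
      have h2 : (0 : ℝ) < (ball S (rad K)).ncard := by exact_mod_cast ball_pos hf _
      have h3 : Real.log ((ball S (rad K)).ncard : ℝ) ≤
          Real.log ((n : ℝ) ^ (c * Real.log (Real.log n))) :=
        Real.log_le_log h2 (h1.trans hn2)
      rw [Real.log_rpow (by linarith)] at h3
      have h4 : c * Real.log (Real.log n) * Real.log n ≤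
          c' * (K + 2) * Real.log ((K + 2) * Real.log 3) := by
        have h5 : c * Real.log 3 ≤ c' := le_max_left _ _
        rcases le_or_gt c 0 with hneg | hpos
        · have h6 : c * Real.log (Real.log n) * Real.log n ≤ 0 := by
            have : 0 ≤ Real.log (Real.log n) * Real.log n := by positivity
            nlinarith
          have h7 : 0 ≤ c' * (K + 2) * Real.log ((K + 2) * Real.log 3) := by
            have := hll.le.trans hll2
            positivity
          linarith
        · calc c * Real.log (Real.log n) * Real.log n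
              ≤ c * Real.log ((K + 2) * Real.log 3) * ((K + 2) * Real.log 3) := by
                refine mul_le_mul (mul_le_mul_of_nonneg_left hll2 hpos.le) hlogn2 (by linarith) ?_
                have := hll.le.trans hll2
                positivity
            _ = (c * Real.log 3) * ((K + 2) * Real.log ((K + 2) * Real.log 3)) := by ring
            _ ≤ c' * ((K + 2) * Real.log ((K + 2) * Real.log 3)) := by
                refine mul_le_mul_of_nonneg_right h5 ?_
                have := hll.le.trans hll2
                positivity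
            _ = _ := by ring
      linarith
    have hsum := sum_ratio (fun k => ((ball S (rad k)).ncard : ℝ))
      (fun k => by exact_mod_cast ball_pos hf _) K
      (c' * ((K + 2) / K) * Real.log ((K + 2) * Real.log 3))
    refine hKA.trans (le_trans ?_ hsum)
    rw [mul_comm (K : ℝ)]
    refine mul_le_mul_of_nonneg_left ?_ (Real.exp_pos _).le
    have h0 : 0 ≤ Real.log ((ball S (rad 0)).ncard : ℝ) :=
      Real.log_nonneg (by exact_mod_cast ball_pos hf _)
    have h1 : (K : ℝ) * (1 + c' * ((K + 2) / K) * Real.log ((K + 2) * Real.log 3)) =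
        K + c' * (K + 2) * Real.log ((K + 2) * Real.log 3) := by
      field_simp
    rw [h1]
    linarith
  -- conclusion
  unfold RatioZero
  rw [Metric.tendsto_atTop]
  intro ε hε
  obtain ⟨K, hK⟩ := hmain (2 / ε)
  refine ⟨rad K, fun n hn => ?_⟩
  have hb0 : (0 : ℝ) < (ball S n).ncard := by exact_mod_cast ball_pos hf n
  have h1 := shells_ball hf hS n K (by omega)
  have h2 : (0 : ℝ) ≤ ((ball S (n + 1) \ ball S n).ncard : ℝ) := Nat.cast_nonneg _
  rw [Real.dist_eq, sub_zero, abs_of_nonneg (by positivity), div_lt_iff₀ hb0]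
  have h3 : ((ball S (n + 1) \ ball S n).ncard : ℝ) * (2 / ε) ≤ (ball S n).ncard :=
    (mul_le_mul_of_nonneg_left hK h2).trans h1
  rw [mul_div_assoc', div_le_iff₀ hε] at h3
  nlinarith

end Pool.Agent.Helper259_SB
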