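import Pool.Agent.Results.MP_e563b5_al.IntermediateRatio

set_option autoImplicit false

/-!
Spinal-type permutations of the natural numbers driven by a switch sequence: at a level where the
switch is on the letters are rotated (b -> c -> d -> b), otherwise they are kept.  This file
contains the decomposition of weighted words and the bounds on reachable pairs.
-/

open scoped Pointwise
open Filter Topology
open Pool.Agent.Results.MP_e563b5_al.IntermediateRatio

namespace Pool.Agent.Helper259_SB

/-- right section at a level with switch `t` -/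
def thS (t : Bool) (x : K4) : K4 := if t then K4.th x else x

theorem thS_mul (t : Bool) (x y : K4) : thS t (K4.mul x y) = K4.mul (thS t x) (thS t y) := by
  cases t
  · rfl
  · simp [thS, K4.th_mul]

theorem thS_surj (t : Bool) (x : K4) : ∃ y, thS t y = x := by
  cases t
  · exact ⟨x, rfl⟩
  · cases x
    · exact ⟨K4.e, rfl⟩
    · exact ⟨K4.d, rfl⟩
    · exact ⟨K4.b, rfl⟩
    · exact ⟨K4.c, rfl⟩

/-- contraction factor (times six) -/
def qS (t : Bool) : ℕ := if t then 5 else 6

theorem contrS (t : Bool) (x : K4) :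
    6 * (K4.wt (thS t x) + (if K4.al x then 3 else 0)) ≤ qS t * (3 + K4.wt x) := by
  cases t <;> cases x <;> decide

theorem qS_le (t : Bool) : qS t ≤ 6 := by cases t <;> decide

theorem five_le_qS (t : Bool) : 5 ≤ qS t := by cases t <;> decide

/-- shifted sequence -/
def sh (s : ℕ → Bool) : ℕ → Bool := fun i => s (i + 1)

/-- action of the Klein group elements on ℕ -/
def klS (s : ℕ → Bool) (x : K4) (n : ℕ) : ℕ :=
  if h : n = 0 then 0
  else if n % 2 = 0 then 2 * klS (sh s) (thS (s 0) x) (n / 2)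
  else if K4.al x then 2 * aN (n / 2) + 1 else n
termination_by n
decreasing_by omega

theorem klS_zero (s : ℕ → Bool) (x : K4) : klS s x 0 = 0 := by
  rw [klS]; simp

theorem klS_even (s : ℕ → Bool) (x : K4) (m : ℕ) :
    klS s x (2 * m) = 2 * klS (sh s) (thS (s 0) x) m := by
  rcases Nat.eq_zero_or_pos m with rfl | hm
  · simp [klS_zero]
  · rw [klS]
    rw [dif_neg (by omega), if_pos (by omega)]
    congr 2
    omega

theorem klS_odd (s : ℕ → Bool) (x : K4) (m : ℕ) :
    klS s x (2 * m + 1) = 2 * (if K4.al x then aN m else m) + 1 := by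
  rw [klS]
  rw [dif_neg (by omega), if_neg (by omega)]
  have : (2 * m + 1) / 2 = m := by omega
  rw [this]
  split_ifs <;> rfl

theorem klS_mul (s : ℕ → Bool) (x y : K4) (n : ℕ) :
    klS s (K4.mul x y) n = klS s x (klS s y n) := by
  induction n using Nat.strong_induction_on generalizing s x y with
  | _ n ih =>
    rcases Nat.even_or_odd' n with ⟨m, rfl | rfl⟩
    · rcases Nat.eq_zero_or_pos m with rfl | hm
      · simp [klS_zero]
      · rw [klS_even, klS_even, klS_even, thS_mul, ih m (by omega)]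
    · rw [klS_odd, klS_odd, klS_odd, K4.al_mul]
      cases K4.al x <;> cases K4.al y <;> simp [aN_aN]

theorem klS_e (s : ℕ → Bool) (n : ℕ) : klS s K4.e n = n := by
  induction n using Nat.strong_induction_on generalizing s with
  | _ n ih =>
    rcases Nat.even_or_odd' n with ⟨m, rfl | rfl⟩
    · rcases Nat.eq_zero_or_pos m with rfl | hm
      · simp [klS_zero]
      · rw [klS_even]
        have : thS (s 0) K4.e = K4.e := by cases s 0 <;> rfl
        rw [this, ih m (by omega)]
    · rw [klS_odd]; simp [K4.al]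

/-- x as a permutation -/
def kS (s : ℕ → Bool) (x : K4) : Equiv.Perm ℕ :=
  ⟨klS s x, klS s x, fun n => by rw [← klS_mul, K4.mul_self, klS_e],
    fun n => by rw [← klS_mul, K4.mul_self, klS_e]⟩

@[simp] theorem kS_apply (s : ℕ → Bool) (x : K4) (n : ℕ) : kS s x n = klS s x n := rfl

theorem kS_mul (s : ℕ → Bool) (x y : K4) : kS s x * kS s y = kS s (K4.mul x y) := by
  ext n; simp [klS_mul]

theorem kS_e (s : ℕ → Bool) : kS s K4.e = 1 := by
  ext n; simp [klS_e]

theorem asm_false_mul_kS (s : ℕ → Bool) (gE gO : Equiv.Perm ℕ) (x : K4) :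
    asm false gE gO * kS s x = asm false (gE * kS (sh s) (thS (s 0) x)) (gO * ap (K4.al x)) := by
  ext n
  rw [Equiv.Perm.mul_apply, kS_apply, asm_apply, asm_apply]
  rcases Nat.even_or_odd' n with ⟨m, rfl | rfl⟩
  · rw [klS_even, asmF_false_even, asmF_false_even]; simp
  · rw [klS_odd, asmF_false_odd, asmF_false_odd]; simp [ap_apply]

theorem asm_true_mul_kS (s : ℕ → Bool) (gE gO : Equiv.Perm ℕ) (x : K4) :
    asm true gE gO * kS s x = asm true (gE * ap (K4.al x)) (gO * kS (sh s) (thS (s 0) x)) := by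
  ext n
  rw [Equiv.Perm.mul_apply, kS_apply, asm_apply, asm_apply]
  rcases Nat.even_or_odd' n with ⟨m, rfl | rfl⟩
  · rw [klS_even, asmF_true_even, asmF_true_even]; simp
  · rw [klS_odd, asmF_true_odd, asmF_true_odd]; simp [ap_apply]

theorem kS_eq_asm (s : ℕ → Bool) (x : K4) :
    kS s x = asm false (kS (sh s) (thS (s 0) x)) (ap (K4.al x)) := by
  ext n
  rw [kS_apply, asm_apply]
  rcases Nat.even_or_odd' n with ⟨m, rfl | rfl⟩
  · rw [klS_even, asmF_false_even]; simp
  · rw [klS_odd, asmF_false_odd]; simp [ap_apply]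

/-- weighted words: `PS s r g O` means that g is the value of a word of weight r with set of
sites O -/
inductive PS (s : ℕ → Bool) : ℕ → Equiv.Perm ℕ → Finset ℕ → Prop
  | one : PS s 0 1 {0}
  | kstep (r : ℕ) (g : Equiv.Perm ℕ) (O : Finset ℕ) (x : K4) :
      PS s r g O → PS s (r + K4.wt x) (g * kS s x) O
  | astep (r : ℕ) (g : Equiv.Perm ℕ) (O : Finset ℕ) :
      PS s r g O → PS s (r + 3) (g * aP) (insert (g 1) O)

/-- alternating words -/
inductive AltS (s : ℕ → Bool) : ℕ → Equiv.Perm ℕ → Finset ℕ → Prop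
  | base (x : K4) : AltS s (K4.wt x) (kS s x) {0}
  | step (r : ℕ) (g : Equiv.Perm ℕ) (O : Finset ℕ) (x : K4) :
      AltS s r g O → AltS s (r + 3 + K4.wt x) (g * aP * kS s x) (insert (g 1) O)

variable {s : ℕ → Bool}

theorem PS.mem {r : ℕ} {g : Equiv.Perm ℕ} {O : Finset ℕ} (h : PS s r g O) : g 0 ∈ O := by
  induction h with
  | one => simp
  | kstep r g O x h ih => simpa [klS_zero] using ih
  | astep r g O h ih => simp [aN_zero]

theorem PS.alt {r : ℕ} {g : Equiv.Perm ℕ} {O : Finset ℕ} (h : PS s r g O) :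
    ∃ r' ≤ r, AltS s r' g O := by
  induction h with
  | one => exact ⟨0, le_refl _, by simpa [kS_e, K4.wt] using AltS.base (s := s) K4.e⟩
  | kstep r g O x h ih =>
    obtain ⟨r', hr', ha⟩ := ih
    cases ha with
    | base y =>
      refine ⟨K4.wt (K4.mul y x), ?_, ?_⟩
      · have := K4.wt_mul y x; omega
      · rw [kS_mul]; exact AltS.base _
    | step r₁ g₁ O₁ y h₁ =>
      refine ⟨r₁ + 3 + K4.wt (K4.mul y x), ?_, ?_⟩
      · have := K4.wt_mul y x; omega
      · rw [mul_assoc, kS_mul]; exact AltS.step _ _ _ _ h₁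
  | astep r g O h ih =>
    obtain ⟨r', hr', ha⟩ := ih
    refine ⟨r' + 3, by omega, ?_⟩
    have := AltS.step r' g O K4.e ha
    simpa [kS_e, K4.wt] using this

theorem AltS.toP {r : ℕ} {g : Equiv.Perm ℕ} {O : Finset ℕ} (h : AltS s r g O) : PS s r g O := by
  induction h with
  | base x => simpa using PS.kstep 0 1 {0} x PS.one
  | step r g O x h ih =>
    exact PS.kstep _ _ _ x (PS.astep _ _ _ ih)

theorem PS.pend {r : ℕ} {g : Equiv.Perm ℕ} {O : Finset ℕ} (h : PS s r g O) (t : Bool) (x : K4) :
    ∃ O', PS s (r + (if t then 3 else 0) + K4.wt x) (g * ap t * kS s x) O' ∧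
      O' = insert (g (ap t 0)) O := by
  cases t with
  | false =>
    refine ⟨O, ?_, ?_⟩
    · simpa [ap] using PS.kstep r g O x h
    · have := h.mem
      simp [ap, this]
  | true =>
    refine ⟨insert (g 1) O, ?_, ?_⟩
    · simpa [ap] using PS.kstep _ _ _ x (PS.astep r g O h)
    · simp [ap, aN_zero]

theorem AltS.decomp {r : ℕ} {g : Equiv.Perm ℕ} {O : Finset ℕ} (h : AltS s r g O) :
    (∃ x, g = kS s x ∧ O = {0} ∧ r = K4.wt x) ∨
    ∃ (p σ τ : Bool) (rE rO : ℕ) (hE hO : Equiv.Perm ℕ) (OE OO : Finset ℕ),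
      PS (sh s) rE hE OE ∧ PS (sh s) rO hO OO ∧
      6 * (rE + rO + (if τ then 3 else 0)) ≤ qS (s 0) * (r + 3) ∧
      O = dblE OE ∪ dblO σ OO ∧
      g = asm p (if p then hE * ap τ else hE) (if p then ap σ * hO else ap σ * hO * ap τ) := by
  have hq6 := qS_le (s 0)
  have hq5 := five_le_qS (s 0)
  induction h with
  | base x => exact Or.inl ⟨x, rfl, rfl, rfl⟩
  | step r g O x h ih =>
    right
    rcases ih with ⟨x0, rfl, rfl, rfl⟩ | ⟨p, σ, τ, rE, rO, hE, hO, OE, OO, hPE, hPO, hw, hO', hg⟩
    · refine ⟨true, K4.al x0, K4.al x, K4.wt (thS (s 0) x0), K4.wt (thS (s 0) x),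
        kS (sh s) (thS (s 0) x0), kS (sh s) (thS (s 0) x), {0}, {0}, (AltS.base _).toP,
        (AltS.base _).toP, ?_, ?_, ?_⟩
      · have h1 := contrS (s 0) x0
        have h2 := contrS (s 0) x
        have h3 : 6 * (K4.wt (thS (s 0) x0) + K4.wt (thS (s 0) x) +
            if K4.al x then 3 else 0) ≤ 6 * (K4.wt (thS (s 0) x0) + if K4.al x0 then 3 else 0) +
            6 * (K4.wt (thS (s 0) x) + if K4.al x then 3 else 0) := by
          split_ifs <;> omega
        refine h3.trans ((Nat.add_le_add h1 h2).trans (le_of_eq ?_))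
        ring
      · have : (kS s x0) 1 = 2 * (ap (K4.al x0) 0) + 1 := by
          have := klS_odd s x0 0
          simpa [ap_apply] using this
        rw [this]
        ext z
        simp [dblE, dblO, or_comm]
      · rw [kS_eq_asm s x0, asm_mul_a]
        show asm true _ _ * _ = _
        rw [asm_true_mul_kS]
        simp
    · cases p with
      | false =>
        obtain ⟨O'', hP'', hO''⟩ := hPO.pend τ (thS (s 0) x)
        refine ⟨true, σ, K4.al x, rE, _, hE, _, OE, O'', hPE, hP'', ?_, ?_, ?_⟩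
        · have h2 := contrS (s 0) x
          calc 6 * (rE + (rO + (if τ then 3 else 0) + K4.wt (thS (s 0) x)) +
                if K4.al x then 3 else 0)
              = 6 * (rE + rO + (if τ then 3 else 0)) +
                6 * (K4.wt (thS (s 0) x) + if K4.al x then 3 else 0) := by ring
            _ ≤ qS (s 0) * (r + 3) + qS (s 0) * (3 + K4.wt x) := Nat.add_le_add hw h2
            _ = _ := by ring
        · have : g 1 = 2 * ap σ (hO (ap τ 0)) + 1 := by
            have := asmF_false_odd (⇑hE) (⇑(ap σ * hO * ap τ)) 0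
            rw [hg, asm_apply]
            simpa using this
          rw [this, hO', hO'', dblO_insert]
          ext z; simp only [Finset.mem_insert, Finset.mem_union]; tauto
        · rw [hg, asm_mul_a]
          show asm true _ _ * _ = _
          rw [asm_true_mul_kS]
          simp [mul_assoc]
      | true =>
        obtain ⟨O'', hP'', hO''⟩ := hPE.pend τ (thS (s 0) x)
        refine ⟨false, σ, K4.al x, _, rO, _, hO, O'', OO, hP'', hPO, ?_, ?_, ?_⟩
        · have h2 := contrS (s 0) x
          calc 6 * ((rE + (if τ then 3 else 0) + K4.wt (thS (s 0) x)) + rO +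
                if K4.al x then 3 else 0)
              = 6 * (rE + rO + (if τ then 3 else 0)) +
                6 * (K4.wt (thS (s 0) x) + if K4.al x then 3 else 0) := by ring
            _ ≤ qS (s 0) * (r + 3) + qS (s 0) * (3 + K4.wt x) := Nat.add_le_add hw h2
            _ = _ := by ring
        · have : g 1 = 2 * (hE (ap τ 0)) := by
            have := asmF_true_odd (⇑(hE * ap τ)) (⇑(ap σ * hO)) 0
            rw [hg, asm_apply]
            simpa using this
          rw [this, hO', hO'', dblE_insert]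
          ext z; simp only [Finset.mem_insert, Finset.mem_union]; tauto
        · rw [hg, asm_mul_a]
          show asm false _ _ * _ = _
          rw [asm_false_mul_kS]
          simp [mul_assoc]

theorem few_finite_S (m : ℕ) : ∀ s : ℕ → Bool,
    {p : Finset ℕ × Equiv.Perm ℕ | p.1.card ≤ m ∧ ∃ r, PS s r p.2 p.1}.Finite := by
  induction m with
  | zero =>
    intro s
    convert Set.finite_empty
    ext ⟨O, g⟩
    simp only [Set.mem_ofPred_eq, Set.mem_empty_iff_false, iff_false, not_and, not_exists]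
    intro h r hP
    have := hP.mem
    rw [Nat.le_zero, Finset.card_eq_zero] at h
    rw [h] at this
    simp at this
  | succ m ih =>
    intro s
    set F := {p : Finset ℕ × Equiv.Perm ℕ | p.1.card ≤ m ∧ ∃ r, PS (sh s) r p.2 p.1} with hF
    have h1 : (Set.range (fun x : K4 => (({0} : Finset ℕ), kS s x))).Finite :=
      Set.finite_range _
    have h2 : (⋃ (p : Bool) (σ : Bool) (τ : Bool),
        (fun pq : (Finset ℕ × Equiv.Perm ℕ) × (Finset ℕ × Equiv.Perm ℕ) =>
          Phi p σ τ pq.1 pq.2) '' (F ×ˢ F)).Finite := by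
      refine Set.finite_iUnion fun p => Set.finite_iUnion fun σ => Set.finite_iUnion fun τ => ?_
      exact ((ih (sh s)).prod (ih (sh s))).image _
    refine (h1.union h2).subset ?_
    rintro ⟨O, g⟩ ⟨hc, r, hP⟩
    obtain ⟨r', _, hA⟩ := hP.alt
    rcases hA.decomp with ⟨x, hx, hO, _⟩ | ⟨p, σ, τ, rE, rO, hE, hO, OE, OO, hPE, hPO, hw, hO', hg⟩
    · left
      exact ⟨x, by simp only at hx hO; rw [hx, hO]⟩
    · right
      simp only [Set.mem_iUnion, Set.mem_image, Set.mem_prod, Prod.exists]
      have hcE : 0 < OE.card := Finset.card_pos.mpr ⟨_, hPE.mem⟩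
      have hcO : 0 < OO.card := Finset.card_pos.mpr ⟨_, hPO.mem⟩
      have hcc := card_dbl σ OE OO
      simp only at hO' hg hc
      rw [hO', hcc] at hc
      refine ⟨p, σ, τ, OE, hE, OO, hO, ⟨⟨by show OE.card ≤ m; omega, rE, hPE⟩,
        ⟨by show OO.card ≤ m; omega, rO, hPO⟩⟩, ?_⟩
      simp only [Phi]
      rw [hO', hg]

/-- the sequence is on infinitely often -/
def Inf (s : ℕ → Bool) : Prop := ∀ n, ∃ m, n ≤ m ∧ s m = true

theorem Inf.sh {s : ℕ → Bool} (h : Inf s) : Inf (sh s) := by
  intro n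
  obtain ⟨m, hm, hs⟩ := h (n + 1)
  refine ⟨m - 1, by omega, ?_⟩
  show s (m - 1 + 1) = true
  rwa [show m - 1 + 1 = m by omega]

/-- a scheme of induction: a property `Q t` of sequences that improves at each switch -/
theorem switch_induction (Q : ℝ → (ℕ → Bool) → Prop) (ρ T : ℝ)
    (hbase : ∀ s, Q T s)
    (hoff : ∀ t s, 0 < t → s 0 = false → Q t (sh s) → Q t s)
    (hon : ∀ t s, 0 < t → s 0 = true → Q t (sh s) → Q (ρ * t) s) (hρ : 0 < ρ) (hT : 0 < T)
    (J : ℕ) : ∀ s, Inf s → Q (ρ ^ J * T) s := by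
  induction J with
  | zero => intro s _; simpa using hbase s
  | succ J ih =>
    have key : ∀ k s, Inf s → s k = true → Q (ρ ^ (J + 1) * T) s := by
      intro k
      induction k with
      | zero =>
        intro s hs h0
        have := hon (ρ ^ J * T) s (by positivity) h0 (ih _ hs.sh)
        have h2 : ρ * (ρ ^ J * T) = ρ ^ (J + 1) * T := by ring
        rwa [h2] at this
      | succ k ihk =>
        intro s hs hk
        cases h0 : s 0 with
        | false => exact hoff _ s (by positivity) h0 (ihk (sh s) hs.sh hk)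
        | true =>
          have := hon (ρ ^ J * T) s (by positivity) h0 (ih _ hs.sh)
          have h2 : ρ * (ρ ^ J * T) = ρ ^ (J + 1) * T := by ring
          rwa [h2] at this
    intro s hs
    obtain ⟨k, _, hk⟩ := hs 0
    exact key k s hs hk

theorem sites_step_S (s : ℕ → Bool) (A : ℝ) (hA : 0 ≤ A)
    (h : ∃ B : ℝ, ∀ r g O, PS (sh s) r g O → (O.card : ℝ) ≤ A * r + B) :
    ∃ B : ℝ, ∀ r g O, PS s r g O → (O.card : ℝ) ≤ ((qS (s 0) : ℝ) / 6 * A) * r + B := by
  obtain ⟨B, hB⟩ := h
  refine ⟨max 1 (3 * A + 2 * B), fun r g O hP => ?_⟩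
  obtain ⟨r', hr', hAl⟩ := hP.alt
  have hr'' : (r' : ℝ) ≤ r := by exact_mod_cast hr'
  have hq6 : (qS (s 0) : ℝ) ≤ 6 := by exact_mod_cast qS_le (s 0)
  have hq0 : (0 : ℝ) ≤ qS (s 0) := Nat.cast_nonneg _
  rcases hAl.decomp with ⟨x, hx, hO, _⟩ | ⟨p, σ, τ, rE, rO, hE, hO, OE, OO, hPE, hPO, hw, hO', hg⟩
  · rw [hO]
    simp only [Finset.card_singleton, Nat.cast_one]
    have := le_max_left (1 : ℝ) (3 * A + 2 * B)
    have h0 : 0 ≤ (qS (s 0) : ℝ) / 6 * A * r := by positivity
    linarith
  · rw [hO', card_dbl]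
    have h1 := hB _ _ _ hPE
    have h2 := hB _ _ _ hPO
    have h3 : 6 * ((rE : ℝ) + rO) ≤ qS (s 0) * (r' + 3) := by
      have : 6 * (rE + rO) ≤ qS (s 0) * (r' + 3) := by split_ifs at hw <;> omega
      exact_mod_cast this
    have h4 : A * ((rE : ℝ) + rO) ≤ A * ((qS (s 0) : ℝ) / 6 * (r + 3)) := by
      apply mul_le_mul_of_nonneg_left _ hA
      have : (qS (s 0) : ℝ) * (r' + 3) ≤ qS (s 0) * (r + 3) :=
        mul_le_mul_of_nonneg_left (by linarith) hq0
      linarith
    have h5 : A * ((qS (s 0) : ℝ) / 6 * (r + 3)) ≤ (qS (s 0) : ℝ) / 6 * A * r + 3 * A := by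
      have : (qS (s 0) : ℝ) / 6 * (3 * A) ≤ 1 * (3 * A) :=
        mul_le_mul_of_nonneg_right (by linarith) (by positivity)
      nlinarith
    have := le_max_right (1 : ℝ) (3 * A + 2 * B)
    push_cast
    nlinarith

theorem sites_sublinear_S (s : ℕ → Bool) (hs : Inf s) (ε : ℝ) (hε : 0 < ε) :
    ∃ B : ℝ, ∀ r g O, PS s r g O → (O.card : ℝ) ≤ ε * r + B := by
  have key := switch_induction
    (fun A s => ∃ B : ℝ, ∀ r g O, PS s r g O → (O.card : ℝ) ≤ A * r + B) (5 / 6) 1
    (by
      intro s
      refine ⟨1, fun r g O hP => ?_⟩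
      have : O.card ≤ r + 1 := by
        induction hP with
        | one => simp
        | kstep r g O x h ih => omega
        | astep r g O h ih =>
          have := Finset.card_insert_le (g 1) O
          omega
      simp only [one_mul]
      exact_mod_cast this)
    (by
      intro t s ht h0 h
      have := sites_step_S s t ht.le h
      rw [h0] at this
      simpa [qS] using this)
    (by
      intro t s ht h0 h
      have := sites_step_S s t ht.le h
      rw [h0] at this
      simpa [qS] using this)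
    (by norm_num) (by norm_num)
  obtain ⟨i, hi⟩ := exists_pow_lt_of_lt_one hε (show (5 / 6 : ℝ) < 1 by norm_num)
  obtain ⟨B, hB⟩ := key i s hs
  refine ⟨B, fun r g O hP => (hB r g O hP).trans ?_⟩
  have : (5 / 6 : ℝ) ^ i * 1 * r ≤ ε * r :=
    mul_le_mul_of_nonneg_right (by linarith) (Nat.cast_nonneg r)
  linarith

end Pool.Agent.Helper259_SB
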