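import Pool.Agent.Helper259_SB.Ball

set_option autoImplicit false

/-!
Direct products with free abelian groups of large rank.
-/

open scoped Pointwise
open Filter Topology

namespace Pool.Agent.Helper259_SB

section

variable {G : Type*} [Group G] {H : Type*} [Group H]

/-- the product estimate for one value of k -/
theorem prod_ratio_one {S : Set G} {T : Set H} (hS : S.Finite) (hT : T.Finite)
    (hSc : Subgroup.closure S = ⊤) (hTc : Subgroup.closure T = ⊤) (k M L : ℕ)
    (hM : ∀ m, M ≤ m → k * (ball T (m + 1) \ ball T m).ncard ≤ (ball T m).ncard)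
    (hL : k * (ball T M).ncard * (ball S (L + 1)).ncard ≤ (ball T L).ncard) (n : ℕ) (hn : L ≤ n) :
    k * (ball (un S T) (n + 1) \ ball (un S T) n).ncard ≤ 2 * (ball (un S T) n).ncard := by
  classical
  set A1 : Set (G × H) := {p : G × H | len S p.1 + len T p.2 = n + 1 ∧ len S p.1 + M ≤ n} with hA1
  have hUf := ball_finite (un_finite hS hT) (n + 1)
  have hsub : ball (un S T) (n + 1) \ ball (un S T) n ⊆ A1 ∪ ball S (n + 1) ×ˢ ball T M := by
    intro p hp
    rw [Set.mem_sdiff, mem_ball_un_len hSc hTc, mem_ball_un_len hSc hTc] at hp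
    rw [Set.mem_union]
    by_cases h : len S p.1 + M ≤ n
    · left; exact ⟨by omega, h⟩
    · right
      refine ⟨?_, ?_⟩
      · rw [mem_ball_iff_len hSc]; omega
      · rw [mem_ball_iff_len hTc]; omega
  have hA1f : A1.Finite := by
    refine hUf.subset fun p hp => ?_
    rw [mem_ball_un_len hSc hTc]
    exact hp.1.le
  have hA2f : (ball S (n + 1) ×ˢ ball T M).Finite :=
    (ball_finite hS (n + 1)).prod (ball_finite hT M)
  have h1 : (ball (un S T) (n + 1) \ ball (un S T) n).ncard ≤
      A1.ncard + (ball S (n + 1)).ncard * (ball T M).ncard := by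
    refine (Set.ncard_le_ncard hsub (hA1f.union hA2f)).trans
      ((Set.ncard_union_le _ _).trans ?_)
    rw [Set.ncard_prod]
  have h2 := long_part hS hT hSc hTc k M n hM
  have h3 : k * ((ball S (n + 1)).ncard * (ball T M).ncard) ≤ (ball (un S T) n).ncard := by
    have h4 : (ball S (n + 1)).ncard ≤ (ball S (n - L)).ncard * (ball S (L + 1)).ncard := by
      have := ncard_ball_add hS (n - L) (L + 1)
      rwa [show n - L + (L + 1) = n + 1 by omega] at this
    have h5 : (ball S (n - L)).ncard * (ball T L).ncard ≤ (ball (un S T) n).ncard := by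
      rw [← Set.ncard_prod]
      refine Set.ncard_le_ncard ?_ (ball_finite (un_finite hS hT) n)
      have := prod_subset_ball_un S T (n - L) L
      rwa [show n - L + L = n by omega] at this
    calc k * ((ball S (n + 1)).ncard * (ball T M).ncard)
        ≤ k * (((ball S (n - L)).ncard * (ball S (L + 1)).ncard) * (ball T M).ncard) :=
          Nat.mul_le_mul_left _ (Nat.mul_le_mul_right _ h4)
      _ = (ball S (n - L)).ncard * (k * (ball T M).ncard * (ball S (L + 1)).ncard) := by ring
      _ ≤ (ball S (n - L)).ncard * (ball T L).ncard := Nat.mul_le_mul_left _ hL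
      _ ≤ _ := h5
  calc k * (ball (un S T) (n + 1) \ ball (un S T) n).ncard
      ≤ k * (A1.ncard + (ball S (n + 1)).ncard * (ball T M).ncard) := Nat.mul_le_mul_left _ h1
    _ = k * A1.ncard + k * ((ball S (n + 1)).ncard * (ball T M).ncard) := by ring
    _ ≤ (ball (un S T) n).ncard + (ball (un S T) n).ncard := Nat.add_le_add h2 h3
    _ = _ := by ring

end

/-- the free abelian group of rank d, written multiplicatively -/
abbrev Zd (d : ℕ) : Type := Multiplicative (Fin d → ℤ)

/-- the standard basis -/
def stdB (d : ℕ) : Set (Zd d) := Set.range (fun i => Multiplicative.ofAdd (Pi.single i (1 : ℤ)))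

/-- the l1 norm -/
def nm {d : ℕ} (v : Zd d) : ℕ := ∑ i, (v.toAdd i).natAbs

theorem nm_mul {d : ℕ} (u v : Zd d) : nm (u * v) ≤ nm u + nm v := by
  unfold nm
  rw [← Finset.sum_add_distrib]
  exact Finset.sum_le_sum fun i _ => Int.natAbs_add_le _ _

theorem nm_inv {d : ℕ} (u : Zd d) : nm u⁻¹ = nm u := by
  unfold nm
  exact Finset.sum_congr rfl fun i _ => Int.natAbs_neg _

theorem nm_stdB {d : ℕ} (u : Zd d) (hu : u ∈ stdB d) : nm u = 1 := by
  obtain ⟨i, rfl⟩ := hu
  unfold nm
  rw [Finset.sum_eq_single i]
  · simp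
  · intro j _ hj
    simp [Pi.single_eq_of_ne hj]
  · simp

theorem nm_update {d : ℕ} (v : Fin d → ℤ) (i : Fin d) (z : ℤ) :
    nm (Multiplicative.ofAdd (Function.update v i z)) + (v i).natAbs =
      nm (Multiplicative.ofAdd v) + z.natAbs := by
  classical
  unfold nm
  simp only [toAdd_ofAdd]
  rw [← Finset.add_sum_erase _ _ (Finset.mem_univ i),
    ← Finset.add_sum_erase (Finset.univ) (fun j => (v j).natAbs) (Finset.mem_univ i)]
  have h1 : ∑ x ∈ Finset.univ.erase i, (Function.update v i z x).natAbs =
      ∑ x ∈ Finset.univ.erase i, (v x).natAbs := by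
    refine Finset.sum_congr rfl fun x hx => ?_
    rw [Function.update_of_ne (Finset.ne_of_mem_erase hx)]
  rw [h1, Function.update_self]
  ring

theorem mem_ball_stdB {d : ℕ} (n : ℕ) : ∀ v : Zd d, v ∈ ball (stdB d) n ↔ nm v ≤ n := by
  classical
  induction n with
  | zero =>
    intro v
    rw [ball_zero, Set.mem_singleton_iff]
    constructor
    · rintro rfl
      simp [nm]
    · intro h
      have h0 : ∀ i, (v.toAdd i) = 0 := by
        intro i
        unfold nm at h
        have := Finset.single_le_sum (f := fun i => (v.toAdd i).natAbs)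
          (fun i _ => Nat.zero_le _) (Finset.mem_univ i)
        have h2 : (v.toAdd i).natAbs = 0 := by
          have h3 : (v.toAdd i).natAbs ≤ ∑ i, (v.toAdd i).natAbs := this
          omega
        exact Int.natAbs_eq_zero.mp h2
      have : v.toAdd = 0 := funext h0
      exact (toAdd_eq_zero).mp this
  | succ n ih =>
    intro v
    constructor
    · intro h
      obtain ⟨u, hu, w, hw, rfl⟩ := ball_split h
      have h1 := (ih u).mp hu
      have h2 : nm w ≤ 1 := by
        rw [ball_one] at hw
        rcases hw with (hw | hw) | hw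
        · exact (nm_stdB w hw).le
        · have := nm_stdB _ hw
          rw [nm_inv] at this
          exact this.le
        · rw [Set.mem_singleton_iff] at hw
          rw [hw]; simp [nm]
      have := nm_mul u w
      omega
    · intro h
      rcases Nat.lt_or_ge (nm v) (n + 1) with hlt | hge
      · exact ball_mono _ (Nat.le_succ n) ((ih v).mpr (by omega))
      · have hne : ∃ i, v.toAdd i ≠ 0 := by
          by_contra hcon
          push Not at hcon
          have : nm v = 0 := by
            unfold nm
            exact Finset.sum_eq_zero fun i _ => by rw [hcon i]; rfl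
          omega
        obtain ⟨i, hi⟩ := hne
        have key : ∀ z : ℤ, z.natAbs + 1 = (v.toAdd i).natAbs → ∀ e : Zd d,
            (e ∈ stdB d ∨ e⁻¹ ∈ stdB d) →
            v = Multiplicative.ofAdd (Function.update v.toAdd i z) * e →
            v ∈ ball (stdB d) (n + 1) := by
          intro z hz e he hv
          rw [hv]
          refine mul_mem_ball ((ih _).mpr ?_) (mem_ball_one he)
          have := nm_update v.toAdd i z
          rw [ofAdd_toAdd] at this
          omega
        rcases lt_or_gt_of_ne hi with hneg | hpos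
        · refine key (v.toAdd i + 1) (by omega) (Multiplicative.ofAdd (Pi.single i 1))⁻¹
            (Or.inr ⟨i, by rw [inv_inv]⟩) ?_
          apply Multiplicative.toAdd.injective
          funext j
          rw [toAdd_mul, toAdd_inv, toAdd_ofAdd, toAdd_ofAdd, Pi.add_apply, Pi.neg_apply]
          by_cases hj : j = i
          · subst hj
            rw [Function.update_self, Pi.single_eq_same]; ring
          · rw [Function.update_of_ne hj, Pi.single_eq_of_ne hj]; ring
        · refine key (v.toAdd i - 1) (by omega) (Multiplicative.ofAdd (Pi.single i 1))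
            (Or.inl ⟨i, rfl⟩) ?_
          apply Multiplicative.toAdd.injective
          funext j
          rw [toAdd_mul, toAdd_ofAdd, toAdd_ofAdd, Pi.add_apply]
          by_cases hj : j = i
          · subst hj
            rw [Function.update_self, Pi.single_eq_same]; ring
          · rw [Function.update_of_ne hj, Pi.single_eq_of_ne hj]; ring

theorem stdB_finite (d : ℕ) : (stdB d).Finite := Set.finite_range _

theorem stdB_closure (d : ℕ) : Subgroup.closure (stdB d) = ⊤ := by
  rw [eq_top_iff]
  intro v _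
  exact ball_subset_closure _ _ ((mem_ball_stdB (nm v) v).mpr (le_refl _))

theorem coord_sum {d : ℕ} (m : ℕ) (i : Fin d)
    (hf : (ball (stdB d) (m + 1) \ ball (stdB d) m).Finite) :
    ∑ v ∈ hf.toFinset, (v.toAdd i).natAbs ≤ 2 * (ball (stdB d) m).ncard := by
  classical
  have hB := ball_finite (stdB_finite d) m
  have h1 : ∑ v ∈ hf.toFinset, (v.toAdd i).natAbs =
      (hf.toFinset.sigma (fun v => Finset.range (v.toAdd i).natAbs)).card := by
    rw [Finset.card_sigma]
    exact Finset.sum_congr rfl fun v _ => (Finset.card_range _).symm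
  rw [h1, Set.ncard_eq_toFinset_card _ hB]
  have h2 : 2 * hB.toFinset.card = (hB.toFinset ×ˢ (Finset.univ : Finset Bool)).card := by
    rw [Finset.card_product, Finset.card_univ, Fintype.card_bool, mul_comm]
  rw [h2]
  have hmem : ∀ v : Zd d, v ∈ hf.toFinset ↔ nm v = m + 1 := by
    intro v
    rw [Set.Finite.mem_toFinset, Set.mem_sdiff, mem_ball_stdB, mem_ball_stdB]
    omega
  -- the value of the coordinate after the move
  let z : (Σ _ : Zd d, ℕ) → ℤ := fun p =>
    if 0 < p.1.toAdd i then p.1.toAdd i - (p.2 + 1) else p.1.toAdd i + (p.2 + 1)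
  have hz : ∀ p : (Σ _ : Zd d, ℕ), p.2 < (p.1.toAdd i).natAbs →
      (z p).natAbs + (p.2 + 1) = (p.1.toAdd i).natAbs := by
    intro p hp
    simp only [z]
    split_ifs with h <;> omega
  have hnm : ∀ p : (Σ _ : Zd d, ℕ), nm p.1 = m + 1 → p.2 < (p.1.toAdd i).natAbs →
      nm (Multiplicative.ofAdd (Function.update p.1.toAdd i (z p))) + (p.2 + 1) = m + 1 := by
    intro p hp1 hp2
    have h3 := nm_update p.1.toAdd i (z p)
    rw [ofAdd_toAdd, hp1] at h3
    have h4 := hz p hp2
    omega
  refine Finset.card_le_card_of_injOn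
    (fun p => (Multiplicative.ofAdd (Function.update p.1.toAdd i (z p)),
      decide (0 < p.1.toAdd i))) ?_ ?_
  · intro p hp
    rw [Finset.mem_coe, Finset.mem_sigma, hmem, Finset.mem_range] at hp
    rw [Finset.mem_coe, Finset.mem_product]
    refine ⟨?_, Finset.mem_univ _⟩
    rw [Set.Finite.mem_toFinset, mem_ball_stdB]
    have := hnm p hp.1 hp.2
    simp only
    omega
  · rintro ⟨u, a⟩ hp ⟨v, b⟩ hq heq
    rw [Finset.mem_coe, Finset.mem_sigma, hmem, Finset.mem_range] at hp hq
    simp only [Prod.mk.injEq] at heq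
    obtain ⟨h5, h6⟩ := heq
    have h7 := hnm ⟨u, a⟩ hp.1 hp.2
    have h8 := hnm ⟨v, b⟩ hq.1 hq.2
    simp only at h7 h8
    rw [h5] at h7
    have hab : a = b := by omega
    subst hab
    have h9 : Function.update u.toAdd i (z ⟨u, a⟩) = Function.update v.toAdd i (z ⟨v, a⟩) :=
      Multiplicative.ofAdd.injective h5
    have huv : u = v := by
      apply Multiplicative.toAdd.injective
      funext j
      have h10 := congrFun h9 j
      by_cases hj : j = i
      · subst hj
        rw [Function.update_self, Function.update_self] at h10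
        simp only [z] at h10
        simp only [decide_eq_decide] at h6
        split_ifs at h10 with h11 h12 h12
        · omega
        · exact absurd (h6.mp h11) h12
        · exact absurd (h6.mpr h12) h11
        · omega
      · rwa [Function.update_of_ne hj, Function.update_of_ne hj] at h10
    subst huv
    rfl

theorem stdB_ratio {d : ℕ} (m : ℕ) :
    (m + 1) * (ball (stdB d) (m + 1) \ ball (stdB d) m).ncard ≤
      2 * d * (ball (stdB d) m).ncard := by
  classical
  have hf : (ball (stdB d) (m + 1) \ ball (stdB d) m).Finite :=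
    (ball_finite (stdB_finite d) (m + 1)).sdiff
  have hmem : ∀ v : Zd d, v ∈ hf.toFinset → nm v = m + 1 := by
    intro v hv
    rw [Set.Finite.mem_toFinset, Set.mem_sdiff, mem_ball_stdB, mem_ball_stdB] at hv
    omega
  rw [Set.ncard_eq_toFinset_card _ hf]
  calc (m + 1) * hf.toFinset.card = ∑ v ∈ hf.toFinset, (m + 1) := by
        rw [Finset.sum_const, smul_eq_mul, mul_comm]
    _ = ∑ v ∈ hf.toFinset, ∑ i, (v.toAdd i).natAbs :=
        Finset.sum_congr rfl fun v hv => (hmem v hv).symm
    _ = ∑ i, ∑ v ∈ hf.toFinset, (v.toAdd i).natAbs := Finset.sum_comm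
    _ ≤ ∑ _i : Fin d, 2 * (ball (stdB d) m).ncard := Finset.sum_le_sum fun i _ => coord_sum m i hf
    _ = 2 * d * (ball (stdB d) m).ncard := by
        rw [Finset.sum_const, Finset.card_univ, Fintype.card_fin, smul_eq_mul]; ring

theorem stdB_growth {d : ℕ} (M : ℕ) :
    2 ^ d * (ball (stdB d) M).ncard ≤ (ball (stdB d) (2 * M + d)).ncard := by
  classical
  have hB := ball_finite (stdB_finite d) M
  have hB' := ball_finite (stdB_finite d) (2 * M + d)
  rw [Set.ncard_eq_toFinset_card _ hB, Set.ncard_eq_toFinset_card _ hB']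
  have h2 : 2 ^ d * hB.toFinset.card =
      ((Finset.univ : Finset (Fin d → Bool)) ×ˢ hB.toFinset).card := by
    rw [Finset.card_product, Finset.card_univ, Fintype.card_fun, Fintype.card_bool,
      Fintype.card_fin]
  rw [h2]
  refine Finset.card_le_card_of_injOn
    (fun p => Multiplicative.ofAdd (fun i => 2 * (p.2.toAdd i) + if p.1 i then 1 else 0)) ?_ ?_
  · rintro ⟨u, v⟩ hp
    rw [Finset.mem_coe, Finset.mem_product, Set.Finite.mem_toFinset, mem_ball_stdB] at hp
    rw [Finset.mem_coe, Set.Finite.mem_toFinset, mem_ball_stdB]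
    have h3 : nm v ≤ M := hp.2
    unfold nm at h3 ⊢
    simp only [toAdd_ofAdd]
    calc ∑ i, (2 * (v.toAdd i) + if u i then (1 : ℤ) else 0).natAbs
        ≤ ∑ i, (2 * (v.toAdd i).natAbs + 1) := by
          refine Finset.sum_le_sum fun i _ => ?_
          split_ifs <;> omega
      _ = 2 * ∑ i, (v.toAdd i).natAbs + d := by
          rw [Finset.sum_add_distrib, ← Finset.mul_sum]; simp
      _ ≤ 2 * M + d := by omega
  · rintro ⟨u, v⟩ _ ⟨u', v'⟩ _ h
    have h4 := Multiplicative.ofAdd.injective h
    have h5 : ∀ i, u i = u' i ∧ v.toAdd i = v'.toAdd i := by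
      intro i
      have h6 := congrFun h4 i
      rcases Bool.eq_false_or_eq_true (u i) with hu | hu <;>
        rcases Bool.eq_false_or_eq_true (u' i) with hu' | hu' <;>
        simp [hu, hu'] at h6 ⊢ <;> omega
    have h7 : u = u' := funext fun i => (h5 i).1
    have h8 : v = v' := Multiplicative.toAdd.injective (funext fun i => (h5 i).2)
    rw [h7, h8]

theorem zd_main {K : Type*} [Group K] (S : Set K) (hS : S.Finite)
    (hSc : Subgroup.closure S = ⊤)
    (hsub : Tendsto (fun n : ℕ => ((ball S n).ncard : ℝ) ^ ((1 : ℝ) / (n : ℝ))) atTop (𝓝 1))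
    (ε : ℝ) (hε : 0 < ε) : ∃ d₀ : ℕ, ∀ d : ℕ, d₀ ≤ d → ∀ᶠ n : ℕ in atTop,
      ((ball (un S (stdB d)) (n + 1) \ ball (un S (stdB d)) n).ncard : ℝ) ≤
        ε * ((ball (un S (stdB d)) n).ncard : ℝ) := by
  obtain ⟨k, hk⟩ := exists_nat_gt (2 / ε)
  have hk0 : (0 : ℝ) < k := lt_trans (by positivity) hk
  have hk1 : 1 ≤ k := by exact_mod_cast hk0
  have hl2 : 0 < Real.log 2 := Real.log_pos (by norm_num)
  obtain ⟨A, hA⟩ := exp_of_root (fun n => (ball S n).ncard) hsub
    (Real.log 2 / (12 * k)) (by positivity)
  set t : ℝ := Real.log 2 / (12 * k) with ht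
  have hA0 : 0 ≤ A := by
    have := hA 0
    simp only [Nat.cast_zero, mul_zero, Real.exp_zero, mul_one] at this
    exact (Nat.cast_nonneg _).trans this
  -- the rank is so large that k A e^t ≤ 2^(d/2)
  obtain ⟨d₁, hd₁⟩ := exists_nat_gt (2 * Real.log (k * A * Real.exp t + 1) / Real.log 2)
  refine ⟨max d₁ 1, fun d hd => ?_⟩
  have hd1 : (d₁ : ℝ) ≤ d := by exact_mod_cast (le_max_left _ _).trans hd
  have hd2 : 1 ≤ d := (le_max_right _ _).trans hd
  have hKd : (k : ℝ) * ((ball S (6 * d * k + 1)).ncard : ℝ) ≤ 2 ^ d := by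
    have h1 := hA (6 * d * k + 1)
    have h2 : t * ((6 * d * k + 1 : ℕ) : ℝ) = t + Real.log 2 / 2 * d := by
      push_cast
      rw [ht]
      field_simp
      ring
    rw [h2, Real.exp_add] at h1
    have h3 : (k : ℝ) * A * Real.exp t ≤ Real.exp (Real.log 2 / 2 * d) := by
      have h4 : Real.log (k * A * Real.exp t + 1) ≤ Real.log 2 / 2 * d := by
        rw [div_lt_iff₀ hl2] at hd₁
        nlinarith
      have h5 : 0 < (k : ℝ) * A * Real.exp t + 1 := by positivity
      calc (k : ℝ) * A * Real.exp t ≤ k * A * Real.exp t + 1 := by linarith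
        _ = Real.exp (Real.log (k * A * Real.exp t + 1)) := (Real.exp_log h5).symm
        _ ≤ _ := Real.exp_le_exp.mpr h4
    calc (k : ℝ) * ((ball S (6 * d * k + 1)).ncard : ℝ)
        ≤ k * (A * (Real.exp t * Real.exp (Real.log 2 / 2 * d))) :=
          mul_le_mul_of_nonneg_left h1 hk0.le
      _ = (k * A * Real.exp t) * Real.exp (Real.log 2 / 2 * d) := by ring
      _ ≤ Real.exp (Real.log 2 / 2 * d) * Real.exp (Real.log 2 / 2 * d) :=
          mul_le_mul_of_nonneg_right h3 (Real.exp_pos _).le
      _ = 2 ^ d := by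
          rw [← Real.exp_add]
          have : (2 : ℝ) ^ d = Real.exp (d * Real.log 2) := by
            rw [Real.exp_nat_mul, Real.exp_log (by norm_num)]
          rw [this]
          congr 1
          ring
  have hKd' : k * (ball S (6 * d * k + 1)).ncard ≤ 2 ^ d := by exact_mod_cast hKd
  have hM : ∀ m, 2 * d * k ≤ m →
      k * (ball (stdB d) (m + 1) \ ball (stdB d) m).ncard ≤ (ball (stdB d) m).ncard := by
    intro m hm
    have h1 := stdB_ratio (d := d) m
    refine Nat.le_of_mul_le_mul_left (c := 2 * d) ?_ (by omega)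
    calc 2 * d * (k * (ball (stdB d) (m + 1) \ ball (stdB d) m).ncard)
        = (2 * d * k) * (ball (stdB d) (m + 1) \ ball (stdB d) m).ncard := by ring
      _ ≤ (m + 1) * (ball (stdB d) (m + 1) \ ball (stdB d) m).ncard :=
          Nat.mul_le_mul_right _ (by omega)
      _ ≤ _ := h1
  have hL : k * (ball (stdB d) (2 * d * k)).ncard * (ball S (6 * d * k + 1)).ncard ≤
      (ball (stdB d) (6 * d * k)).ncard := by
    calc k * (ball (stdB d) (2 * d * k)).ncard * (ball S (6 * d * k + 1)).ncard
        = (k * (ball S (6 * d * k + 1)).ncard) * (ball (stdB d) (2 * d * k)).ncard := by ring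
      _ ≤ 2 ^ d * (ball (stdB d) (2 * d * k)).ncard := Nat.mul_le_mul_right _ hKd'
      _ ≤ (ball (stdB d) (2 * (2 * d * k) + d)).ncard := stdB_growth _
      _ ≤ (ball (stdB d) (6 * d * k)).ncard := by
          refine ncard_ball_mono (stdB_finite d) ?_
          nlinarith
  filter_upwards [eventually_ge_atTop (6 * d * k)] with n hn
  have h1 := prod_ratio_one hS (stdB_finite d) hSc (stdB_closure d) k (2 * d * k) (6 * d * k)
    hM hL n hn
  have h2 : (k : ℝ) * ((ball (un S (stdB d)) (n + 1) \ ball (un S (stdB d)) n).ncard : ℝ) ≤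
      2 * ((ball (un S (stdB d)) n).ncard : ℝ) := by exact_mod_cast h1
  rw [div_lt_iff₀ hε] at hk
  have h3 : (0 : ℝ) ≤ ((ball (un S (stdB d)) n).ncard : ℝ) := Nat.cast_nonneg _
  refine le_of_mul_le_mul_left ?_ hk0
  calc (k : ℝ) * ((ball (un S (stdB d)) (n + 1) \ ball (un S (stdB d)) n).ncard : ℝ)
      ≤ 2 * ((ball (un S (stdB d)) n).ncard : ℝ) := h2
    _ ≤ (k * ε) * ((ball (un S (stdB d)) n).ncard : ℝ) := mul_le_mul_of_nonneg_right hk.le h3
    _ = k * (ε * ((ball (un S (stdB d)) n).ncard : ℝ)) := by ring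

end Pool.Agent.Helper259_SB
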